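import Pool.Agent.Helper59.EK.DvApiM

/-!
# EK-15. Divisible subgroups of quotients
-/

set_option autoImplicit false

namespace Pool.Agent.Helper59.EK

universe u v

open Pool.Agent.Helper98.Engel Pool.Agent.Helper59.EI

variable {G : Type u} [Group G] {m : ℕ}

private theorem LiftE_relIndex {H : Type u} [Group H] {α : Type*} {P K : Subgroup H} {S : Set α}
    (hS : S.Finite) (f : H → α) (hf : ∀ x ∈ P, f x ∈ S)
    (hK : ∀ x ∈ P, ∀ y ∈ P, f x = f y → x⁻¹ * y ∈ K) : K.relIndex P ≠ 0 := by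
  have : Finite S := hS.to_subtype
  have h1 : Finite (P ⧸ K.subgroupOf P) := by
    refine Finite.of_injective
      (fun q : P ⧸ K.subgroupOf P => (⟨f (q.out : P), hf _ (q.out : P).2⟩ : S)) ?_
    intro q q' hqq
    have h2 : f (q.out : P) = f (q'.out : P) := congrArg Subtype.val hqq
    have h3 := hK _ (q.out : P).2 _ (q'.out : P).2 h2
    rw [← QuotientGroup.out_eq' q, ← QuotientGroup.out_eq' q', QuotientGroup.eq,
      Subgroup.mem_subgroupOf]
    exact h3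
  exact Subgroup.index_ne_zero_of_finite

/-- every element of a divisible subgroup lifts to an element centralising a finite set -/
private theorem LiftE_cover (hm : 0 < m) {X : Type u} [Group X] {K : Type u} [Group K]
    (f : X →* K) (hf : Function.Surjective f) {Q : Subgroup K} (hQ : Dv m Q) {S : Set X}
    (hS : S.Finite) (hn : ∀ w, f w ∈ Q → ∀ s ∈ S, w * s * w⁻¹ ∈ S) :
    ∀ q ∈ Q, ∃ x, f x = q ∧ ∀ s ∈ S, x * s = s * x := by
  classical
  choose g hg using hf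
  have hfin : Finite S := hS.to_subtype
  have h1 : ((Subgroup.centralizer S).map f).relIndex Q ≠ 0 := by
    refine LiftE_relIndex (S := Set.pi Set.univ (fun _ : S => S)) (Set.Finite.pi fun _ => hS)
      (fun q => fun s : S => g q * (s : X) * (g q)⁻¹) ?_ ?_
    · intro q hq
      rw [Set.mem_univ_pi]
      intro s
      exact hn _ (by rw [hg]; exact hq) s s.2
    · intro q _ q' _ h
      refine ⟨(g q)⁻¹ * g q', ?_, by rw [map_mul, map_inv, hg, hg]⟩
      rw [SetLike.mem_coe, Subgroup.mem_centralizer_iff]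
      intro s hs
      have h2 : g q * s * (g q)⁻¹ = g q' * s * (g q')⁻¹ := congrFun h ⟨s, hs⟩
      calc s * ((g q)⁻¹ * g q') = (g q)⁻¹ * (g q * s * (g q)⁻¹) * g q' := by group
        _ = (g q)⁻¹ * (g q' * s * (g q')⁻¹) * g q' := by rw [h2]
        _ = (g q)⁻¹ * g q' * s := by group
  intro q hq
  obtain ⟨x, hx, hxq⟩ := DvM.le_of_relIndex hm hQ h1 hq
  exact ⟨x, hxq, fun s hs => ((Subgroup.mem_centralizer_iff.1 hx) s hs).symm⟩

private theorem LiftE_comm1 {X : Type u} [Group X] {x y c : X} (h : x * y = c * (y * x))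
    (hc : c * x = x * c) (n : ℕ) : x ^ n * y = c ^ n * (y * x ^ n) := by
  induction n with
  | zero => simp
  | succ n ih =>
    have h1 : c ^ n * x = x * c ^ n := ((show Commute c x from hc).pow_left n).eq
    calc x ^ (n + 1) * y = x * (x ^ n * y) := by rw [pow_succ']; group
      _ = x * (c ^ n * (y * x ^ n)) := by rw [ih]
      _ = (x * c ^ n) * y * x ^ n := by group
      _ = (c ^ n * x) * y * x ^ n := by rw [h1]
      _ = c ^ n * (x * y) * x ^ n := by group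
      _ = c ^ n * (c * (y * x)) * x ^ n := by rw [h]
      _ = c ^ (n + 1) * (y * x ^ (n + 1)) := by rw [pow_succ c, pow_succ' x]; group

private theorem LiftE_comm2 {X : Type u} [Group X] {x y c : X} (h : x * y = c * (y * x))
    (hc : c * y = y * c) (n : ℕ) : x * y ^ n = c ^ n * (y ^ n * x) := by
  induction n with
  | zero => simp
  | succ n ih =>
    have h1 : c * y ^ n = y ^ n * c := ((show Commute c y from hc).pow_right n).eq
    calc x * y ^ (n + 1) = (x * y ^ n) * y := by rw [pow_succ]; group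
      _ = c ^ n * (y ^ n * x) * y := by rw [ih]
      _ = c ^ n * y ^ n * (x * y) := by group
      _ = c ^ n * y ^ n * (c * (y * x)) := by rw [h]
      _ = c ^ n * (y ^ n * c) * (y * x) := by group
      _ = c ^ n * (c * y ^ n) * (y * x) := by rw [h1]
      _ = c ^ (n + 1) * (y ^ (n + 1) * x) := by rw [pow_succ c, pow_succ y]; group

private theorem LiftE_pel {X : Type u} [Group X] {x : X} (j : ℕ) (h : PEl m (x ^ m ^ j)) :
    PEl m x := by
  obtain ⟨k, hk⟩ := h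
  exact ⟨j + k, by rw [pow_add, pow_mul, hk]⟩

private theorem LiftE_exp {X : Type u} [Group X] {N : Subgroup X} (hN : (N : Set X).Finite)
    (hp : ∀ x ∈ N, PEl m x) : ∃ k, ∀ x ∈ N, x ^ m ^ k = 1 := by
  classical
  choose! k hk using hp
  refine ⟨hN.toFinset.sup k, fun x hx => ?_⟩
  have h1 : k x ≤ hN.toFinset.sup k := Finset.le_sup (f := k) (hN.mem_toFinset.2 hx)
  obtain ⟨d, hd⟩ := Nat.exists_eq_add_of_le h1
  rw [hd, pow_add, pow_mul, hk x hx, one_pow]

private theorem LiftE_fin (hm : 0 < m) {X : Type u} [Group X] {K : Type u} [Group K]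
    (f : X →* K) (hf : Function.Surjective f) {N : Subgroup X} (hker : ∀ x, f x = 1 ↔ x ∈ N)
    (hN : (N : Set X).Finite) (hp : ∀ x ∈ N, PEl m x) {Q : Subgroup K} (hQ : Dv m Q)
    (hne : Q ≠ ⊥) :
    ∃ D : Subgroup X, Dv m D ∧ D ≠ ⊥ ∧ ∀ w, f w ∈ Nr Q → ∀ h ∈ D, w * h * w⁻¹ ∈ D := by
  obtain ⟨k, hk⟩ := LiftE_exp hN hp
  have hNn : ∀ w : X, ∀ s ∈ N, w * s * w⁻¹ ∈ N := by
    intro w s hs
    rw [← hker, map_mul, map_mul, map_inv, (hker s).2 hs, mul_one, mul_inv_cancel]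
  set C : Subgroup X := Q.comap f ⊓ Subgroup.centralizer (N : Set X) with hCdef
  have hCQ : ∀ x ∈ C, f x ∈ Q := fun x hx => hx.1
  have hCN : ∀ x ∈ C, ∀ a ∈ N, x * a = a * x := fun x hx a ha =>
    ((Subgroup.mem_centralizer_iff.1 hx.2) a ha).symm
  have hlift : ∀ q ∈ Q, ∃ x ∈ C, f x = q := by
    intro q hq
    obtain ⟨x, hx, hxs⟩ := LiftE_cover hm f hf hQ hN (fun w _ => hNn w) q hq
    refine ⟨x, ⟨?_, ?_⟩, hx⟩
    · change f x ∈ Q
      rw [hx]
      exact hq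
    · exact Subgroup.mem_centralizer_iff.2 fun s hs => (hxs s hs).symm
  have hroot : ∀ x ∈ C, ∀ j, ∃ y ∈ C, ∃ z ∈ N, z ∈ C ∧ x = y ^ m ^ j * z := by
    intro x hx j
    obtain ⟨r, hr, hrx⟩ := DvM.exists_pow hQ (hCQ x hx) j
    obtain ⟨y, hy, rfl⟩ := hlift r hr
    refine ⟨y, hy, (y ^ m ^ j)⁻¹ * x, ?_, C.mul_mem (C.inv_mem (C.pow_mem hy _)) hx, by group⟩
    rw [← hker, map_mul, map_inv, map_pow, hrx, inv_mul_cancel]
  have hcomm : ∀ x ∈ C, ∀ y ∈ C, x * y = y * x := by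
    intro x hx y hy
    obtain ⟨x1, hx1, z, hz, hzC, rfl⟩ := hroot x hx k
    have hc : x1 * y * x1⁻¹ * y⁻¹ ∈ N := by
      rw [← hker, map_mul, map_mul, map_mul, map_inv, map_inv,
        hQ.comm _ (hCQ x1 hx1) _ (hCQ y hy)]
      group
    have h1 : x1 * y = (x1 * y * x1⁻¹ * y⁻¹) * (y * x1) := by group
    have h2 := LiftE_comm1 h1 (hCN x1 hx1 _ hc).symm (m ^ k)
    rw [hk _ hc, one_mul] at h2
    calc x1 ^ m ^ k * z * y = x1 ^ m ^ k * (z * y) := by group
      _ = x1 ^ m ^ k * (y * z) := by rw [hCN y hy z hz]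
      _ = (x1 ^ m ^ k * y) * z := by group
      _ = y * (x1 ^ m ^ k * z) := by rw [h2]; group
  refine ⟨Ab.powS C hcomm (m ^ k), ⟨?_, ?_, ?_⟩, ?_, ?_⟩
  · rintro _ ⟨x, hx, rfl⟩ _ ⟨y, hy, rfl⟩
    exact hcomm _ (C.pow_mem hx _) _ (C.pow_mem hy _)
  · rintro _ ⟨x, hx, rfl⟩
    apply PEl.pow
    obtain ⟨j, hj⟩ := hQ.pel _ (hCQ x hx)
    rw [← map_pow, hker] at hj
    exact LiftE_pel j (hp _ hj)
  · rintro _ ⟨x, hx, rfl⟩
    obtain ⟨y, hy, z, hz, hzC, rfl⟩ := hroot x hx 1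
    refine ⟨y ^ m ^ k, ⟨y, hy, rfl⟩, ?_⟩
    have h1 : Commute (y ^ m ^ 1) z := hCN _ (C.pow_mem hy _) z hz
    rw [h1.mul_pow, hk z hz, mul_one, pow_one, ← pow_mul, ← pow_mul, mul_comm]
  · intro h
    apply hne
    rw [eq_bot_iff]
    intro q hq
    obtain ⟨r, hr, rfl⟩ := DvM.exists_pow hQ hq k
    obtain ⟨x, hx, rfl⟩ := hlift r hr
    have h1 : x ^ m ^ k ∈ Ab.powS C hcomm (m ^ k) := ⟨x, hx, rfl⟩
    rw [h, Subgroup.mem_bot] at h1
    rw [Subgroup.mem_bot, ← map_pow, h1, map_one]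
  · rintro w hw _ ⟨x, hx, rfl⟩
    refine ⟨w * x * w⁻¹, ⟨?_, ?_⟩, ?_⟩
    · change f (w * x * w⁻¹) ∈ Q
      rw [map_mul, map_mul, map_inv]
      exact (mem_Nr.1 hw _).1 (hCQ x hx)
    · refine Subgroup.mem_centralizer_iff.2 ?_
      intro a ha
      have h1 := hNn w⁻¹ a ha
      rw [inv_inv] at h1
      have h2 := hCN x hx _ h1
      calc a * (w * x * w⁻¹) = w * ((w⁻¹ * a * w) * x) * w⁻¹ := by group
        _ = w * (x * (w⁻¹ * a * w)) * w⁻¹ := by rw [h2]
        _ = w * x * w⁻¹ * a := by group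
    · rw [conj_pow]

/-- quotient by a finite normal subgroup: Let `Q'` be the preimage of `Q`, `C = C_{Q'}(A)`. Then
`Q' = C A`, `C` is abelian (`C / (C ∩ A)` is divisible and `C ∩ A` finite and central), and the `D` of
all `x ^ (m ^ k)`, `x ∈ C`, where `a ^ (m ^ k) = 1` on `A`, does the job. -/
theorem lift_fin (hm : 0 < m) {A W : Subgroup G} (hAW : A ≤ W) (hA : (A : Set G).Finite)
    (hp : ∀ x ∈ A, PEl m x) {K : Type u} [Group K] (f : W →* K) (hf : Function.Surjective f)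
    (hk : ∀ x, f x = 1 ↔ (x : G) ∈ A) {Q : Subgroup K} (hQ : Dv m Q) (hne : Q ≠ ⊥) :
    ∃ D : Subgroup G, Dv m D ∧ D ≠ ⊥ ∧ ∀ w : W, f w ∈ Nr Q → (w : G) ∈ Nr D := by
  have _ := hAW
  obtain ⟨D, hD, hD1, hD2⟩ := LiftE_fin hm f hf (N := A.subgroupOf W)
    (fun x => by rw [hk, Subgroup.mem_subgroupOf])
    ((Set.Finite.preimage (f := fun x : W => (x : G)) (Subtype.val_injective.injOn) hA).subset
      fun x hx => hx) (fun x hx => by
      obtain ⟨j, hj⟩ := hp _ (Subgroup.mem_subgroupOf.1 hx)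
      exact ⟨j, Subtype.ext (by push_cast; exact hj)⟩) hQ hne
  refine ⟨D.map W.subtype, DvM.map _ hD, ?_, ?_⟩
  · intro h
    apply hD1
    rw [eq_bot_iff]
    intro x hx
    have h1 : W.subtype x ∈ D.map W.subtype := ⟨x, hx, rfl⟩
    rw [h, Subgroup.mem_bot] at h1
    rw [Subgroup.mem_bot]
    exact W.subtype_injective (h1.trans (map_one _).symm)
  · intro w hw
    rw [mem_Nr]
    intro h
    constructor
    · rintro ⟨x, hx, rfl⟩
      exact ⟨w * x * w⁻¹, hD2 w hw x hx, by simp⟩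
    · rintro ⟨x, hx, hxh⟩
      refine ⟨w⁻¹ * x * w, ?_, ?_⟩
      · have h1 := hD2 w⁻¹ (by rw [map_inv]; exact inv_mem hw) x hx
        rwa [inv_inv] at h1
      · have h1 : W.subtype (w⁻¹ * x * w) = (w : G)⁻¹ * W.subtype x * w := by simp
        rw [h1, hxh]
        group

private theorem LiftE_dv (hm : 0 < m) {X : Type u} [Group X] (ht : Thin m X) {K : Type u}
    [Group K] (f : X →* K) (hf : Function.Surjective f) {N : Subgroup X}
    (hker : ∀ x, f x = 1 ↔ x ∈ N) (hN : Dv m N) {Q : Subgroup K} (hQ : Dv m Q) :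
    Dv m (Q.comap f) := by
  have hNn : ∀ w : X, ∀ s ∈ N, w * s * w⁻¹ ∈ N := by
    intro w s hs
    rw [← hker, map_mul, map_mul, map_inv, (hker s).2 hs, mul_one, mul_inv_cancel]
  have hpel : ∀ x, f x ∈ Q → PEl m x := by
    intro x hx
    obtain ⟨j, hj⟩ := hQ.pel _ hx
    rw [← map_pow, hker] at hj
    exact LiftE_pel j (hN.pel _ hj)
  have hcen : ∀ x, f x ∈ Q → ∀ a ∈ N, x * a = a * x := by
    intro x hx a ha
    obtain ⟨k, hk⟩ := hN.pel a ha
    obtain ⟨y, hy, hys⟩ := LiftE_cover hm f hf hQ (abM_fin hm ht hN.comm k)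
      (fun w _ s hs => ⟨hNn w s hs.1, by rw [conj_pow, hs.2, mul_one, mul_inv_cancel]⟩) (f x) hx
    have h1 : y⁻¹ * x ∈ N := by rw [← hker, map_mul, map_inv, hy, inv_mul_cancel]
    calc x * a = y * ((y⁻¹ * x) * a) := by group
      _ = y * (a * (y⁻¹ * x)) := by rw [hN.comm _ h1 a ha]
      _ = (y * a) * (y⁻¹ * x) := by group
      _ = (a * y) * (y⁻¹ * x) := by rw [hys a ⟨ha, hk⟩]
      _ = a * x := by group
  have hroot : ∀ x, f x ∈ Q → ∀ j, ∃ y, f y ∈ Q ∧ ∃ z ∈ N, x = y ^ m ^ j * z := by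
    intro x hx j
    obtain ⟨r, hr, hrx⟩ := DvM.exists_pow hQ hx j
    obtain ⟨y, rfl⟩ := hf r
    refine ⟨y, hr, (y ^ m ^ j)⁻¹ * x, ?_, by group⟩
    rw [← hker, map_mul, map_inv, map_pow, hrx, inv_mul_cancel]
  refine ⟨?_, fun x hx => hpel x hx, ?_⟩
  · intro x hx y hy
    change f x ∈ Q at hx
    change f y ∈ Q at hy
    obtain ⟨k, hk⟩ := hpel y hy
    obtain ⟨x1, hx1, z, hz, rfl⟩ := hroot x hx k
    have hc : x1 * y * x1⁻¹ * y⁻¹ ∈ N := by
      rw [← hker, map_mul, map_mul, map_mul, map_inv, map_inv, hQ.comm _ hx1 _ hy]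
      group
    have h1 : x1 * y = (x1 * y * x1⁻¹ * y⁻¹) * (y * x1) := by group
    have h2 := LiftE_comm2 h1 (hcen y hy _ hc).symm (m ^ k)
    rw [hk, mul_one, one_mul] at h2
    have h3 : (x1 * y * x1⁻¹ * y⁻¹) ^ m ^ k = 1 := mul_eq_right.1 h2.symm
    have h4 := LiftE_comm1 h1 (hcen x1 hx1 _ hc).symm (m ^ k)
    rw [h3, one_mul] at h4
    calc x1 ^ m ^ k * z * y = x1 ^ m ^ k * (z * y) := by group
      _ = x1 ^ m ^ k * (y * z) := by rw [hcen y hy z hz]
      _ = (x1 ^ m ^ k * y) * z := by group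
      _ = y * (x1 ^ m ^ k * z) := by rw [h4]; group
  · intro x hx
    obtain ⟨y, hy, z, hz, rfl⟩ := hroot x hx 1
    obtain ⟨z1, hz1, rfl⟩ := hN.div z hz
    refine ⟨y * z1, ?_, ?_⟩
    · change f (y * z1) ∈ Q
      rw [map_mul, (hker z1).2 hz1, mul_one]
      exact hy
    · rw [(show Commute y z1 from hcen y hy z1 hz1).mul_pow, pow_one]

/-- quotient by a divisible normal subgroup `P`: the preimage `D` of `Q` centralises the finite
subgroups of `P` of the elements with `x ^ m ^ k = 1`, so `P` is central in `D`; `D` is abelian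
(`[x, y] = [x₁ ^ n z, y] = [x₁, y ^ n] = 1`) and divisible. -/
theorem lift_dv (hm : 0 < m) (ht : Thin m G) {P W : Subgroup G} (hPW : P ≤ W) (hP : Dv m P)
    {K : Type u} [Group K] (f : W →* K) (hf : Function.Surjective f)
    (hk : ∀ x, f x = 1 ↔ (x : G) ∈ P) {Q : Subgroup K} (hQ : Dv m Q) (hne : Q ≠ ⊥) :
    ∃ D : Subgroup G, Dv m D ∧ P ≤ D ∧ D ≠ P ∧ ∀ w : W, f w ∈ Nr Q → (w : G) ∈ Nr D := by
  have hker : ∀ x : W, f x = 1 ↔ x ∈ P.subgroupOf W := fun x => by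
    rw [hk, Subgroup.mem_subgroupOf]
  have hN : Dv m (P.subgroupOf W) := by
    refine ⟨?_, ?_, ?_⟩
    · intro x hx y hy
      exact Subtype.ext (hP.comm _ hx _ hy)
    · intro x hx
      obtain ⟨j, hj⟩ := hP.pel _ (Subgroup.mem_subgroupOf.1 hx)
      exact ⟨j, Subtype.ext (by push_cast; exact hj)⟩
    · intro x hx
      obtain ⟨y, hy, hyx⟩ := hP.div _ (Subgroup.mem_subgroupOf.1 hx)
      exact ⟨⟨y, hPW hy⟩, hy, Subtype.ext hyx⟩
  have hD := LiftE_dv hm (ht.sub W) f hf hker hN hQ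
  refine ⟨(Q.comap f).map W.subtype, DvM.map _ hD, ?_, ?_, ?_⟩
  · intro x hx
    refine ⟨⟨x, hPW hx⟩, ?_, rfl⟩
    change f ⟨x, hPW hx⟩ ∈ Q
    rw [(hk ⟨x, hPW hx⟩).2 hx]
    exact one_mem _
  · intro h
    apply hne
    rw [eq_bot_iff]
    intro q hq
    obtain ⟨x, rfl⟩ := hf q
    have h1 : W.subtype x ∈ (Q.comap f).map W.subtype := ⟨x, hq, rfl⟩
    rw [h] at h1
    rw [Subgroup.mem_bot]
    exact (hk x).2 h1
  · intro w hw
    rw [mem_Nr]
    intro h
    constructor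
    · rintro ⟨x, hx, rfl⟩
      refine ⟨w * x * w⁻¹, ?_, by simp⟩
      change f (w * x * w⁻¹) ∈ Q
      rw [map_mul, map_mul, map_inv]
      exact (mem_Nr.1 hw _).1 hx
    · rintro ⟨x, hx, hxh⟩
      refine ⟨w⁻¹ * x * w, ?_, ?_⟩
      · change f (w⁻¹ * x * w) ∈ Q
        rw [map_mul, map_mul, map_inv]
        exact (mem_Nr'.1 hw _).1 hx
      · have h1 : W.subtype (w⁻¹ * x * w) = (w : G)⁻¹ * W.subtype x * w := by simp
        rw [h1, hxh]
        group

end Pool.Agent.Helper59.EK
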