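import Pool.Agent.Helper59.EK.SecE
import Pool.Agent.Helper59.EK.LiftE

/-!
# EK-16. Reduction to (G3)

Compare EI/S2.lean.
-/

set_option autoImplicit false

namespace Pool.Agent.Helper59.EK

universe u v

open Pool.Agent.Helper98.Engel Pool.Agent.Helper59.EI

variable {G : Type u} [Group G] {m : ℕ}

/-- Let `P` be a maximal divisible subgroup with `⟨TN T P⟩` not locally finite (Zorn, `DvM.acc`),
`S = TN T P`, `K` the quotient of `⟨S⟩ P` by `P`, `T' = imgE f S`. (G3) by `lift_dv`. -/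
theorem s2E {T : Set G} (h : BaseE G m T) :
    ∃ (K : Type u) (_ : Group K) (T' : Set K), BaseE K m T' ∧ G3E m T' := by
  have := h.cnt
  have hm := h.pos
  set F : Set (Subgroup G) := {P | Dv m P ∧ ¬ LF (Subgroup.closure (TN T P))} with hF
  have hbot : (⊥ : Subgroup G) ∈ F := by
    refine ⟨Dv_bot m, ?_⟩
    intro hLF
    apply h.bad
    rw [← h.gen]
    refine hLF.mono ?_
    rw [Subgroup.closure_le]
    intro t ht
    refine Subgroup.subset_closure ⟨ht, ?_⟩
    rw [mem_Nr]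
    intro x
    rw [Subgroup.mem_bot, Subgroup.mem_bot]
    constructor
    · rintro rfl
      group
    · intro h1
      have h2 : x = t⁻¹ * (t * x * t⁻¹) * t := by group
      rw [h2, h1]
      group
  obtain ⟨P, hP, hmax⟩ : ∃ P, P ∈ F ∧ ∀ Q ∈ F, P ≤ Q → Q ≤ P := by
    obtain ⟨P, hP1, hP2⟩ := zorn_le_nonempty₀ F (by
      intro c hcF hc y hy
      have h1 : sSup c ∈ c :=
        DvM.acc hm h.thin ⟨y, hy⟩ hc.directedOn (fun H hH => (hcF hH).1)
      exact ⟨sSup c, hcF h1, fun z hz => le_sSup hz⟩) ⊥ hbot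
    exact ⟨P, hP2.1, fun Q hQ hPQ => hP2.2 hQ hPQ⟩
  have hST : TN T P ⊆ T := fun t ht => ht.1
  have hSA : ∀ s ∈ TN T P, s ∈ Nr P := fun s hs => hs.2
  have hSS : ∀ s ∈ TN T P, ∀ s' ∈ TN T P, s'⁻¹ * s * s' ∈ TN T P ∧ s' * s * s'⁻¹ ∈ TN T P := by
    intro s hs s' hs'
    have h1 := h.conj s hs.1 s'
    have h2 := h.conj s hs.1 s'⁻¹
    rw [inv_inv] at h2
    have hi := (Nr P).inv_mem hs'.2
    exact ⟨⟨h1, (Nr P).mul_mem ((Nr P).mul_mem hi hs.2) hs'.2⟩,
      ⟨h2, (Nr P).mul_mem ((Nr P).mul_mem hs'.2 hs.2) hi⟩⟩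
  have hWP : Subgroup.closure (TN T P) ⊔ P ≤ Nr P := by
    refine sup_le ?_ (le_Nr P)
    rw [Subgroup.closure_le]
    exact hSA
  have : (P.subgroupOf (Subgroup.closure (TN T P) ⊔ P)).Normal :=
    Subgroup.normal_subgroupOf_iff_le_normalizer le_sup_right |>.2 hWP
  let f := QuotientGroup.mk' (P.subgroupOf (Subgroup.closure (TN T P) ⊔ P))
  have hf : Function.Surjective f := QuotientGroup.mk'_surjective _
  have hk : ∀ x, f x = 1 ↔ (x : G) ∈ P := by
    intro x
    change ((x : _) : _ ⧸ (P.subgroupOf (Subgroup.closure (TN T P) ⊔ P))) = 1 ↔ _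
    rw [QuotientGroup.eq_one_iff, Subgroup.mem_subgroupOf]
  refine ⟨_, inferInstance, imgE f (TN T P), ?_, ?_⟩
  · exact baseE_quot h.thin h.toET (DvM.lf hm hP.1) hST hSA hSS hP.2 f hf hk
  · intro Q hQ hne
    obtain ⟨D, hD, hPD, hDP, hn⟩ := lift_dv hm h.thin le_sup_right hP.1 f hf hk hQ hne
    have hDF : D ∉ F := fun hDF => hDP (le_antisymm (hmax D hDF hPD) hPD)
    have hLF : LF (Subgroup.closure (TN T D)) := by
      by_contra hc
      exact hDF ⟨hD, hc⟩
    set R : Subgroup ↥(Subgroup.closure (TN T P) ⊔ P) :=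
      Subgroup.closure {x | (x : G) ∈ TN T D} with hR
    have hRLF : LF R := by
      apply SecB.lf_sub
      refine hLF.mono ?_
      rw [hR, MonoidHom.map_closure, Subgroup.closure_le]
      rintro _ ⟨x, hx, rfl⟩
      exact Subgroup.subset_closure hx
    refine (LF.map f hRLF).mono ?_
    rw [Subgroup.closure_le]
    rintro _ ⟨⟨_, s, hs, rfl⟩, hnr⟩
    exact ⟨s, Subgroup.subset_closure ⟨hs.1, hn s hnr⟩, rfl⟩

end Pool.Agent.Helper59.EK
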