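import Pool.Agent.Helper59.EK.Defs
import Pool.Agent.Helper59.EI.B2
import Pool.Agent.Helper59.EI.B4

/-!
# EK-8. Locally finite groups generated by left Engel elements
-/

set_option autoImplicit false

namespace Pool.Agent.Helper59.EK

universe u v

open Pool.Agent.Helper98.Engel Pool.Agent.Helper59.EI

variable {G : Type u} [Group G] {m : ℕ}

/-- Baer: a finite group generated by a normal set of left Engel elements is nilpotent
(`baer_finite` of EI). -/
theorem baer_fin {F : Type u} [Group F] [Finite F] {T : Set F}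
    (hT : ∀ t ∈ T, ∀ g : F, g⁻¹ * t * g ∈ T) (hl : ∀ t ∈ T, IsLeftEngel t)
    (hg : Subgroup.closure T = ⊤) : Group.IsNilpotent F := by
  have h1 := (baer_finite hT hl fun M _ _ => Set.toFinite _).2
  rw [hg] at h1
  exact Group.nilpotent_of_mulEquiv Subgroup.topEquiv

/-- elements of coprime orders of a nilpotent group commute -/
private theorem bse_comm (G : Type u) [Group G] [Group.IsNilpotent G] :
    ∀ (x y : G) (a b : ℕ), a.Coprime b → x ^ a = 1 → y ^ b = 1 → x * y = y * x := by
  apply @Group.nilpotent_center_quotient_ind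
    (fun (G : Type u) (_ : Group G) (_ : Group.IsNilpotent G) => ∀ (x y : G) (a b : ℕ),
      a.Coprime b → x ^ a = 1 → y ^ b = 1 → x * y = y * x) G _ _
  · intro G _ _ x y _ _ _ _ _
    exact Subsingleton.elim _ _
  · intro G _ _ ih x y a b hab hx hy
    have h1 := ih (x : G ⧸ Subgroup.center G) (y : G ⧸ Subgroup.center G) a b hab
      (by rw [← QuotientGroup.mk_pow, hx, QuotientGroup.mk_one])
      (by rw [← QuotientGroup.mk_pow, hy, QuotientGroup.mk_one])
    rw [← QuotientGroup.mk_mul, ← QuotientGroup.mk_mul, QuotientGroup.eq] at h1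
    obtain ⟨c, hc, hc2⟩ : ∃ c ∈ Subgroup.center G, y * x = (x * y) * c :=
      ⟨(x * y)⁻¹ * (y * x), h1, by group⟩
    have hcc : ∀ g : G, c * g = g * c := fun g => ((Subgroup.mem_center_iff.1 hc) g).symm
    have e1 : x⁻¹ * y * x = y * c := by
      calc x⁻¹ * y * x = x⁻¹ * (y * x) := by group
        _ = y * c := by rw [hc2]; group
    have e2 : y * x * y⁻¹ = x * c := by
      calc y * x * y⁻¹ = (x * y) * c * y⁻¹ := by rw [hc2]
        _ = x * y * (c * y⁻¹) := by group
        _ = x * y * (y⁻¹ * c) := by rw [hcc]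
        _ = x * c := by group
    have f1 : c ^ b = 1 := by
      have h2 : (x⁻¹ * y * x) ^ b = 1 := by
        have := conj_pow (i := b) (a := x⁻¹) (b := y)
        rw [inv_inv] at this
        rw [this, hy]; group
      rw [e1, (show Commute y c from (hcc y).symm).mul_pow, hy, one_mul] at h2
      exact h2
    have f2 : c ^ a = 1 := by
      have h2 : (y * x * y⁻¹) ^ a = 1 := by
        rw [conj_pow, hx]; group
      rw [e2, (show Commute x c from (hcc x).symm).mul_pow, hx, one_mul] at h2
      exact h2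
    have f3 : c = 1 := by
      have h3 : orderOf c ∣ Nat.gcd a b :=
        Nat.dvd_gcd (orderOf_dvd_of_pow_eq_one f2) (orderOf_dvd_of_pow_eq_one f1)
      rw [hab, Nat.dvd_one, orderOf_eq_one_iff] at h3
      exact h3
    rw [hc2, f3, mul_one]

/-- the primes dividing the order of a finite nilpotent group generated by elements of order
dividing `m` divide `m` -/
private theorem bse_prime {F : Type u} [Group F] [Finite F] [Group.IsNilpotent F] {S : Set F}
    (hS : Subgroup.closure S = ⊤) (hm : ∀ s ∈ S, s ^ m = 1) {p : ℕ} (hp : p.Prime)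
    (hpF : p ∣ Nat.card F) : p ∣ m := by
  by_contra hpm
  have : Fact p.Prime := ⟨hp⟩
  obtain ⟨P⟩ : Nonempty (Sylow p F) := inferInstance
  have hcop : ∀ k : ℕ, (p ^ k).Coprime m := fun k =>
    Nat.Coprime.pow_left k ((Nat.Prime.coprime_iff_not_dvd hp).2 hpm)
  have hcent : ∀ y ∈ P, ∀ g : F, y * g = g * y := by
    intro y hy g
    obtain ⟨k, hk⟩ := P.isPGroup' ⟨y, hy⟩
    have hk' : y ^ p ^ k = 1 := by simpa using congrArg Subtype.val hk
    have h1 : S ⊆ (Subgroup.centralizer {y} : Subgroup F) := by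
      intro s hs
      rw [SetLike.mem_coe, Subgroup.mem_centralizer_singleton_iff]
      exact (bse_comm F y s (p ^ k) m (hcop k) hk' (hm s hs)).symm
    have h2 : (⊤ : Subgroup F) ≤ Subgroup.centralizer {y} := by
      rw [← hS, Subgroup.closure_le]
      exact h1
    exact ((Subgroup.mem_centralizer_singleton_iff).1 (h2 (Subgroup.mem_top g))).symm
  have hP : Subgroup.normalizer (P : Set F) ≤ Subgroup.centralizer (P : Set F) := by
    intro g _
    rw [Subgroup.mem_centralizer_iff]
    intro y hy
    exact hcent y hy g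
  have hker : (MonoidHom.transferSylow P hP).ker = ⊤ := by
    rw [eq_top_iff, ← hS, Subgroup.closure_le]
    intro s hs
    rw [SetLike.mem_coe, MonoidHom.mem_ker]
    obtain ⟨k, hk⟩ := P.isPGroup' (MonoidHom.transferSylow P hP s)
    have h1 : (MonoidHom.transferSylow P hP s) ^ m = 1 := by
      rw [← map_pow, hm s hs, map_one]
    have h2 : orderOf (MonoidHom.transferSylow P hP s) ∣ Nat.gcd (p ^ k) m :=
      Nat.dvd_gcd (orderOf_dvd_of_pow_eq_one hk) (orderOf_dvd_of_pow_eq_one h1)
    rw [hcop k, Nat.dvd_one, orderOf_eq_one_iff] at h2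
    exact h2
  have h3 := MonoidHom.not_dvd_card_ker_transferSylow P hP
  rw [hker, Subgroup.card_top] at h3
  exact h3 hpF

private theorem bse_pel {F : Type u} [Group F] [Finite F] [Group.IsNilpotent F] {S : Set F}
    (hm0 : 0 < m) (hS : Subgroup.closure S = ⊤) (hm : ∀ s ∈ S, s ^ m = 1) (x : F) :
    PEl m x := by
  have hn : orderOf x ≠ 0 := (orderOf_pos x).ne'
  refine ⟨orderOf x, orderOf_dvd_iff_pow_eq_one.1 ?_⟩
  rw [← Nat.factorization_le_iff_dvd hn (pow_pos hm0 _).ne', Nat.factorization_pow]
  intro p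
  by_cases h0 : (orderOf x).factorization p = 0
  · rw [h0]
    exact Nat.zero_le _
  · have hp : p.Prime := by
      by_contra hp
      exact h0 (Nat.factorization_eq_zero_of_not_prime _ hp)
    have hd : p ∣ orderOf x := Nat.dvd_of_factorization_pos h0
    have h1 : p ∣ m := bse_prime hS hm hp (hd.trans (orderOf_dvd_natCard x))
    have h2 : 1 ≤ m.factorization p := hp.factorization_pos_of_dvd hm0.ne' h1
    have h3 : (orderOf x).factorization p ≤ orderOf x := (Nat.factorization_lt p hn).le
    calc (orderOf x).factorization p ≤ orderOf x := h3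
      _ = orderOf x * 1 := (mul_one _).symm
      _ ≤ orderOf x * m.factorization p := Nat.mul_le_mul_left _ h2
      _ = (orderOf x • m.factorization) p := by simp

private theorem bse_eng_coe {H : Subgroup G} (g x : H) (n : ℕ) :
    ((eng g n x : H) : G) = eng (g : G) n (x : G) := by
  induction n with
  | zero => rfl
  | succ n ih =>
    change (((eng g n x)⁻¹ * g⁻¹ * eng g n x * g : H) : G) = _
    rw [Subgroup.coe_mul, Subgroup.coe_mul, Subgroup.coe_mul, Subgroup.coe_inv, Subgroup.coe_inv,
      ih]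
    rfl

/-- finite subgroups generated by elements of `T` -/
private theorem bse_fin {T : Set G} (h : ET m T) {s : Set G} (hsT : s ⊆ T)
    (hfin : ((Subgroup.closure s : Subgroup G) : Set G).Finite) :
    Group.IsNilpotent (Subgroup.closure s) ∧ ∀ x ∈ Subgroup.closure s, PEl m x := by
  have hF : Finite (Subgroup.closure s : Subgroup G) := hfin.to_subtype
  obtain ⟨T', hT'⟩ : ∃ T' : Set (Subgroup.closure s : Subgroup G),
      T' = {f : (Subgroup.closure s : Subgroup G) | (f : G) ∈ T} := ⟨_, rfl⟩
  have hgen : Subgroup.closure T' = ⊤ := by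
    rw [eq_top_iff, ← Subgroup.closure_closure_coe_preimage (k := s), Subgroup.closure_le]
    intro f hf
    refine Subgroup.subset_closure ?_
    rw [hT']
    exact hsT hf
  have hnil : Group.IsNilpotent (Subgroup.closure s) := by
    refine baer_fin (T := T') ?_ ?_ hgen
    · intro t ht g
      rw [hT'] at ht ⊢
      exact h.conj _ ht g
    · intro t ht x
      rw [hT'] at ht
      obtain ⟨n, hn⟩ := h.lft _ ht (x : G)
      exact ⟨n, Subtype.ext (by rw [bse_eng_coe, hn, Subgroup.coe_one])⟩
  refine ⟨hnil, fun x hx => ?_⟩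
  have h1 := bse_pel (F := (Subgroup.closure s : Subgroup G)) h.pos hgen (fun t ht => by
    rw [hT'] at ht
    exact Subtype.ext (by rw [Subgroup.coe_pow, h.pow _ ht, Subgroup.coe_one])) ⟨x, hx⟩
  exact h1.map (Subgroup.closure s).subtype

/-- locally finite subgroups generated by elements of `T` are locally nilpotent and `PEl m` -/
theorem ET.ln {T : Set G} (h : ET m T) {R : Subgroup G} (hR : TG T R) (hf : LF R) :
    LN R ∧ ∀ x ∈ R, PEl m x := by
  have hx : ∀ x ∈ R, ∃ s : Set G, s.Finite ∧ s ⊆ T ∩ R ∧ x ∈ Subgroup.closure s := by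
    intro x hx
    have hR' : Subgroup.closure (T ∩ (R : Set G)) = R := hR
    rw [← hR'] at hx
    induction hx using Subgroup.closure_induction with
    | mem x hx =>
      exact ⟨{x}, Set.finite_singleton x, Set.singleton_subset_iff.2 hx,
        Subgroup.subset_closure rfl⟩
    | one => exact ⟨∅, Set.finite_empty, Set.empty_subset _, Subgroup.one_mem _⟩
    | mul x y _ _ ihx ihy =>
      obtain ⟨s, h1, h2, h3⟩ := ihx
      obtain ⟨s', h1', h2', h3'⟩ := ihy
      exact ⟨s ∪ s', h1.union h1', Set.union_subset h2 h2', Subgroup.mul_mem _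
        (Subgroup.closure_mono Set.subset_union_left h3)
        (Subgroup.closure_mono Set.subset_union_right h3')⟩
    | inv x _ ihx =>
      obtain ⟨s, h1, h2, h3⟩ := ihx
      exact ⟨s, h1, h2, Subgroup.inv_mem _ h3⟩
  have hfin : ∀ s : Set G, s.Finite → s ⊆ T ∩ R →
      ((Subgroup.closure s : Subgroup G) : Set G).Finite := fun s h1 h2 =>
    hf s h1 fun _ hy => (h2 hy).2
  constructor
  · intro S hS
    have hch : ∀ x : G, ∃ s : Set G, x ∈ S → (s.Finite ∧ s ⊆ T ∩ R ∧ x ∈ Subgroup.closure s) := by
      intro x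
      by_cases hxS : x ∈ S
      · obtain ⟨s, h1⟩ := hx x (hS hxS)
        exact ⟨s, fun _ => h1⟩
      · exact ⟨∅, fun h => absurd h hxS⟩
    choose f hf' using hch
    have h1 : (⋃ x ∈ S, f x).Finite := Set.Finite.biUnion S.finite_toSet fun x hxS => (hf' x hxS).1
    have h2 : (⋃ x ∈ S, f x) ⊆ T ∩ R := Set.iUnion₂_subset fun x hxS => (hf' x hxS).2.1
    have h3 := (bse_fin h (fun y hy => (h2 hy).1) (hfin _ h1 h2)).1
    refine isNilpotent_of_le ?_ h3
    rw [Subgroup.closure_le]
    intro x hxS
    exact Subgroup.closure_mono (Set.subset_biUnion_of_mem (u := f) hxS) (hf' x hxS).2.2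
  · intro x hxR
    obtain ⟨s, h1, h2, h3⟩ := hx x hxR
    exact (bse_fin h (fun y hy => (h2 hy).1) (hfin _ h1 h2)).2 x h3

end Pool.Agent.Helper59.EK
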