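import Pool.Agent.Helper59.EK.AbM

/-!
# EK-10. There is no infinite chain of absorbing steps

Compare EI/Chain.lean (there the elements s n are involutions).
-/

set_option autoImplicit false

namespace Pool.Agent.Helper59.EK

universe u v

open Pool.Agent.Helper98.Engel Pool.Agent.Helper59.EI

variable {G : Type u} [Group G] {m : ℕ}

/-- Put `z n = (s (2n))⁻¹ s (2n+1)`; it centralises `A (2n)` and lies in `A (2n+2)`. So the `z n`
commute; `B = ⟨z n⟩` is abelian. `Z k = ⟨z n : n ≥ k⟩ ≤ C(A (2k))` becomes stationary at some `k₀`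
(`abM_dcc`), so for `k ≥ k₀` the element `z k` centralises all `A i`; in particular it commutes with
`s (2k)`, so `s (2k)` and `s (2k+1)` commute and `z k ^ m = 1`. There are finitely many such elements
in `B` (`abM_fin`), so `z k = z l` for some `k₀ ≤ k < l`. Then `z l = z k ∈ A (2k+2) ≤ A (2l)` and
`s (2l+1) = s (2l) * z l ∈ A (2l+1)`, a contradiction. -/
theorem chainE_absurd (hm : 0 < m) (ht : Thin m G) (A : ℕ → Subgroup G) (hA : Monotone A)
    (h2 : ∀ n, ∀ x ∈ A n, PEl m x) (s : ℕ → G) (hs : ∀ n, s n ^ m = 1)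
    (hmem : ∀ n, s n ∈ A (n + 1)) (hnot : ∀ n, s n ∉ A n)
    (hc : ∀ n, ∀ x ∈ A (2 * n), (s (2 * n))⁻¹ * s (2 * n + 1) * x =
      x * ((s (2 * n))⁻¹ * s (2 * n + 1))) : False := by
  set z : ℕ → G := fun n => (s (2 * n))⁻¹ * s (2 * n + 1) with hz
  have hzmem : ∀ n, z n ∈ A (2 * n + 2) := fun n =>
    mul_mem (inv_mem (hA (by omega) (hmem (2 * n)))) (hmem (2 * n + 1))
  have hzc : ∀ n, ∀ x ∈ A (2 * n), z n * x = x * z n := hc
  have hzz : ∀ i j, z i * z j = z j * z i := by
    intro i j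
    rcases lt_trichotomy i j with h | h | h
    · exact (hzc j _ (hA (by omega) (hzmem i))).symm
    · rw [h]
    · exact hzc i _ (hA (by omega) (hzmem j))
  set Z : ℕ → Subgroup G := fun k => Subgroup.closure {x | ∃ i, k ≤ i ∧ x = z i} with hZ
  -- elements of `Z k` commute with `A (2 k)`
  have hZc : ∀ k, ∀ x ∈ Z k, ∀ y ∈ A (2 * k), x * y = y * x := by
    intro k x hx y hy
    have h1 : Z k ≤ Subgroup.centralizer {y} := by
      rw [hZ, Subgroup.closure_le]
      rintro _ ⟨i, hi, rfl⟩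
      rw [SetLike.mem_coe, Subgroup.mem_centralizer_singleton_iff]
      exact (hzc i y (hA (by omega) hy))
    have h2 := h1 hx
    rw [Subgroup.mem_centralizer_singleton_iff] at h2
    exact h2
  have hZanti : Antitone Z := by
    intro k l hkl
    refine Subgroup.closure_mono ?_
    rintro _ ⟨i, hi, rfl⟩
    exact ⟨i, hkl.trans hi, rfl⟩
  have hBc : ∀ x ∈ Z 0, ∀ y ∈ Z 0, x * y = y * x := by
    intro x hx y hy
    have h1 : Z 0 ≤ Subgroup.centralizer (Z 0 : Set G) := by
      have h3 : ∀ j, z j ∈ Subgroup.centralizer (Z 0 : Set G) := by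
        intro j
        rw [Subgroup.mem_centralizer_iff]
        intro w hw
        have h4 : Z 0 ≤ Subgroup.centralizer {z j} := by
          rw [hZ, Subgroup.closure_le]
          rintro _ ⟨i, hi, rfl⟩
          rw [SetLike.mem_coe, Subgroup.mem_centralizer_singleton_iff]
          exact hzz i j
        have h5 := h4 hw
        rw [Subgroup.mem_centralizer_singleton_iff] at h5
        exact h5
      rw [hZ, Subgroup.closure_le]
      rintro _ ⟨i, hi, rfl⟩
      exact h3 i
    exact ((Subgroup.mem_centralizer_iff.1 (h1 hx)) y hy).symm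
  have hBA : ∀ x ∈ Z 0, ∃ n, x ∈ A n := by
    intro x hx
    have h1 : Z 0 ≤ ⨆ n, A n := by
      rw [hZ, Subgroup.closure_le]
      rintro _ ⟨i, hi, rfl⟩
      exact Subgroup.mem_iSup_of_mem (2 * i + 2) (hzmem i)
    exact (Subgroup.mem_iSup_of_directed (hA.directed_le)).1 (h1 hx)
  obtain ⟨k, hk⟩ := abM_dcc hm ht hBc (fun x hx => by
    obtain ⟨n, hn⟩ := hBA x hx
    exact h2 n x hn) Z hZanti le_rfl
  -- `z i` for `i ≥ k` commutes with everything
  have hcen : ∀ i, k ≤ i → ∀ l, ∀ y ∈ A l, z i * y = y * z i := by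
    intro i hi l y hy
    have h1 : z i ∈ Z k := Subgroup.subset_closure ⟨i, hi, rfl⟩
    have h3 : z i ∈ Z (max k l) := by
      rw [hk _ (le_max_left k l)]
      exact h1
    exact hZc _ _ h3 y (hA (by have := le_max_right k l; omega) hy)
  have hse : ∀ i, s (2 * i + 1) = s (2 * i) * z i := by
    intro i
    change s (2 * i + 1) = s (2 * i) * ((s (2 * i))⁻¹ * s (2 * i + 1))
    rw [← mul_assoc, mul_inv_cancel, one_mul]
  have hpw : ∀ i, k ≤ i → z i ^ m = 1 := by
    intro i hi
    have h1 : Commute (s (2 * i)) (z i) :=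
      (hcen i hi (2 * i + 1) (s (2 * i)) (hmem (2 * i))).symm
    have h3 := hs (2 * i + 1)
    rw [hse i, h1.mul_pow, hs, one_mul] at h3
    exact h3
  -- pigeonhole
  have hfin := abM_fin hm ht hBc 1
  have hmaps : ∀ i : ℕ, z (k + i) ∈ {x : G | x ∈ Z 0 ∧ x ^ m ^ 1 = 1} := fun i =>
    ⟨Subgroup.subset_closure ⟨k + i, Nat.zero_le _, rfl⟩, by
      rw [pow_one]
      exact hpw _ (Nat.le_add_right _ _)⟩
  obtain ⟨i, -, j, -, hij, he⟩ := Set.infinite_univ.exists_ne_map_eq_of_mapsTo
    (s := (Set.univ : Set ℕ)) (f := fun i => z (k + i)) (fun i _ => hmaps i) hfin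
  have key : ∀ i j : ℕ, i < j → z (k + i) = z (k + j) → False := by
    intro i j hij he
    have h1 : z (k + j) ∈ A (2 * (k + j) + 1) := by
      rw [← he]
      exact hA (by omega) (hzmem (k + i))
    apply hnot (2 * (k + j) + 1)
    rw [hse (k + j)]
    exact mul_mem (hmem _) h1
  rcases lt_or_gt_of_ne hij with h | h
  · exact key i j h he
  · exact key j i h he.symm

end Pool.Agent.Helper59.EK
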