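import Pool.Agent.Helper59.EK.SecE
import Pool.Agent.Helper59.EK.LiftE
import Pool.Agent.Helper59.EK.FinE
import Pool.Agent.Helper59.EK.BsE

/-!
# EK-17. Reduction to (G2)

Compare EI/S4b.lean.
-/

set_option autoImplicit false

namespace Pool.Agent.Helper59.EK

universe u v

open Pool.Agent.Helper98.Engel Pool.Agent.Helper59.EI

variable {G : Type u} [Group G] {m : ℕ}

private theorem s4E_pel_of_pow {x : G} {k : ℕ} (h : PEl m (x ^ m ^ k)) : PEl m x := by
  obtain ⟨j, hj⟩ := h
  exact ⟨k + j, by rw [pow_add, pow_mul]; exact hj⟩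

private theorem s4E_map_le {W : Subgroup G} {K : Type u} [Group K] (f : W →* K) {Y : Subgroup G}
    (hY : LF Y) {X : Set K} (hX : ∀ x ∈ X, ∃ w : W, (w : G) ∈ Y ∧ f w = x) :
    LF (Subgroup.closure X) := by
  have hY' : LF (Y.subgroupOf W) := by
    refine LF.of_map (Subgroup.subtype _) ?_ ?_
    · refine hY.mono ?_
      rintro _ ⟨y, hy, rfl⟩
      exact hy
    · rw [Subgroup.ker_subtype, inf_bot_eq]
      exact LF_of_finite (by simp)
  refine (hY'.map f).mono ?_
  rw [Subgroup.closure_le]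
  intro x hx
  obtain ⟨w, hw, rfl⟩ := hX x hx
  exact ⟨w, hw, rfl⟩

/-- Let `(A, t)` be a final pair (`exists_finalE`), `S = SclE T A t`, `K` the quotient of `⟨S⟩ A` by
`A`, `T' = imgE f S`. (G3) by `lift_fin`. (G2): the preimage `B` of a finite `T'`-subgroup `F ≠ 1` is
finite and `PEl m` (`ET.ln` for `F`) and contains an element `s ∈ S`, `s ∉ A`. If the group generated
by the elements of `S` normalising `B` were not locally finite, then by `L1E` `(B, t')` would be a pair
for some `t' ∈ S` normalising `B`, which contradicts `final`. -/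
theorem s4E {T : Set G} (h : BaseE G m T) (h3 : G3E m T) :
    ∃ (K : Type u) (_ : Group K) (T' : Set K), BaseE K m T' ∧ G3E m T' ∧ G2E T' := by
  obtain ⟨A, t, hF⟩ := exists_finalE h
  have := h.cnt
  set S : Set G := SclE T A t with hS
  have hET : ET m T := h.toET
  have hLF : LF A := LF_of_finite hF.fin
  have hST : S ⊆ T := fun s hs => hs.1
  have hSA : ∀ s ∈ S, s ∈ Nr A := fun s hs => SclE_nr hF.nr hs
  have hSS : ∀ s ∈ S, ∀ s' ∈ S, s'⁻¹ * s * s' ∈ S ∧ s' * s * s'⁻¹ ∈ S :=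
    fun s hs s' hs' => SclE_conj hET hF.mem hF.nr hs hs'
  have hbad : ¬ LF (Subgroup.closure S) := hF.bad
  set W : Subgroup G := Subgroup.closure S ⊔ A with hW
  have hAW : A ≤ W := le_sup_right
  have hWnr : W ≤ Nr A := sup_le ((Subgroup.closure_le _).2 hSA) (le_Nr A)
  have hnor : (A.subgroupOf W).Normal := by
    constructor
    rintro ⟨n, hnW⟩ hn ⟨g, hgW⟩
    rw [Subgroup.mem_subgroupOf] at hn ⊢
    exact (mem_Nr.1 (hWnr hgW) n).1 hn
  let K : Type u := ↥W ⧸ (A.subgroupOf W)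
  let f : ↥W →* K := QuotientGroup.mk' (A.subgroupOf W)
  have hfs : Function.Surjective f := QuotientGroup.mk'_surjective _
  have hk : ∀ x, f x = 1 ↔ (x : G) ∈ A := by
    intro x
    change ((x : ↥W ⧸ (A.subgroupOf W))) = 1 ↔ _
    rw [QuotientGroup.eq_one_iff, Subgroup.mem_subgroupOf]
  have hbase : BaseE K m (imgE f S) := baseE_quot h.thin hET hLF hST hSA hSS hbad f hfs hk
  refine ⟨K, inferInstance, imgE f S, hbase, ?_, ?_⟩
  · -- (G3)
    intro Q hQ hne
    obtain ⟨D, hD, hDne, hDn⟩ := lift_fin h.pos hAW hF.fin hF.pel f hfs hk hQ hne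
    refine s4E_map_le f (h3 D hD hDne) ?_
    rintro _ ⟨⟨_, s, hsS, rfl⟩, hn⟩
    exact ⟨s, Subgroup.subset_closure ⟨hST hsS, hDn s hn⟩, rfl⟩
  · -- (G2)
    intro F hFT hFf hFne
    obtain ⟨-, hFp⟩ := hbase.toET.ln hFT (LF_of_finite hFf)
    have hkerfin : {x : ↥W | (x : G) ∈ A}.Finite :=
      hF.fin.preimage Subtype.val_injective.injOn
    have hcf : ((F.comap f : Subgroup _) : Set ↥W).Finite := by
      change (f ⁻¹' (F : Set K)).Finite
      refine Set.Finite.preimage' hFf ?_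
      intro b _
      obtain ⟨y, rfl⟩ := hfs b
      refine (hkerfin.image (fun x => y * x)).subset ?_
      intro x hx
      refine ⟨y⁻¹ * x, ?_, by simp⟩
      have hx' : f x = f y := hx
      refine (hk _).1 ?_
      rw [map_mul, map_inv, hx', inv_mul_cancel]
    set B : Subgroup G := (F.comap f).map (Subgroup.subtype _) with hB
    have hmem : ∀ w : ↥W, (w : G) ∈ B ↔ f w ∈ F := by
      intro w
      constructor
      · rintro ⟨w', hw', he⟩
        have : w' = w := Subtype.ext he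
        rw [← this]
        exact hw'
      · intro hw
        exact ⟨w, hw, rfl⟩
    have hBW : B ≤ W := by
      rintro _ ⟨w, -, rfl⟩
      exact w.2
    have hAB : A ≤ B := by
      intro x hx
      exact (hmem ⟨x, hAW hx⟩).2 (by
        rw [(hk _).2 hx]
        exact F.one_mem)
    have hBf : (B : Set G).Finite := by
      rw [hB, Subgroup.coe_map]
      exact hcf.image _
    have hBp : ∀ x ∈ B, PEl m x := by
      rintro _ ⟨w, hw, rfl⟩
      obtain ⟨k, hk'⟩ := hFp _ hw
      have h1 : (w : G) ^ m ^ k ∈ A := by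
        have : f (w ^ m ^ k) = 1 := by rw [map_pow]; exact hk'
        exact (hk _).1 this
      exact s4E_pel_of_pow (hF.pel _ h1)
    -- an element of `S` in `B`, outside `A`
    obtain ⟨s, hsS, hsB, hsA⟩ : ∃ s : G, s ∈ S ∧ s ∈ B ∧ s ∉ A := by
      have hne : ∃ x, x ∈ imgE f S ∧ x ∈ F := by
        by_contra hc
        push Not at hc
        apply hFne
        have hFT' : Subgroup.closure (imgE f S ∩ F) = F := hFT
        rw [← hFT', Subgroup.closure_eq_bot_iff]
        rintro x ⟨hx1, hx2⟩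
        exact absurd hx2 (hc x hx1)
      obtain ⟨_, ⟨h1, s, hsS, rfl⟩, hxF⟩ := hne
      exact ⟨s, hsS, (hmem s).2 hxF, fun hc => h1 ((hk s).2 hc)⟩
    have hY : LF (Subgroup.closure {x | x ∈ SclE T A t ∧ x ∈ Nr B}) := by
      refine L1E hET hF.mem hF.nr hAB hBf ?_
      intro t' ht' htB
      by_contra hc
      have hPr : PrE m T B t' := ⟨hBf, hBp, ht'.1, htB, hc⟩
      exact hsA (hF.final B t' hPr hAB ht' _ hsB hsS)
    refine s4E_map_le f hY ?_
    rintro _ ⟨⟨_, s', hs'S, rfl⟩, hn⟩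
    refine ⟨s', Subgroup.subset_closure ⟨hs'S, ?_⟩, rfl⟩
    have hn' : ∀ w : W, f w ∈ F ↔ f (s' * w * s'⁻¹) ∈ F := by
      intro w
      rw [map_mul, map_mul, map_inv]
      exact mem_Nr.1 hn (f w)
    rw [mem_Nr]
    intro x
    constructor
    · intro hx
      have := (hn' ⟨x, hBW hx⟩).1 ((hmem _).1 hx)
      exact (hmem (s' * ⟨x, hBW hx⟩ * s'⁻¹)).2 this
    · intro hx
      have hxW : x ∈ W := by
        have h1 : (s' : G)⁻¹ * ((s' : G) * x * (s' : G)⁻¹) * (s' : G) ∈ W :=
          W.mul_mem (W.mul_mem (W.inv_mem s'.2) (hBW hx)) s'.2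
        have h2 : (s' : G)⁻¹ * ((s' : G) * x * (s' : G)⁻¹) * (s' : G) = x := by group
        rwa [h2] at h1
      have := (hn' ⟨x, hxW⟩).2 ((hmem (s' * ⟨x, hxW⟩ * s'⁻¹)).1 hx)
      exact (hmem ⟨x, hxW⟩).2 this

end Pool.Agent.Helper59.EK
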