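import Pool.Agent.Helper59.EK.CoreL
import Pool.Agent.Helper59.EK.S2E
import Pool.Agent.Helper59.EK.S4E

/-!
# EK-28. The torsion theorem
-/

set_option autoImplicit false

namespace Pool.Agent.Helper59.EK

universe u v

open Pool.Agent.Helper98.Engel Pool.Agent.Helper59.EI

variable {G : Type u} [Group G] {m : ℕ}

/-- there is no countable counterexample: `s2E`, `s4E`, `CoreE.lf` -/
theorem no_baseE {T : Set G} (h : BaseE G m T) : False := by
  obtain ⟨K, _, T', hb, h3⟩ := s2E h
  obtain ⟨K', _, T'', hb', h3', h2'⟩ := s4E hb h3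
  have hc : CoreE K' m T'' :=
    { toET := hb'.toET
      cnt := hb'.cnt
      thin := hb'.thin
      g3 := h3'
      g2 := h2' }
  apply hb'.bad
  rw [← hb'.gen]
  exact hc.lf

/-- In a thin group the left Engel elements of order dividing `m` generate a locally finite and
locally nilpotent subgroup. (Reduction to the countable case as in `thm1` of EI/Thm1.lean.) -/
theorem thmT (hm : 0 < m) (ht : Thin m G) :
    LF (Subgroup.closure {x : G | IsLeftEngel x ∧ x ^ m = 1}) ∧
      LN (Subgroup.closure {x : G | IsLeftEngel x ∧ x ^ m = 1}) := by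
  set T : Set G := {x | x ≠ 1 ∧ IsLeftEngel x ∧ x ^ m = 1} with hTdef
  have hET : ET m T := by
    refine ⟨hm, fun t ht => ht.1, fun t ht => ht.2.2, ?_, fun t ht => ht.2.1⟩
    rintro t ⟨h1, h2, h3⟩ g
    refine ⟨?_, h2.conj g, ?_⟩
    · intro h4
      apply h1
      have : t = g * (g⁻¹ * t * g) * g⁻¹ := by group
      rw [this, h4]
      group
    · have h4 : (g⁻¹ * t * g) ^ m = g⁻¹ * t ^ m * g := by
        have := conj_pow (i := m) (a := g⁻¹) (b := t)
        rwa [inv_inv] at this
      rw [h4, h3]
      group
  have hcl : Subgroup.closure T = Subgroup.closure {x : G | IsLeftEngel x ∧ x ^ m = 1} :=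
    closure_or_one
  have key : ∀ s' : Set G, s'.Finite → s' ⊆ T → LF (Subgroup.closure s') := by
    intro s' hs' hsT
    by_contra hbad
    have hcount : Countable (Subgroup.closure s') := by
      have h1 : Countable s' := hs'.countable
      rw [FreeGroup.closure_eq_range]
      exact (FreeGroup.lift ((↑) : s' → G)).rangeRestrict_surjective.countable
    have hgen : Subgroup.closure {x : Subgroup.closure s' | (x : G) ∈ T} = ⊤ := by
      apply Subgroup.map_injective (Subgroup.closure s').subtype_injective
      rw [MonoidHom.map_closure, ← MonoidHom.range_eq_map, Subgroup.range_subtype]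
      apply le_antisymm
      · rw [Subgroup.closure_le]
        rintro _ ⟨x, _, rfl⟩
        exact x.2
      · rw [Subgroup.closure_le]
        intro x hx
        exact Subgroup.subset_closure ⟨⟨x, Subgroup.subset_closure hx⟩, hsT hx, rfl⟩
    have hIT : ET m {x : Subgroup.closure s' | (x : G) ∈ T} := by
      refine ⟨hm, ?_, ?_, ?_, ?_⟩
      · rintro t ht rfl
        exact hET.ne _ ht rfl
      · intro t ht
        exact Subtype.ext (by simpa using hET.pow _ ht)
      · intro t ht g
        exact hET.conj _ ht g
      · intro t ht y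
        obtain ⟨n, hn⟩ := hET.lft _ ht (y : G)
        refine ⟨n, (Subgroup.closure s').subtype_injective ?_⟩
        rw [map_eng, map_one]
        exact hn
    exact no_baseE (G := Subgroup.closure s') (m := m) (T := {x | (x : G) ∈ T})
      { toET := hIT
        cnt := hcount
        thin := ht.sub _
        gen := hgen
        bad := fun hh => hbad (LF_top_iff.1 hh) }
  have key2 : ∀ x ∈ Subgroup.closure T, ∃ s' : Set G, s'.Finite ∧ s' ⊆ T ∧
      x ∈ Subgroup.closure s' := by
    intro x hx
    induction hx using Subgroup.closure_induction with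
    | mem x hx => exact ⟨{x}, Set.finite_singleton x, by simpa using hx,
        Subgroup.subset_closure rfl⟩
    | one => exact ⟨∅, Set.finite_empty, Set.empty_subset _, Subgroup.one_mem _⟩
    | mul x y _ _ hx hy =>
      obtain ⟨s, h1, h2, h3⟩ := hx
      obtain ⟨s', h1', h2', h3'⟩ := hy
      exact ⟨s ∪ s', h1.union h1', Set.union_subset h2 h2',
        Subgroup.mul_mem _ (Subgroup.closure_mono Set.subset_union_left h3)
          (Subgroup.closure_mono Set.subset_union_right h3')⟩
    | inv x _ hx =>
      obtain ⟨s, h1, h2, h3⟩ := hx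
      exact ⟨s, h1, h2, Subgroup.inv_mem _ h3⟩
  have hLF : LF (Subgroup.closure T) := by
    intro s hs hsT
    choose! F hF using key2
    have h1 : (⋃ x ∈ s, F x).Finite := hs.biUnion (fun x hx => (hF x (hsT hx)).1)
    have h2 : (⋃ x ∈ s, F x) ⊆ T := Set.iUnion₂_subset (fun x hx => (hF x (hsT hx)).2.1)
    refine key _ h1 h2 s hs ?_
    intro x hx
    exact Subgroup.closure_mono (Set.subset_biUnion_of_mem hx) (hF x (hsT hx)).2.2
  rw [← hcl]
  exact ⟨hLF, (hET.ln (TG_closure subset_rfl) hLF).1⟩

end Pool.Agent.Helper59.EK
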