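import Pool.Agent.Helper59.EK.Defs

/-!
# EK-5. Primary components of locally nilpotent groups
-/

set_option autoImplicit false

namespace Pool.Agent.Helper59.EK

universe u v

open Pool.Agent.Helper98.Engel Pool.Agent.Helper59.EI

variable {G : Type u} [Group G] {m : ℕ}

/-- a nilpotent group generated by finitely many elements of bounded order is finite -/
private theorem comp_fin (G : Type u) [Group G] [Group.IsNilpotent G] :
    ∀ S : Set G, S.Finite → Subgroup.closure S = ⊤ → ∀ m : ℕ, 0 < m → (∀ s ∈ S, s ^ m = 1) →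
      Finite G := by
  apply @Group.nilpotent_center_quotient_ind
    (fun (G : Type u) (_ : Group G) (_ : Group.IsNilpotent G) => ∀ S : Set G, S.Finite →
      Subgroup.closure S = ⊤ → ∀ m : ℕ, 0 < m → (∀ s ∈ S, s ^ m = 1) → Finite G) G _ _
  · intro G _ _ _ _ _ _ _ _
    infer_instance
  · intro G _ _ ih S hS hcl m hm h1
    have hfq : Finite (G ⧸ Subgroup.center G) := by
      refine ih (QuotientGroup.mk' (Subgroup.center G) '' S) (hS.image _) ?_ m hm ?_
      · rw [← MonoidHom.map_closure, hcl, ← MonoidHom.range_eq_map]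
        exact MonoidHom.range_eq_top.2 (QuotientGroup.mk'_surjective _)
      · rintro _ ⟨s, hs, rfl⟩
        rw [← map_pow, h1 s hs, map_one]
    have hfi : (Subgroup.center G).FiniteIndex := Subgroup.finiteIndex_of_finite_quotient
    set n := (Subgroup.center G).index with hn
    have hn0 : n ≠ 0 := hfi.index_ne_zero
    have h2 : ∀ g : G, g ^ (n * m) = 1 := by
      have h3 : ∀ g : G, (MonoidHom.transferCenterPow G g) ^ m = 1 := by
        intro g
        have hg : g ∈ Subgroup.closure S := by rw [hcl]; exact Subgroup.mem_top g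
        induction hg using Subgroup.closure_induction with
        | mem s hs =>
          apply Subtype.ext
          rw [Subgroup.coe_pow, MonoidHom.transferCenterPow_apply, ← pow_mul, mul_comm, pow_mul,
            h1 s hs, one_pow, Subgroup.coe_one]
        | one => rw [map_one, one_pow]
        | mul x y _ _ hx hy =>
          have hc : Commute (MonoidHom.transferCenterPow G x) (MonoidHom.transferCenterPow G y) :=
            mul_comm' _ _
          rw [map_mul, hc.mul_pow, hx, hy, mul_one]
        | inv x _ hx => rw [map_inv, inv_pow, hx, inv_one]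
      intro g
      have := congrArg Subtype.val (h3 g)
      rwa [Subgroup.coe_pow, MonoidHom.transferCenterPow_apply, ← pow_mul,
        Subgroup.coe_one] at this
    have hFG : Group.FG G := by
      rw [Group.fg_iff]
      exact ⟨S, hcl, hS⟩
    have hZfg : Group.FG (Subgroup.center G) := Subgroup.fg_of_index_ne_zero _
    have hZ : Finite (Subgroup.center G) := by
      letI : CommGroup (Subgroup.center G) :=
        { (inferInstance : Group (Subgroup.center G)) with mul_comm := mul_comm' }
      refine CommGroup.finite_of_fg_isMulTorsion _ ?_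
      intro z
      rw [isOfFinOrder_iff_pow_eq_one]
      refine ⟨n * m, Nat.mul_pos (Nat.pos_of_ne_zero hn0) hm, ?_⟩
      apply Subtype.ext
      rw [Subgroup.coe_pow, h2, Subgroup.coe_one]
    exact Finite.of_subgroup_quotient (Subgroup.center G)

/-- elements of coprime orders of a nilpotent group commute -/
private theorem comp_comm (G : Type u) [Group G] [Group.IsNilpotent G] :
    ∀ (x y : G) (a b : ℕ), a.Coprime b → x ^ a = 1 → y ^ b = 1 → x * y = y * x := by
  apply @Group.nilpotent_center_quotient_ind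
    (fun (G : Type u) (_ : Group G) (_ : Group.IsNilpotent G) => ∀ (x y : G) (a b : ℕ),
      a.Coprime b → x ^ a = 1 → y ^ b = 1 → x * y = y * x) G _ _
  · intro G _ _ x y _ _ _ _ _
    exact Subsingleton.elim _ _
  · intro G _ _ ih x y a b hab hx hy
    have h1 := ih (x : G ⧸ Subgroup.center G) (y : G ⧸ Subgroup.center G) a b hab
      (by rw [← QuotientGroup.mk_pow, hx, QuotientGroup.mk_one])
      (by rw [← QuotientGroup.mk_pow, hy, QuotientGroup.mk_one])
    rw [← QuotientGroup.mk_mul, ← QuotientGroup.mk_mul, QuotientGroup.eq] at h1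
    obtain ⟨c, hc, hc2⟩ : ∃ c ∈ Subgroup.center G, y * x = (x * y) * c :=
      ⟨(x * y)⁻¹ * (y * x), h1, by group⟩
    have hcc : ∀ g : G, c * g = g * c := fun g => ((Subgroup.mem_center_iff.1 hc) g).symm
    -- `x⁻¹ * y * x = y * c`, `y * x * y⁻¹ = x * c`
    have e1 : x⁻¹ * y * x = y * c := by
      calc x⁻¹ * y * x = x⁻¹ * (y * x) := by group
        _ = y * c := by rw [hc2]; group
    have e2 : y * x * y⁻¹ = x * c := by
      calc y * x * y⁻¹ = (x * y) * c * y⁻¹ := by rw [hc2]
        _ = x * y * (c * y⁻¹) := by group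
        _ = x * y * (y⁻¹ * c) := by rw [hcc]
        _ = x * c := by group
    have f1 : c ^ b = 1 := by
      have h2 : (x⁻¹ * y * x) ^ b = 1 := by
        have := conj_pow (i := b) (a := x⁻¹) (b := y)
        rw [inv_inv] at this
        rw [this, hy]; group
      rw [e1, (show Commute y c from (hcc y).symm).mul_pow, hy, one_mul] at h2
      exact h2
    have f2 : c ^ a = 1 := by
      have h2 : (y * x * y⁻¹) ^ a = 1 := by
        rw [conj_pow, hx]; group
      rw [e2, (show Commute x c from (hcc x).symm).mul_pow, hx, one_mul] at h2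
      exact h2
    have f3 : c = 1 := by
      have h3 : orderOf c ∣ Nat.gcd a b :=
        Nat.dvd_gcd (orderOf_dvd_of_pow_eq_one f2) (orderOf_dvd_of_pow_eq_one f1)
      rw [hab, Nat.dvd_one, orderOf_eq_one_iff] at h3
      exact h3
    rw [hc2, f3, mul_one]


private theorem comp_nil {X : Subgroup G} (hl : LN X) {x y : G} (hx : x ∈ X) (hy : y ∈ X) :
    Group.IsNilpotent (Subgroup.closure ({x, y} : Set G)) := by
  classical
  have h1 := hl {x, y} (by
    intro z hz
    rw [Finset.mem_coe, Finset.mem_insert, Finset.mem_singleton] at hz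
    rcases hz with rfl | rfl
    · exact hx
    · exact hy)
  rwa [Finset.coe_pair] at h1

/-- elements of coprime order commute in a locally nilpotent group -/
theorem comm_of_coprime {X : Subgroup G} (hl : LN X) {p q : ℕ} (hp : p.Prime) (hq : q.Prime)
    (hpq : p ≠ q) {x y : G} (hx : x ∈ X) (hy : y ∈ X) (hxp : PEl p x) (hyq : PEl q y) :
    x * y = y * x := by
  have hn := comp_nil hl hx hy
  obtain ⟨k, hk⟩ := hxp
  obtain ⟨l, hl'⟩ := hyq
  have hcop : (p ^ k).Coprime (q ^ l) :=
    Nat.Coprime.pow _ _ ((Nat.coprime_primes hp hq).2 hpq)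
  have h1 := comp_comm _ (⟨x, Subgroup.subset_closure (by simp)⟩ : Subgroup.closure {x, y})
    (⟨y, Subgroup.subset_closure (by simp)⟩ : Subgroup.closure {x, y}) _ _ hcop
    (Subtype.ext (by simpa using hk)) (Subtype.ext (by simpa using hl'))
  simpa using congrArg Subtype.val h1

private theorem comp_mul {X : Subgroup G} (hl : LN X) {p : ℕ} (hp : p.Prime) {x y : G}
    (hxX : x ∈ X) (hyX : y ∈ X) (hx : PEl p x) (hy : PEl p y) : PEl p (x * y) := by
  have hnil := comp_nil hl hxX hyX
  obtain ⟨k, hk⟩ := hx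
  obtain ⟨l, hl'⟩ := hy
  haveI : Fact p.Prime := ⟨hp⟩
  have hF : Finite (Subgroup.closure ({x, y} : Set G)) := by
    refine comp_fin _ (((↑) : Subgroup.closure ({x, y} : Set G) → G) ⁻¹' {x, y}) ?_
      Subgroup.closure_closure_coe_preimage (p ^ (k + l)) (pow_pos hp.pos _) ?_
    · exact (Set.toFinite {x, y}).preimage Subtype.val_injective.injOn
    · intro z hz
      apply Subtype.ext
      rw [Subgroup.coe_pow, Subgroup.coe_one]
      have hz' : (z : G) = x ∨ (z : G) = y := hz
      rcases hz' with h | h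
      · rw [h, pow_add, pow_mul, hk, one_pow]
      · rw [h, pow_add, mul_comm, pow_mul, hl', one_pow]
  set N := Subgroup.closure ({x, y} : Set G) with hN
  obtain ⟨P⟩ : Nonempty (Sylow p N) := inferInstance
  have hmem : ∀ (z : N) (j : ℕ), z ^ p ^ j = 1 → z ∈ P := by
    intro z j hz
    have h1 : IsPGroup p (Subgroup.zpowers z) := by
      intro w
      obtain ⟨i, hi⟩ := w.2
      refine ⟨j, Subtype.ext ?_⟩
      rw [Subgroup.coe_pow, Subgroup.coe_one, ← hi]
      change (z ^ i) ^ p ^ j = 1
      rw [← zpow_natCast, ← zpow_mul, mul_comm, zpow_mul, zpow_natCast, hz, one_zpow]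
    obtain ⟨Q, hQ⟩ := h1.exists_le_sylow
    have h2 : Q = P := by
      have := Sylow.unique_of_normal P inferInstance
      exact Subsingleton.elim _ _
    rw [← h2]
    exact hQ (Subgroup.mem_zpowers z)
  have hx' := hmem ⟨x, Subgroup.subset_closure (by simp)⟩ k (Subtype.ext (by simpa using hk))
  have hy' := hmem ⟨y, Subgroup.subset_closure (by simp)⟩ l (Subtype.ext (by simpa using hl'))
  have hxy := mul_mem hx' hy'
  obtain ⟨j, hj⟩ := P.isPGroup' ⟨_, hxy⟩
  refine ⟨j, ?_⟩
  have := congrArg (fun z : P => ((z : N) : G)) hj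
  simpa using this

/-- the `p`-elements of a locally nilpotent group form a subgroup `Y` -/
theorem exists_comp {X : Subgroup G} (hl : LN X) {p : ℕ} (hp : p.Prime) :
    ∃ Y : Subgroup G, Y ≤ X ∧ ∀ x, x ∈ Y ↔ x ∈ X ∧ PEl p x := by
  let Y : Subgroup G :=
    { carrier := {x | x ∈ X ∧ PEl p x}
      mul_mem' := fun {a b} ha hb => ⟨mul_mem ha.1 hb.1, comp_mul hl hp ha.1 hb.1 ha.2 hb.2⟩
      one_mem' := ⟨one_mem X, PEl_one p⟩
      inv_mem' := fun {a} ha => ⟨inv_mem ha.1, ha.2.inv⟩ }
  exact ⟨Y, fun x hx => hx.1, fun x => Iff.rfl⟩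

/-- an element of order dividing a power of `m` is the product of powers of itself of prime power
order: if a subgroup `N` contains all powers of `x` which are `p`-elements, for all primes `p`
dividing `m`, then it contains `x` -/
theorem mem_of_comp (hm : 0 < m) {x : G} (hx : PEl m x) {N : Subgroup G}
    (h : ∀ p : ℕ, p.Prime → p ∣ m → ∀ k : ℕ, PEl p (x ^ k) → x ^ k ∈ N) : x ∈ N := by
  obtain ⟨k, hk⟩ := hx
  let S : AddSubgroup ℤ :=
    { carrier := {j : ℤ | x ^ j ∈ N}
      add_mem' := by
        intro a b ha hb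
        change x ^ (a + b) ∈ N
        rw [zpow_add]
        exact mul_mem ha hb
      zero_mem' := by
        change x ^ (0 : ℤ) ∈ N
        rw [zpow_zero]
        exact one_mem N
      neg_mem' := by
        intro a ha
        change x ^ (-a) ∈ N
        rw [zpow_neg]
        exact inv_mem ha }
  have hS : ∀ j : ℤ, j ∈ S ↔ x ^ j ∈ N := fun j => Iff.rfl
  obtain ⟨d, hd⟩ := Int.subgroup_cyclic S
  have hdvd : ∀ j : ℤ, x ^ j ∈ N → d ∣ j := by
    intro j hj
    have h1 : j ∈ S := hj
    rw [hd, AddSubgroup.mem_closure_singleton] at h1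
    obtain ⟨n, hn⟩ := h1
    exact ⟨n, by rw [← hn, smul_eq_mul, mul_comm]⟩
  have hdS : x ^ d ∈ N := by
    have h1 : d ∈ S := by
      rw [hd]
      exact AddSubgroup.subset_closure rfl
    exact h1
  by_cases h1 : d.natAbs = 1
  · rcases Int.natAbs_eq d with h2 | h2
    · rw [h2, h1, Nat.cast_one, zpow_one] at hdS
      exact hdS
    · rw [h2, h1, Nat.cast_one, zpow_neg, zpow_one] at hdS
      exact inv_mem_iff.1 hdS
  · exfalso
    obtain ⟨q, hq, hqd⟩ := Nat.exists_prime_and_dvd h1
    have hdn : d ∣ ((m ^ k : ℕ) : ℤ) := by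
      apply hdvd
      rw [zpow_natCast, hk]
      exact one_mem N
    have hqn : q ∣ m ^ k := by
      have h2 : d.natAbs ∣ m ^ k := Int.natAbs_dvd_natAbs.2 hdn
      exact hqd.trans h2
    have hqm : q ∣ m := hq.dvd_of_dvd_pow hqn
    obtain ⟨a, b, hb, hab⟩ := Nat.exists_eq_pow_mul_and_not_dvd (pow_pos hm k).ne' q hq.ne_one
    have h3 : PEl q (x ^ b) := ⟨a, by rw [← pow_mul, mul_comm, ← hab, hk]⟩
    have h4 := h q hq hqm b h3
    have h5 : d ∣ (b : ℤ) := hdvd b (by rw [zpow_natCast]; exact h4)
    have h6 : d.natAbs ∣ b := Int.natAbs_dvd_natAbs.2 h5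
    exact hb (hqd.trans h6)

end Pool.Agent.Helper59.EK
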