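import Pool.Agent.Helper59.EK.Defs
import Pool.Agent.Helper59.EI.Ab

/-!
# EK-1. Abelian subgroups consisting of elements of order dividing a power of m

The proofs of EI/Ab.lean (there for a prime p) work for every positive m.
-/

set_option autoImplicit false

namespace Pool.Agent.Helper59.EK

universe u v

open Pool.Agent.Helper98.Engel Pool.Agent.Helper59.EI

variable {G : Type u} [Group G] {m : ℕ}

namespace AbM

open Pool.Agent.Helper59.EI.Ab

/-- `B` is an abelian group of elements of order dividing a power of `m` with finitely many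
elements of order dividing `m`. -/
structure AbG (m : ℕ) (B : Subgroup G) : Prop where
  pos : 0 < m
  comm : ∀ x ∈ B, ∀ y ∈ B, x * y = y * x
  pel : ∀ x ∈ B, PEl m x
  fin : {x : G | x ∈ B ∧ x ^ m = 1}.Finite

theorem AbG.of_thin {B : Subgroup G} (hm : 0 < m) (ht : Thin m G)
    (hc : ∀ x ∈ B, ∀ y ∈ B, x * y = y * x)
    (hp : ∀ x ∈ B, PEl m x) : AbG m B where
  pos := hm
  comm := hc
  pel := hp
  fin := by
    have h := ht (rootS B ⊥ hc m) (fun x hx => Subgroup.mem_bot.1 hx.2)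
      (fun x hx y hy => hc x hx.1 y hy.1)
    refine h.subset ?_
    rintro x ⟨hx, hx'⟩
    exact ⟨hx, Subgroup.mem_bot.2 hx'⟩

theorem AbG.mono {B C : Subgroup G} (h : AbG m B) (hC : C ≤ B) : AbG m C where
  pos := h.pos
  comm := fun x hx y hy => h.comm x (hC hx) y (hC hy)
  pel := fun x hx => h.pel x (hC hx)
  fin := h.fin.subset fun _ hx => ⟨hC hx.1, hx.2⟩

/-- `B / B^m` is finite -/
theorem AbG.cosets {B : Subgroup G} (h : AbG m B) :
    ∃ c : Set G, c.Finite ∧ c ⊆ B ∧ ∀ x ∈ B, ∃ y ∈ c, ∃ z ∈ B, x = y * z ^ m := by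
  let _ : CommGroup B :=
    { (inferInstance : Group B) with
      mul_comm := fun x y => Subtype.ext (h.comm x x.2 y y.2) }
  have hfin : {x : B | x ^ m = 1}.Finite := by
    refine Set.Finite.of_finite_image (f := fun x : B => (x : G)) (h.fin.subset ?_)
      Subtype.val_injective.injOn
    rintro _ ⟨x, hx, rfl⟩
    exact ⟨x.2, congrArg (fun z : B => (z : G)) hx⟩
  have hF : ∀ s : Finset B, ((Subgroup.closure (s : Set B) : Subgroup B) : Set B).Finite := by
    intro s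
    refine finite_closure (B := (⊤ : Subgroup B)) h.pos.ne'
      (fun x _ y _ => mul_comm x y) (fun x _ => ?_) s.finite_toSet (fun x _ => Subgroup.mem_top x)
    obtain ⟨k, hk⟩ := h.pel x x.2
    exact ⟨k, Subtype.ext hk⟩
  have hq := card_quot_le (A := B) hfin hF
  refine ⟨Set.range (fun z : B ⧸ (powMonoidHom m : B →* B).range => ((Quotient.out z : B) : G)),
    Set.finite_range _, ?_, ?_⟩
  · rintro _ ⟨z, rfl⟩
    exact (Quotient.out z : B).2
  · intro x hx
    refine ⟨_, ⟨QuotientGroup.mk (⟨x, hx⟩ : B), rfl⟩, ?_⟩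
    have h1 : (QuotientGroup.mk (Quotient.out (QuotientGroup.mk (⟨x, hx⟩ : B) :
        B ⧸ (powMonoidHom m : B →* B).range)) : B ⧸ (powMonoidHom m : B →* B).range) =
        QuotientGroup.mk (⟨x, hx⟩ : B) := QuotientGroup.out_eq' _
    obtain ⟨z, hz⟩ := QuotientGroup.eq.1 h1
    refine ⟨z, z.2, ?_⟩
    have h2 := congrArg (fun w : B => (w : G)) hz
    have h3 : ((z : B) : G) ^ m = ((Quotient.out (QuotientGroup.mk (⟨x, hx⟩ : B) :
        B ⧸ (powMonoidHom m : B →* B).range) : B) : G)⁻¹ * x := h2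
    rw [h3, mul_inv_cancel_left]

/-- quotients: there are finitely many cosets `x D` with `x ^ m ∈ D` -/
theorem AbG.quot {B D : Subgroup G} (h : AbG m B) (_hD : D ≤ B) :
    ∃ c : Set G, c.Finite ∧ c ⊆ B ∧ ∀ x ∈ B, x ^ m ∈ D → ∃ y ∈ c, y⁻¹ * x ∈ D := by
  have hE : AbG m (rootS B D h.comm m) := h.mono fun x hx => hx.1
  obtain ⟨c, hc1, hc2, hc3⟩ := hE.cosets
  refine ⟨c, hc1, fun x hx => (hc2 hx).1, fun x hx hxD => ?_⟩
  obtain ⟨y, hy, z, hz, hxyz⟩ := hc3 x ⟨hx, hxD⟩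
  refine ⟨y, hy, ?_⟩
  rw [hxyz, inv_mul_cancel_left]
  exact hz.2

/-- descending chain condition -/
theorem AbG.dcc {B : Subgroup G} (h : AbG m B) (Z : ℕ → Subgroup G) (hZ : Antitone Z)
    (h0 : Z 0 ≤ B) : ∃ k, ∀ n, k ≤ n → Z n = Z k := by
  classical
  set D := ⨅ n, Z n with hD
  have hDZ : ∀ n, D ≤ Z n := fun n => iInf_le _ n
  have hDB : D ≤ B := (hDZ 0).trans h0
  obtain ⟨c, hc1, hc2, hc3⟩ := h.quot hDB
  have hch : ∀ y : G, ∃ n, y ∉ D → y ∉ Z n := by
    intro y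
    by_cases hy : y ∈ D
    · exact ⟨0, fun h => absurd hy h⟩
    · have : ∃ n, y ∉ Z n := by
        by_contra hcon
        push Not at hcon
        exact hy (Subgroup.mem_iInf.2 hcon)
      obtain ⟨n, hn⟩ := this
      exact ⟨n, fun _ => hn⟩
  choose N hN using hch
  set K := hc1.toFinset.sup N with hK
  have key : ∀ n, K ≤ n → Z n = D := by
    intro n hn
    refine le_antisymm ?_ (hDZ n)
    have hlem : ∀ k : ℕ, ∀ x ∈ Z n, x ^ m ^ k ∈ D → x ∈ D := by
      intro k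
      induction k with
      | zero =>
        intro x _ hx
        rwa [pow_zero, pow_one] at hx
      | succ k ih =>
        intro x hx hxk
        have h1 : x ^ m ∈ D := by
          refine ih (x ^ m) ((Z n).pow_mem hx m) ?_
          rwa [← pow_mul, ← pow_succ']
        obtain ⟨y, hy, hyx⟩ := hc3 x (h0 (hZ (Nat.zero_le n) hx)) h1
        by_cases hyD : y ∈ D
        · have h2 := D.mul_mem hyD hyx
          rwa [mul_inv_cancel_left] at h2
        · exfalso
          have h3 := hN y hyD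
          have h4 : N y ≤ n := (Finset.le_sup (f := N) (hc1.mem_toFinset.2 hy)).trans hn
          have h5 : y ∈ Z n := by
            have h6 : y = x * (y⁻¹ * x)⁻¹ := by group
            rw [h6]
            exact (Z n).mul_mem hx ((Z n).inv_mem (hDZ n hyx))
          exact h3 (hZ h4 h5)
    intro x hx
    obtain ⟨k, hk⟩ := h.pel x (h0 (hZ (Nat.zero_le n) hx))
    exact hlem k x hx (by rw [hk]; exact D.one_mem)
  exact ⟨K, fun n hn => (key n hn).trans (key K le_rfl).symm⟩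

theorem AbG.cosets_pow {B : Subgroup G} (h : AbG m B) (k : ℕ) :
    ∃ c : Set G, c.Finite ∧ c ⊆ B ∧ ∀ x ∈ B, ∃ y ∈ c, ∃ z ∈ B, x = y * z ^ m ^ k := by
  induction k with
  | zero =>
    refine ⟨{1}, Set.finite_singleton 1, by
      rintro _ rfl
      exact B.one_mem, fun x hx => ⟨1, rfl, x, hx, ?_⟩⟩
    rw [pow_zero, pow_one, one_mul]
  | succ k ih =>
    obtain ⟨c, hc1, hc2, hc3⟩ := h.cosets
    obtain ⟨d, hd1, hd2, hd3⟩ := ih
    refine ⟨Set.image2 (fun y y' => y * y' ^ m) c d, hc1.image2 _ hd1, ?_, ?_⟩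
    · rintro _ ⟨y, hy, y', hy', rfl⟩
      exact B.mul_mem (hc2 hy) (B.pow_mem (hd2 hy') m)
    · intro x hx
      obtain ⟨y, hy, z, hz, hxyz⟩ := hc3 x hx
      obtain ⟨y', hy', w, hw, hz'⟩ := hd3 z hz
      refine ⟨_, Set.mem_image2_of_mem hy hy', w, hw, ?_⟩
      rw [hxyz, hz', mul_pow_mem h.comm (hd2 hy') (B.pow_mem hw _), ← pow_mul, ← pow_succ,
        mul_assoc]

theorem AbG.dvp {B : Subgroup G} (h : AbG m B) :
    ∃ P : Subgroup G, Dv m P ∧ P ≤ B ∧ P.relIndex B ≠ 0 := by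
  obtain ⟨k, hk⟩ := h.dcc (fun n => powS B h.comm (m ^ n)) (by
    intro a n han
    rintro _ ⟨y, hy, rfl⟩
    refine ⟨y ^ m ^ (n - a), B.pow_mem hy _, ?_⟩
    rw [← pow_mul, ← pow_add, Nat.sub_add_cancel han]) (by
    rintro _ ⟨y, hy, rfl⟩
    exact B.pow_mem hy _)
  have hk' : powS B h.comm (m ^ (k + 1)) = powS B h.comm (m ^ k) := hk (k + 1) (Nat.le_succ k)
  have hle : powS B h.comm (m ^ k) ≤ B := by
    rintro _ ⟨y, hy, rfl⟩
    exact B.pow_mem hy _
  refine ⟨powS B h.comm (m ^ k), ?_, hle, ?_⟩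
  · refine ⟨fun x hx y hy => h.comm x (hle hx) y (hle hy), fun x hx => h.pel x (hle hx), ?_⟩
    intro x hx
    rw [← hk'] at hx
    obtain ⟨y, hy, rfl⟩ := hx
    refine ⟨y ^ m ^ k, ⟨y, hy, rfl⟩, ?_⟩
    rw [← pow_mul, ← pow_succ]
  · obtain ⟨c, hc1, hc2, hc3⟩ := h.cosets_pow k
    have hcf : Finite c := hc1.to_subtype
    have hfin : Finite (B ⧸ (powS B h.comm (m ^ k)).subgroupOf B) := by
      refine Finite.of_surjective (fun y : c => (QuotientGroup.mk (⟨y, hc2 y.2⟩ : B) :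
        B ⧸ (powS B h.comm (m ^ k)).subgroupOf B)) ?_
      intro q
      induction q using QuotientGroup.induction_on with
      | H x =>
        obtain ⟨y, hy, z, hz, hxyz⟩ := hc3 x x.2
        refine ⟨⟨y, hy⟩, ?_⟩
        rw [QuotientGroup.eq, Subgroup.mem_subgroupOf]
        refine ⟨z, hz, ?_⟩
        show z ^ m ^ k = y⁻¹ * (x : G)
        rw [hxyz, inv_mul_cancel_left]
    exact Subgroup.index_ne_zero_of_finite

end AbM

open AbM Pool.Agent.Helper59.EI.Ab

/-- an abelian group with `PEl m` is locally finite -/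
theorem abM_LF (hm : 0 < m) {B : Subgroup G} (hc : ∀ x ∈ B, ∀ y ∈ B, x * y = y * x)
    (hp : ∀ x ∈ B, PEl m x) : LF B :=
  fun _ hs hsB => finite_closure hm.ne' hc hp hs hsB

theorem abM_fin (hm : 0 < m) (ht : Thin m G) {B : Subgroup G}
    (hc : ∀ x ∈ B, ∀ y ∈ B, x * y = y * x) (k : ℕ) : {x : G | x ∈ B ∧ x ^ m ^ k = 1}.Finite := by
  have h1 : {x : G | x ∈ B ∧ x ^ m = 1}.Finite := by
    have h := ht (rootS B ⊥ hc m) (fun x hx => Subgroup.mem_bot.1 hx.2)
      (fun x hx y hy => hc x hx.1 y hy.1)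
    refine h.subset ?_
    rintro x ⟨hx, hx'⟩
    exact ⟨hx, Subgroup.mem_bot.2 hx'⟩
  induction k with
  | zero =>
    refine (Set.finite_singleton (1 : G)).subset ?_
    rintro x ⟨_, hx⟩
    rwa [pow_zero, pow_one] at hx
  | succ k ih =>
    refine Set.Finite.of_finite_fibers (fun x : G => x ^ m) (ih.subset ?_) ?_
    · rintro _ ⟨x, ⟨hx, hxk⟩, rfl⟩
      refine ⟨B.pow_mem hx m, ?_⟩
      rwa [← pow_mul, ← pow_succ']
    · intro y _
      by_cases hy : ∃ x ∈ B, x ^ m = y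
      · obtain ⟨x, hx, rfl⟩ := hy
        refine (h1.image (fun z => x * z)).subset ?_
        rintro z ⟨⟨hz, -⟩, hzx⟩
        have hzx' : z ^ m = x ^ m := hzx
        refine ⟨x⁻¹ * z, ⟨B.mul_mem (B.inv_mem hx) hz, ?_⟩, mul_inv_cancel_left x z⟩
        rw [mul_pow_mem hc (B.inv_mem hx) hz, inv_pow, hzx', inv_mul_cancel]
      · refine Set.finite_empty.subset ?_
        rintro z ⟨⟨hz, -⟩, hzx⟩
        exact hy ⟨z, hz, hzx⟩

/-- descending chain condition -/
theorem abM_dcc (hm : 0 < m) (ht : Thin m G) {B : Subgroup G}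
    (hc : ∀ x ∈ B, ∀ y ∈ B, x * y = y * x) (hp : ∀ x ∈ B, PEl m x) (Z : ℕ → Subgroup G)
    (hZ : Antitone Z) (h0 : Z 0 ≤ B) : ∃ k, ∀ n, k ≤ n → Z n = Z k :=
  (AbG.of_thin hm ht hc hp).dcc Z hZ h0

/-- the divisible part has finite index -/
theorem abM_dv (hm : 0 < m) (ht : Thin m G) {B : Subgroup G}
    (hc : ∀ x ∈ B, ∀ y ∈ B, x * y = y * x) (hp : ∀ x ∈ B, PEl m x) :
    ∃ P : Subgroup G, Dv m P ∧ P ≤ B ∧ P.relIndex B ≠ 0 :=
  (AbG.of_thin hm ht hc hp).dvp

end Pool.Agent.Helper59.EK
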