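import Pool.Agent.Helper59.EK.DvApiM

/-!
# EK-26a. Counting
-/

set_option autoImplicit false

namespace Pool.Agent.Helper59.EK

universe u v

open Pool.Agent.Helper98.Engel Pool.Agent.Helper59.EI

variable {G : Type u} [Group G] {m : ℕ}

/-- The order of a finite subgroup `D` of `M` is bounded in terms of the number of elements of
`V = ⟨x ^ n : x ∈ D⟩`, where `n = m ^ k` and `x ^ n ∈ dv M` for all `x ∈ M`. (`|D : D ∩ dv M|` is at
most `|M : dv M|`; the homomorphism `x ↦ x ^ n` maps `D ∩ dv M` into `V`, its kernel is contained in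
the finite set of the `x ∈ dv M` with `x ^ n = 1`.) -/
theorem card_bound (hm : 0 < m) (ht : Thin m G) {M P : Subgroup G} (hP : Dv m P) (hPM : P ≤ M)
    (hi : P.relIndex M ≠ 0) (k : ℕ) :
    ∃ b : ℕ, ∀ D : Subgroup G, D ≤ M → (D : Set G).Finite →
      (D : Set G).ncard ≤ b * ((Subgroup.closure {y : G | ∃ x ∈ D, y = x ^ m ^ k} :
        Subgroup G) : Set G).ncard := by
  classical
  have hK := abM_fin hm ht hP.comm k
  refine ⟨P.relIndex M * {x : G | x ∈ P ∧ x ^ m ^ k = 1}.ncard, fun D hDM hD => ?_⟩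
  obtain ⟨V, hV⟩ : ∃ V : Subgroup G, V = Subgroup.closure {y : G | ∃ x ∈ D, y = x ^ m ^ k} :=
    ⟨_, rfl⟩
  rw [← hV]
  have hVD : V ≤ D := by
    rw [hV, Subgroup.closure_le]
    rintro y ⟨x, hx, rfl⟩
    exact D.pow_mem hx _
  have hVf : (V : Set G).Finite := hD.subset hVD
  obtain ⟨K, hKd⟩ : ∃ K : Set G, K = {x : G | x ∈ P ∧ x ^ m ^ k = 1} := ⟨_, rfl⟩
  rw [← hKd] at hK ⊢
  have hKf : Finite K := hK.to_subtype
  have hVf' : Finite (V : Set G) := hVf.to_subtype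
  -- the order of `D`
  have h1 : Nat.card (P ⊓ D : Subgroup G) * (P ⊓ D).relIndex D = Nat.card D := by
    have := Subgroup.relIndex_mul_relIndex (⊥ : Subgroup G) (P ⊓ D) D bot_le inf_le_right
    rwa [Subgroup.relIndex_bot_left, Subgroup.relIndex_bot_left] at this
  rw [Subgroup.inf_relIndex_right] at h1
  have h2 : P.relIndex D ≤ P.relIndex M := Subgroup.relIndex_le_of_le_right hDM hi
  -- the order of `P ⊓ D`
  have h3 : Nat.card (P ⊓ D : Subgroup G) ≤ Nat.card K * Nat.card (V : Set G) := by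
    have hg : ∃ g : G → G, ∀ x ∈ P ⊓ D, g (x ^ m ^ k) ∈ P ⊓ D ∧
        (g (x ^ m ^ k)) ^ m ^ k = x ^ m ^ k := by
      have hh : ∀ v : G, ∃ y : G, (∃ x ∈ P ⊓ D, x ^ m ^ k = v) → y ∈ P ⊓ D ∧ y ^ m ^ k = v := by
        intro v
        by_cases h : ∃ x ∈ P ⊓ D, x ^ m ^ k = v
        · obtain ⟨x, hx, hxv⟩ := h
          exact ⟨x, fun _ => ⟨hx, hxv⟩⟩
        · exact ⟨1, fun h' => absurd h' h⟩
      choose g hg using hh
      exact ⟨g, fun x hx => hg (x ^ m ^ k) ⟨x, hx, rfl⟩⟩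
    obtain ⟨g, hg⟩ := hg
    rw [← Nat.card_prod]
    refine Nat.card_le_card_of_injective (fun x : (P ⊓ D : Subgroup G) =>
      ((⟨(x : G) * (g ((x : G) ^ m ^ k))⁻¹, ?_⟩ : K),
        (⟨(x : G) ^ m ^ k, ?_⟩ : (V : Set G)))) ?_
    · have hx := x.2
      have hy := hg x hx
      rw [hKd]
      refine ⟨P.mul_mem (Subgroup.mem_inf.1 hx).1 (P.inv_mem (Subgroup.mem_inf.1 hy.1).1), ?_⟩
      have hc : Commute (x : G) (g ((x : G) ^ m ^ k))⁻¹ :=
        hP.comm _ (Subgroup.mem_inf.1 hx).1 _ (P.inv_mem (Subgroup.mem_inf.1 hy.1).1)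
      rw [hc.mul_pow, inv_pow, hy.2, mul_inv_cancel]
    · rw [hV]
      exact Subgroup.subset_closure ⟨x, (Subgroup.mem_inf.1 x.2).2, rfl⟩
    · intro x y hxy
      simp only [Prod.mk.injEq, Subtype.mk.injEq] at hxy
      obtain ⟨h4, h5⟩ := hxy
      rw [h5] at h4
      exact Subtype.ext (mul_right_cancel h4)
  rw [Nat.card_coe_set_eq, Nat.card_coe_set_eq] at h3
  rw [show (D : Set G).ncard = Nat.card D from (Nat.card_coe_set_eq (D : Set G)).symm, ← h1]
  calc Nat.card (P ⊓ D : Subgroup G) * P.relIndex D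
      ≤ (K.ncard * (V : Set G).ncard) * P.relIndex M := Nat.mul_le_mul h3 h2
    _ = P.relIndex M * K.ncard * (V : Set G).ncard := by ring

/-- some power `m ^ k` maps `M` into `P`, if `P` is normal in `M` of finite index -/
theorem exists_exp (hm : 0 < m) {M P : Subgroup G} (hPM : P ≤ M) (hn : M ≤ Nr P)
    (hi : P.relIndex M ≠ 0) (hp : ∀ x ∈ M, PEl m x) : ∃ k : ℕ, ∀ x ∈ M, x ^ m ^ k ∈ P := by
  classical
  have hN : (P.subgroupOf M).Normal := (Subgroup.normal_subgroupOf_iff_le_normalizer hPM).2 hn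
  have hfi : (P.subgroupOf M).FiniteIndex := ⟨hi⟩
  have hf : Finite (M ⧸ P.subgroupOf M) := Subgroup.finite_quotient_of_finiteIndex
  have h1 : ∀ q : M ⧸ P.subgroupOf M, ∃ k : ℕ, q ^ m ^ k = 1 := by
    intro q
    obtain ⟨x, rfl⟩ := QuotientGroup.mk_surjective q
    obtain ⟨k, hk⟩ := hp x x.2
    refine ⟨k, ?_⟩
    rw [← QuotientGroup.mk_pow]
    have : x ^ m ^ k = 1 := Subtype.ext (by simpa using hk)
    rw [this, QuotientGroup.mk_one]
  choose f hf1 using h1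
  have := Fintype.ofFinite (M ⧸ P.subgroupOf M)
  refine ⟨Finset.univ.sup f, fun x hx => ?_⟩
  have h2 : f (QuotientGroup.mk (⟨x, hx⟩ : M)) ≤ Finset.univ.sup f :=
    Finset.le_sup (Finset.mem_univ _)
  obtain ⟨d, hd⟩ := Nat.exists_eq_add_of_le h2
  have h3 : (QuotientGroup.mk (⟨x, hx⟩ : M) : M ⧸ P.subgroupOf M) ^ m ^ (Finset.univ.sup f) = 1 := by
    rw [hd, pow_add, pow_mul, hf1, one_pow]
  rw [← QuotientGroup.mk_pow, QuotientGroup.eq_one_iff, Subgroup.mem_subgroupOf] at h3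
  simpa using h3

end Pool.Agent.Helper59.EK
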