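import Pool.Agent.Helper59.EK.LemD

/-!
# EK-26b. Representatives
-/

set_option autoImplicit false

namespace Pool.Agent.Helper59.EK

universe u v

open Pool.Agent.Helper98.Engel Pool.Agent.Helper59.EI

variable {G : Type u} [Group G] {m : ℕ}

variable {T : Set G}

/-- The main point. Let `a ∈ T`, `Gd M a`. There are finitely many elements `g₁, ..., gₗ` such that
`cj M gᵢ ≠ M`, `bᵢ = gᵢ⁻¹ a gᵢ ∈ M` and such that for every `e` with `cj M e ≠ M`, `e⁻¹ a e ∈ M` there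
are `i`, `c ∈ Nr M` and `y ∈ dv M` with `e = c gᵢ y`. (One `gᵢ` for each coset of `dv M` in `M` which
contains some `g⁻¹ a g` with `cj M g ≠ M`. `Gd (cj M g) (g⁻¹ a g)`, so by Lemma D `g⁻¹ a g` has finite
centraliser in `dv M`, and by `DvM.surj` the coset `bᵢ (dv M)` is the `dv M`-class of `bᵢ`. So
`e⁻¹ a e = y⁻¹ bᵢ y` and `c = e (gᵢ y)⁻¹` commutes with `a`.) -/
theorem CoreE.reps (h : CoreE G m T) (hinf : ∀ M, IsM T M → (M : Set G).Infinite)
    {M : Subgroup G} (hM : IsM T M) {a : G} (ha : a ∈ T) (hg : Gd M a) :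
    ∃ S : Set G, S.Finite ∧ (∀ g ∈ S, cj M g ≠ M ∧ g⁻¹ * a * g ∈ M ∧
        {y : G | y ∈ dv m M ∧ y * (g⁻¹ * a * g) = (g⁻¹ * a * g) * y}.Finite) ∧
      ∀ e : G, cj M e ≠ M → e⁻¹ * a * e ∈ M →
        ∃ g ∈ S, ∃ c ∈ Nr M, ∃ y ∈ dv m M, e = c * g * y := by
  have hdv := h.dv_struct hM.tg hM.lf
  have hQ : Dv m (dv m M) := hdv.1
  have hfi : Finite (M ⧸ (dv m M).subgroupOf M) := by
    have h1 : ((dv m M).subgroupOf M).index ≠ 0 := hdv.2.1
    have : ((dv m M).subgroupOf M).FiniteIndex := ⟨h1⟩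
    exact Subgroup.finite_quotient_of_finiteIndex
  -- properties of a single `g`
  have key : ∀ g : G, cj M g ≠ M → g⁻¹ * a * g ∈ M →
      {y : G | y ∈ dv m M ∧ y * (g⁻¹ * a * g) = (g⁻¹ * a * g) * y}.Finite := by
    intro g h1 h2
    have hcj : IsM T (cj M g) := h.toET.cj_isM hM g
    refine h.lemD hM hcj (hinf M hM) (hinf _ hcj) (Ne.symm h1) (h.conj a ha g) h2 ?_
    refine ⟨?_, ?_⟩
    · rw [mem_cj]
      have h3 : g * (g⁻¹ * a * g) * g⁻¹ = a := by group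
      rw [h3]
      exact hg.1
    · intro c hc
      have h4 : (g * c * g⁻¹) * a = a * (g * c * g⁻¹) := by
        have h5 : (g * c * g⁻¹) * a = g * (c * (g⁻¹ * a * g)) * g⁻¹ := by group
        rw [h5, hc]
        group
      have h6 : g * c * g⁻¹ ∈ Nr M := hg.2 _ h4
      rw [mem_Nr] at h6 ⊢
      intro x
      rw [mem_cj, mem_cj, h6 (g * x * g⁻¹)]
      have h7 : g * c * g⁻¹ * (g * x * g⁻¹) * (g * c * g⁻¹)⁻¹ = g * (c * x * c⁻¹) * g⁻¹ := by
        group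
      rw [h7]
  let E : Set G := {g | cj M g ≠ M ∧ g⁻¹ * a * g ∈ M}
  let φ : E → M ⧸ (dv m M).subgroupOf M := fun g =>
    QuotientGroup.mk (⟨g.1⁻¹ * a * g.1, g.2.2⟩ : M)
  let ψ : Set.range φ → G := fun q => (Classical.choose q.2 : E).1
  refine ⟨Set.range ψ, Set.finite_range ψ, ?_, ?_⟩
  · rintro g ⟨q, rfl⟩
    have h1 := (Classical.choose q.2 : E).2
    exact ⟨h1.1, h1.2, key _ h1.1 h1.2⟩
  · intro e he1 he2
    let e' : E := ⟨e, he1, he2⟩
    let q : Set.range φ := ⟨φ e', ⟨e', rfl⟩⟩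
    have h1 : φ (Classical.choose q.2) = φ e' := Classical.choose_spec q.2
    have hgE := (Classical.choose q.2 : E).2
    set g : G := (Classical.choose q.2 : E).1 with hgdef
    have h2 : (g⁻¹ * a * g)⁻¹ * (e⁻¹ * a * e) ∈ dv m M := by
      have h3 := QuotientGroup.eq.1 h1
      rw [Subgroup.mem_subgroupOf] at h3
      exact h3
    have hs : g⁻¹ * a * g ∈ Nr (dv m M) := dvM_nr (le_Nr M hgE.2)
    obtain ⟨y, hy, hy2⟩ := DvM.surj h.pos h.thin hQ hs (key g hgE.1 hgE.2) _ h2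
    have hy3 : y⁻¹ * (g⁻¹ * a * g) * y = e⁻¹ * a * e := by
      rw [hy2]
      group
    refine ⟨g, ⟨q, rfl⟩, e * (g * y)⁻¹, ?_, y, hy, by group⟩
    apply hg.2
    have h4 : a = g * y * (e⁻¹ * a * e) * y⁻¹ * g⁻¹ := by
      rw [← hy3]
      group
    calc e * (g * y)⁻¹ * a = e * (g * y)⁻¹ * (g * y * (e⁻¹ * a * e) * y⁻¹ * g⁻¹) := by
          rw [← h4]
      _ = a * (e * (g * y)⁻¹) := by group

end Pool.Agent.Helper59.EK
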