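import Pool.Agent.Helper59.EK.MemE

/-!
# EK-22. Baer's step
-/

set_option autoImplicit false

namespace Pool.Agent.Helper59.EK

universe u v

open Pool.Agent.Helper98.Engel Pool.Agent.Helper59.EI

variable {G : Type u} [Group G] {m : ℕ}

variable {T : Set G}

/-- an element of `T` outside `M` normalising `II T M M'` -/
theorem CoreE.exists_out (h : CoreE G m T) {M M' : Subgroup G} (hM : IsM T M) (hM' : IsM T M')
    (hne : M ≠ M') : ∃ f ∈ T, f ∈ M' ∧ f ∉ M ∧ f ∈ Nr (II T M M') := by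
  have h1 : II T M M' ≠ M' := by
    intro h2
    apply hne
    have h3 : M' ≤ M := by
      rw [← h2]
      exact II_le_left T M M'
    exact (EK.IsM.eq_of_le hM' hM h3).symm
  obtain ⟨t, ht, htM', htn, htI⟩ := h.tnc hM'.tg hM'.lf (II_TG T M M') (II_le_right T M M') h1
  exact ⟨t, ht, htM', fun htM => htI (mem_II ht htM htM'), htn⟩

/-- Engel sequence: if `x ∈ T ∩ M` and `f` does not normalise `M`, there is `g` in every subgroup
containing `x` and `f` which does not normalise `M` and with `g⁻¹ x g ∈ M`. (`y₀ = f`,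
`y_{j+1} = [y_j, x]`; let `k ≥ 1` be least with `y_k ∈ Nr M`, `g = y_{k-1}`;
`y_k = (g⁻¹ x⁻¹ g) x`, so `g⁻¹ x g ∈ Nr M ∩ T ⊆ M`.) -/
theorem ET.engel_out (h : ET m T) {M : Subgroup G} (hM : IsM T M) {x f : G} (hx : x ∈ T)
    (hxM : x ∈ M) (hf : f ∉ Nr M) {H : Subgroup G} (hxH : x ∈ H) (hfH : f ∈ H) :
    ∃ g ∈ H, g ∉ Nr M ∧ g⁻¹ * x * g ∈ M := by
  classical
  obtain ⟨n, hn⟩ := h.lft x hx f
  have hex : ∃ k, eng x k f ∈ Nr M := ⟨n, by rw [hn]; exact one_mem _⟩
  have hk := Nat.find_spec hex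
  rcases hk0 : Nat.find hex with _ | k
  · rw [hk0, eng_zero] at hk
    exact absurd hk hf
  · have hlt : eng x k f ∉ Nr M := by
      apply Nat.find_min hex
      rw [hk0]
      exact Nat.lt_succ_self k
    rw [hk0, eng_succ] at hk
    set g := eng x k f with hg
    refine ⟨g, eng_mem hxH hfH k, hlt, ?_⟩
    have h1 : g⁻¹ * x⁻¹ * g ∈ Nr M := by
      have h2 := mul_mem hk (inv_mem (le_Nr M hxM))
      rwa [mul_inv_cancel_right] at h2
    have h3 : g⁻¹ * x * g ∈ Nr M := by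
      have h4 := inv_mem h1
      convert h4 using 1
      group
    exact h.mem_of_nr hM (h.conj x hx g) h3

/-- Baer's step: `cj M g⁻¹ ≠ M` and `II T M (cj M g⁻¹)` is larger than `D = II T M M'`. Take
`x ∈ T ∩ M ∩ Nr D`, `x ∉ D` (`CoreE.tnc` for `D < M`) and `f` from `exists_out`; apply `engel_out` with
`H = Nr D`. -/
theorem CoreE.step (h : CoreE G m T) {M M' : Subgroup G} (hM : IsM T M) (hM' : IsM T M')
    (hne : M ≠ M') : ∃ M'' : Subgroup G, IsM T M'' ∧ M'' ≠ M ∧ II T M M' ≤ II T M M'' ∧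
      II T M M' ≠ II T M M'' := by
  have hET : ET m T := h.toET
  have h1 : II T M M' ≠ M := by
    intro h2
    apply hne
    have h3 : M ≤ M' := by
      conv_lhs => rw [← h2]
      exact II_le_right T M M'
    exact EK.IsM.eq_of_le hM hM' h3
  obtain ⟨x, hx, hxM, hxn, hxI⟩ := h.tnc hM.tg hM.lf (II_TG T M M') (II_le_left T M M') h1
  obtain ⟨f, hf, hfM', hfM, hfn⟩ := h.exists_out hM hM' hne
  have hfN : f ∉ Nr M := fun h2 => hfM (hET.mem_of_nr hM hf h2)
  obtain ⟨g, hgn, hgM, hgx⟩ := hET.engel_out hM hx hxM hfN hxn hfn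
  have hxM'' : x ∈ cj M g⁻¹ := by
    rw [mem_cj, inv_inv]
    exact hgx
  refine ⟨cj M g⁻¹, hET.cj_isM hM g⁻¹, ?_, ?_, ?_⟩
  · intro h2
    rw [cj_eq_iff] at h2
    exact hgM (by simpa using inv_mem h2)
  · conv_lhs => unfold II
    rw [Subgroup.closure_le]
    rintro d ⟨hdT, hd⟩
    have hd' := Subgroup.mem_inf.1 hd
    have hdI : d ∈ II T M M' := mem_II hdT hd'.1 hd'.2
    refine mem_II hdT hd'.1 ?_
    rw [mem_cj, inv_inv]
    exact II_le_left T M M' ((mem_Nr'.1 hgn d).1 hdI)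
  · intro h2
    apply hxI
    rw [h2]
    exact mem_II hx hxM hxM''

end Pool.Agent.Helper59.EK
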