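import Pool.Agent.Helper59.EK.BdA
import Pool.Agent.Helper59.EK.BdR
import Pool.Agent.Helper59.EK.StepE

/-!
# EK-26c. The bound
-/

set_option autoImplicit false

namespace Pool.Agent.Helper59.EK

universe u v

open Pool.Agent.Helper98.Engel Pool.Agent.Helper59.EI

variable {G : Type u} [Group G] {m : ℕ}

variable {T : Set G}

/-- The bound. Let `M' ≠ M` be a maximal member, `a ∈ M'`, `D = II T M M'`, `V` as in `card_bound`.
Take `e = f` from `CoreE.exists_out`; `e ∉ Nr M` (`ET.mem_of_nr`), `e⁻¹ a e ∈ D ≤ M`. By `reps`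
`e = c g y`. `e` normalises `D`, so it normalises `V ≤ dv M`; `c` normalises `dv M`, `y` centralises
`V`; so `V ≤ dv M ⊓ dv (cj M g)`, which is finite by Lemma D2. -/
theorem CoreE.bound (h : CoreE G m T) (hinf : ∀ M, IsM T M → (M : Set G).Infinite)
    {M : Subgroup G} (hM : IsM T M) {a : G} (ha : a ∈ T) (hg : Gd M a) :
    ∃ N : ℕ, ∀ M', IsM T M' → M' ≠ M → a ∈ M' →
      ((II T M M' : Subgroup G) : Set G).ncard ≤ N := by
  classical
  have := h.cnt
  obtain ⟨hdv, hidx, -⟩ := h.dv_struct hM.tg hM.lf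
  have hMn : M ≤ Nr (dv m M) := fun g hg => dvM_nr (le_Nr M hg)
  obtain ⟨k, hk⟩ := exists_exp h.pos (dvM_le m M) hMn hidx (h.toET.ln hM.tg hM.lf).2
  obtain ⟨b, hb⟩ := card_bound h.pos h.thin hdv (dvM_le m M) hidx k
  obtain ⟨S, hSf, hS1, hS2⟩ := h.reps hinf hM ha hg
  -- the finite intersections
  have hfinI : ∀ g ∈ S, (((dv m M ⊓ dv m (cj M g) : Subgroup G)) : Set G).Finite := by
    intro g hgS
    obtain ⟨h1, h2, h3⟩ := hS1 g hgS
    have hcj := h.toET.cj_isM hM g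
    refine h.lemD2 hM hcj (hinf M hM) (hinf _ hcj) (Ne.symm h1) (h.conj a ha g) h2 ?_ h3
    rw [mem_cj]
    have : g * (g⁻¹ * a * g) * g⁻¹ = a := by group
    rw [this]
    exact hg.1
  -- a common bound
  obtain ⟨N₀, hN₀⟩ : ∃ N₀ : ℕ, ∀ g ∈ S,
      (((dv m M ⊓ dv m (cj M g) : Subgroup G)) : Set G).ncard ≤ N₀ := by
    obtain ⟨N₀, hN₀⟩ := (hSf.image fun g =>
      (((dv m M ⊓ dv m (cj M g) : Subgroup G)) : Set G).ncard).bddAbove
    exact ⟨N₀, fun g hgS => hN₀ ⟨g, hgS, rfl⟩⟩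
  refine ⟨b * N₀, ?_⟩
  intro M' hM' hne haM'
  have hDfin := h.lemC hM hM' (Ne.symm hne)
  obtain ⟨e, heT, heM', heM, heD⟩ := h.exists_out hM hM' (Ne.symm hne)
  have heN : e ∉ Nr M := fun hc => heM (h.toET.mem_of_nr hM heT hc)
  have hcj : cj M e ≠ M := fun hc => heN (cj_eq_iff.1 hc)
  have haD : a ∈ II T M M' := mem_II ha hg.1 haM'
  have haeD : e⁻¹ * a * e ∈ II T M M' := (mem_Nr'.1 heD a).1 haD
  obtain ⟨g, hgS, c, hc, y, hy, hegy⟩ := hS2 e hcj (II_le_left T M M' haeD)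
  set D := II T M M' with hD
  set V := Subgroup.closure {z : G | ∃ x ∈ D, z = x ^ m ^ k} with hV
  have hVdv : V ≤ dv m M := by
    rw [hV, Subgroup.closure_le]
    rintro _ ⟨x, hx, rfl⟩
    exact hk x (II_le_left T M M' hx)
  have hVe : ∀ v ∈ V, e * v * e⁻¹ ∈ V := by
    intro v hv
    have h1 : V ≤ V.comap (MulAut.conj e).toMonoidHom := by
      conv_lhs => rw [hV]
      rw [Subgroup.closure_le]
      rintro _ ⟨x, hx, rfl⟩
      change e * x ^ m ^ k * e⁻¹ ∈ V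
      rw [← conj_pow]
      exact Subgroup.subset_closure ⟨_, (mem_Nr.1 heD x).1 hx, rfl⟩
    exact h1 hv
  have hVle : V ≤ dv m M ⊓ dv m (cj M g) := by
    refine le_inf hVdv ?_
    intro v hv
    rw [dvM_cj, mem_cj]
    have h1 := hVdv (hVe v hv)
    have h2 : y * v * y⁻¹ = v := by
      rw [hdv.comm y hy v (hVdv hv)]
      group
    have h3 : e * v * e⁻¹ = c * (g * v * g⁻¹) * c⁻¹ := by
      rw [hegy]
      calc c * g * y * v * (c * g * y)⁻¹ = c * g * (y * v * y⁻¹) * g⁻¹ * c⁻¹ := by group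
        _ = c * (g * v * g⁻¹) * c⁻¹ := by rw [h2]; group
    rw [h3] at h1
    exact (mem_Nr.1 (dvM_nr hc) _).2 h1
  have h1 := hb D (II_le_left T M M') hDfin
  have h2 : (V : Set G).ncard ≤ N₀ :=
    (Set.ncard_le_ncard hVle (hfinI g hgS)).trans (hN₀ g hgS)
  exact h1.trans (Nat.mul_le_mul_left b h2)

end Pool.Agent.Helper59.EK
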