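import Pool.Agent.Helper59.EK.LemC

/-!
# EK-24. Good members
-/

set_option autoImplicit false

namespace Pool.Agent.Helper59.EK

universe u v

open Pool.Agent.Helper98.Engel Pool.Agent.Helper59.EI

variable {G : Type u} [Group G] {m : ℕ}

variable {T : Set G}

/-- the subgroups among which a maximal one is chosen -/
private def GoodE.fam (T : Set G) (a : G) : Set (Subgroup G) :=
  {F | TG T F ∧ LF F ∧ a ∈ F ∧ ∀ c : G, c * a = a * c → c ∈ Nr F}

private theorem GoodE.start (h : ET m T) {a : G} (ha : a ∈ T) :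
    Subgroup.closure {a} ∈ GoodE.fam T a := by
  have haa : a ∈ Subgroup.closure ({a} : Set G) := Subgroup.subset_closure rfl
  have key : ∀ c : G, c * a = a * c → ∀ x ∈ Subgroup.closure ({a} : Set G), c * x = x * c := by
    intro c hc x hx
    rw [← Subgroup.zpowers_eq_closure] at hx
    obtain ⟨n, rfl⟩ := Subgroup.mem_zpowers_iff.1 hx
    have h1 : Commute c a := hc
    exact (h1.zpow_right n).eq
  refine ⟨TG_closure (by rintro _ rfl; exact ha), ?_, haa, ?_⟩
  · apply LF_of_finite
    have h1 : IsOfFinOrder a := isOfFinOrder_iff_pow_eq_one.2 ⟨m, h.pos, h.pow a ha⟩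
    rw [← Subgroup.zpowers_eq_closure]
    haveI : Finite (Subgroup.zpowers a) := Nat.finite_of_card_ne_zero (by
      rw [Nat.card_zpowers]
      exact (orderOf_pos_iff.2 h1).ne')
    exact Set.toFinite _
  · intro c hc
    rw [mem_Nr]
    intro x
    constructor
    · intro hx
      rw [key c hc x hx, mul_inv_cancel_right]
      exact hx
    · intro hx
      have h2 := key c hc _ hx
      have h3 : x = c * x * c⁻¹ := by
        have h4 : c * (c * x * c⁻¹) = c * x := by rw [h2, inv_mul_cancel_right]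
        exact (mul_left_cancel h4).symm
      rw [h3]
      exact hx

private theorem GoodE.chain {a : G} {c : Set (Subgroup G)} (hc : c ⊆ GoodE.fam T a)
    (hch : IsChain (· ≤ ·) c) (hne : c.Nonempty) : sSup c ∈ GoodE.fam T a := by
  have hdir : DirectedOn (· ≤ ·) c := hch.directedOn
  have hmem : ∀ x : G, x ∈ sSup c ↔ ∃ F ∈ c, x ∈ F := fun x =>
    Subgroup.mem_sSup_of_directedOn hne hdir
  obtain ⟨F₀, hF₀⟩ := hne
  refine ⟨?_, ?_, (hmem a).2 ⟨F₀, hF₀, (hc hF₀).2.2.1⟩, ?_⟩
  · apply le_antisymm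
    · rw [Subgroup.closure_le]
      exact fun x hx => hx.2
    · intro x hx
      obtain ⟨F, hF, hxF⟩ := (hmem x).1 hx
      have h1 : TG T F := (hc hF).1
      rw [← h1] at hxF
      refine Subgroup.closure_mono ?_ hxF
      rintro y ⟨hy, hyF⟩
      exact ⟨hy, le_sSup hF hyF⟩
  · intro s hs hsc
    have h1 : ∃ F ∈ c, s ⊆ (F : Set G) := by
      induction s, hs using Set.Finite.induction_on with
      | empty => exact ⟨F₀, hF₀, Set.empty_subset _⟩
      | @insert x s hx hs ih =>
        obtain ⟨F, hF, hsF⟩ := ih fun y hy => hsc (Set.mem_insert_of_mem _ hy)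
        obtain ⟨F', hF', hxF'⟩ := (hmem x).1 (hsc (Set.mem_insert _ _))
        obtain ⟨F'', hF'', h3, h4⟩ := hdir F hF F' hF'
        refine ⟨F'', hF'', ?_⟩
        rintro y (rfl | hy)
        · exact h4 hxF'
        · exact h3 (hsF hy)
    obtain ⟨F, hF, hsF⟩ := h1
    exact (hc hF).2.1 s hs hsF
  · intro d hd
    rw [mem_Nr]
    intro x
    constructor
    · intro hx
      obtain ⟨F, hF, hxF⟩ := (hmem x).1 hx
      exact (hmem _).2 ⟨F, hF, (mem_Nr.1 ((hc hF).2.2.2 d hd) x).1 hxF⟩
    · intro hx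
      obtain ⟨F, hF, hxF⟩ := (hmem _).1 hx
      exact (hmem _).2 ⟨F, hF, (mem_Nr.1 ((hc hF).2.2.2 d hd) x).2 hxF⟩

/-- Assume that all maximal members are infinite. Every `a ∈ T` lies in a maximal member `M`
normalised by the centraliser of `a`. Proof: by Zorn there is a maximal subgroup `F` with: `TG T F`,
`LF F`, `a ∈ F`, and the centraliser of `a` normalises `F` (`⟨a⟩` is one). If `F` is finite, then
`⟨TN T F⟩` is another one by (G2), so it is equal to `F`; but `F < M₁` for some maximal (infinite)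
member `M₁`, and `CoreE.tnc` gives `t ∈ TN T F`, `t ∉ F`. So `F` is infinite; `F ≤ M` for a maximal
member `M`; if `c` commutes with `a` then `F ≤ M ∩ cj M c`, so `II T M (cj M c)` is infinite and
`cj M c = M` by Lemma C. -/
theorem CoreE.exists_good (h : CoreE G m T)
    (hinf : ∀ M, IsM T M → (M : Set G).Infinite) {a : G} (ha : a ∈ T) :
    ∃ M : Subgroup G, IsM T M ∧ Gd M a := by
  obtain ⟨F, -, hmax⟩ := zorn_le_nonempty₀ (GoodE.fam T a)
    (fun c hc hch y hy => ⟨sSup c, GoodE.chain hc hch ⟨y, hy⟩, fun z hz => le_sSup hz⟩)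
    (Subgroup.closure {a}) (GoodE.start h.toET ha)
  obtain ⟨hTG, hLF, haF, hcF⟩ : F ∈ GoodE.fam T a := hmax.prop
  obtain ⟨M, hM, hFM⟩ := h.toET.exists_isM hTG hLF
  have hFinf : (F : Set G).Infinite := by
    intro hfin
    have hne : F ≠ ⊥ := by
      rintro rfl
      exact h.ne a ha (Subgroup.mem_bot.1 haF)
    have hG2 := h.g2 F hTG hfin hne
    have hle : F ≤ Subgroup.closure (TN T F) := by
      have h1 : TG T F := hTG
      calc F = Subgroup.closure (T ∩ F) := h1.symm
        _ ≤ Subgroup.closure (TN T F) :=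
          Subgroup.closure_mono fun x hx => ⟨hx.1, le_Nr F hx.2⟩
    have hin : Subgroup.closure (TN T F) ∈ GoodE.fam T a :=
      ⟨TG_closure fun x hx => hx.1, hG2, hle haF, fun c hc => h.toET.nr_TN (hcF c hc)⟩
    have hle' : Subgroup.closure (TN T F) ≤ F := hmax.le_of_ge hin hle
    have hneM : F ≠ M := by
      rintro rfl
      exact hinf F hM hfin
    obtain ⟨t, ht, -, htN, htF⟩ := h.tnc hM.tg hM.lf hTG hFM hneM
    exact htF (hle' (Subgroup.subset_closure ⟨ht, htN⟩))
  refine ⟨M, hM, hFM haF, fun c hc => ?_⟩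
  by_contra hcM
  have hne : M ≠ cj M c := fun he => hcM (cj_eq_iff.1 he.symm)
  have hfin := h.lemC hM (h.toET.cj_isM hM c) hne
  refine hFinf (hfin.subset ?_)
  have h1 : TG T F := hTG
  have h2 : F ≤ II T M (cj M c) := by
    calc F = Subgroup.closure (T ∩ F) := h1.symm
      _ ≤ II T M (cj M c) := by
        rw [Subgroup.closure_le]
        rintro t ⟨ht, htF⟩
        exact mem_II ht (hFM htF) (mem_cj.2 (hFM ((mem_Nr.1 (hcF c hc) t).1 htF)))
  exact h2

end Pool.Agent.Helper59.EK
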