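import Pool.Agent.Helper59.EK.FinM
import Pool.Agent.Helper59.EK.GoodE
import Pool.Agent.Helper59.EK.BdE

/-!
# EK-27. The core case
-/

set_option autoImplicit false

namespace Pool.Agent.Helper59.EK

universe u v

open Pool.Agent.Helper98.Engel Pool.Agent.Helper59.EI

variable {G : Type u} [Group G] {m : ℕ}

variable {T : Set G}

/-- If some maximal member is finite: `fin_mem`. Otherwise, if `T` is not empty, take `a ∈ T`, `M` from
`exists_good`; `bound` and `mem_of_bound` (with Lemma C) give `T ⊆ M`. -/
theorem CoreE.lf (h : CoreE G m T) : LF (Subgroup.closure T) := by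
  by_cases hfin : ∃ M : Subgroup G, IsM T M ∧ (M : Set G).Finite
  · obtain ⟨M, hM, hMf⟩ := hfin
    exact hM.lf.mono ((Subgroup.closure_le _).2 (h.fin_mem hM hMf))
  · have hinf : ∀ M, IsM T M → (M : Set G).Infinite := fun M hM hf => hfin ⟨M, hM, hf⟩
    rcases T.eq_empty_or_nonempty with hT | ⟨a, ha⟩
    · rw [hT, Subgroup.closure_empty]
      exact LF_of_finite (by rw [Subgroup.coe_bot]; exact Set.finite_singleton _)
    · obtain ⟨M, hM, hg⟩ := h.exists_good hinf ha
      obtain ⟨N, hN⟩ := h.bound hinf hM ha hg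
      exact hM.lf.mono ((Subgroup.closure_le _).2 (h.mem_of_bound hM ha hg.1
        (fun M' hM' hne => h.lemC hM hM' (Ne.symm hne)) N hN))

end Pool.Agent.Helper59.EK
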