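import Pool.Agent.Helper98.Engel.Family
import Pool.Agent.Helper98.Engel.Defs
import Pool.Agent.Helper59.EI.Rank
import Pool.Agent.Helper59.EI.DvApi

/-!
# Left Engel elements of finite order in thin groups: definitions

`m` is a positive natural number, not necessarily a prime. From EI.Defs we use, for arbitrary `m`:
`LF` (locally finite subgroup), `PEl m x` (`x ^ m ^ k = 1` for some `k`), `Thin m G` (abelian
subgroups of exponent dividing `m` are finite), `Dv m P` (abelian, `PEl m`, every element is an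
`m`-th power), `dv m X` (join of all `Dv m` subgroups of `X`), `Nr`, `TG T M` (`M` is generated by
`T ∩ M`), `TN T Q` (elements of `T` normalising `Q`), `IsM T M` (maximal locally finite `TG`
subgroup).
-/

set_option autoImplicit false

namespace Pool.Agent.Helper59.EK

universe u

open Pool.Agent.Helper98.Engel Pool.Agent.Helper59.EI

variable {G : Type u} [Group G]

/-- `T` is a normal set of nontrivial left Engel elements of order dividing `m` -/
structure ET (m : ℕ) (T : Set G) : Prop where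
  pos : 0 < m
  ne : ∀ t ∈ T, t ≠ 1
  pow : ∀ t ∈ T, t ^ m = 1
  conj : ∀ t ∈ T, ∀ g : G, g⁻¹ * t * g ∈ T
  lft : ∀ t ∈ T, IsLeftEngel t

/-- a countable counterexample -/
structure BaseE (G : Type u) [Group G] (m : ℕ) (T : Set G) : Prop extends ET m T where
  cnt : Countable G
  thin : Thin m G
  gen : Subgroup.closure T = ⊤
  bad : ¬ LF (⊤ : Subgroup G)

/-- (G3) -/
def G3E (m : ℕ) (T : Set G) : Prop :=
  ∀ Q : Subgroup G, Dv m Q → Q ≠ ⊥ → LF (Subgroup.closure (TN T Q))

/-- (G2) -/
def G2E (T : Set G) : Prop :=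
  ∀ F : Subgroup G, TG T F → (F : Set G).Finite → F ≠ ⊥ → LF (Subgroup.closure (TN T F))

/-- the reduced situation -/
structure CoreE (G : Type u) [Group G] (m : ℕ) (T : Set G) : Prop extends ET m T where
  cnt : Countable G
  thin : Thin m G
  g3 : G3E m T
  g2 : G2E T

/-- the elements of `T` acting on `A` like `t` -/
def SclE (T : Set G) (A : Subgroup G) (t : G) : Set G :=
  {s | s ∈ T ∧ ∀ a ∈ A, s⁻¹ * a * s = t⁻¹ * a * t}

/-- `(A, t)` is a pair -/
structure PrE (m : ℕ) (T : Set G) (A : Subgroup G) (t : G) : Prop where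
  fin : (A : Set G).Finite
  pel : ∀ x ∈ A, PEl m x
  mem : t ∈ T
  nr : t ∈ Nr A
  bad : ¬ LF (Subgroup.closure (SclE T A t))

/-- the pair `(A, t)` is final: no pair above it absorbs an element of `SclE T A t` -/
structure FPrE (m : ℕ) (T : Set G) (A : Subgroup G) (t : G) : Prop extends PrE m T A t where
  final : ∀ A' t', PrE m T A' t' → A ≤ A' → t' ∈ SclE T A t → ∀ s ∈ A', s ∈ SclE T A t → s ∈ A

/-- the image of `S`, without `1` -/
def imgE {H : Subgroup G} {K : Type u} [Group K] (f : H →* K) (S : Set G) : Set K :=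
  {x | x ≠ 1 ∧ ∃ s : H, (s : G) ∈ S ∧ f s = x}

/-- the subgroup generated by the elements of `T` in `M ∩ M'` -/
def II (T : Set G) (M M' : Subgroup G) : Subgroup G :=
  Subgroup.closure (T ∩ ((M ⊓ M' : Subgroup G) : Set G))

/-- the conjugate subgroup `g⁻¹ M g` -/
def cj (M : Subgroup G) (g : G) : Subgroup G := M.map (MulAut.conj g⁻¹).toMonoidHom

/-- the centraliser of `a` is contained in the normaliser of `M` -/
def Gd (M : Subgroup G) (a : G) : Prop := a ∈ M ∧ ∀ c : G, c * a = a * c → c ∈ Nr M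

theorem mem_cj {M : Subgroup G} {g x : G} : x ∈ cj M g ↔ g * x * g⁻¹ ∈ M := by
  constructor
  · rintro ⟨y, hy, rfl⟩
    have h1 : g * (MulAut.conj g⁻¹).toMonoidHom y * g⁻¹ = y := by
      change g * (g⁻¹ * y * g⁻¹⁻¹) * g⁻¹ = y
      group
    rw [h1]
    exact hy
  · intro h
    refine ⟨g * x * g⁻¹, h, ?_⟩
    change g⁻¹ * (g * x * g⁻¹) * g⁻¹⁻¹ = x
    group

theorem cj_eq_iff {M : Subgroup G} {g : G} : cj M g = M ↔ g ∈ Nr M := by
  rw [mem_Nr]
  constructor
  · intro h x
    conv_lhs => rw [← h]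
    exact mem_cj
  · intro h
    ext x
    rw [mem_cj]
    exact (h x).symm

theorem II_TG (T : Set G) (M M' : Subgroup G) : TG T (II T M M') :=
  TG_closure Set.inter_subset_left

theorem II_le_left (T : Set G) (M M' : Subgroup G) : II T M M' ≤ M := by
  unfold II
  rw [Subgroup.closure_le]
  rintro x ⟨_, hx⟩
  exact (Subgroup.mem_inf.1 hx).1

theorem II_le_right (T : Set G) (M M' : Subgroup G) : II T M M' ≤ M' := by
  unfold II
  rw [Subgroup.closure_le]
  rintro x ⟨_, hx⟩
  exact (Subgroup.mem_inf.1 hx).2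

theorem mem_II {T : Set G} {M M' : Subgroup G} {x : G} (h : x ∈ T) (h1 : x ∈ M) (h2 : x ∈ M') :
    x ∈ II T M M' := Subgroup.subset_closure ⟨h, Subgroup.mem_inf.2 ⟨h1, h2⟩⟩

end Pool.Agent.Helper59.EK
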