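import Pool.Agent.Helper59.EK.Defs

/-!
# EK-11. Dietzmann's lemma
-/

set_option autoImplicit false

namespace Pool.Agent.Helper59.EK

universe u v

open Pool.Agent.Helper98.Engel Pool.Agent.Helper59.EI

variable {G : Type u} [Group G] {m : ℕ}

private theorem dietzE_conj_pow {U : Set G} (hc : ∀ u ∈ U, ∀ v ∈ U, v⁻¹ * u * v ∈ U) {a b : G}
    (ha : a ∈ U) (hb : b ∈ U) (k : ℕ) : (a ^ k)⁻¹ * b * a ^ k ∈ U := by
  induction k with
  | zero => simpa using hb
  | succ k ih =>
    have h := hc _ ih a ha
    have e : (a ^ (k + 1))⁻¹ * b * a ^ (k + 1) = a⁻¹ * ((a ^ k)⁻¹ * b * a ^ k) * a := by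
      rw [pow_succ]
      group
    rw [e]
    exact h

open Classical in
private theorem dietzE_gather {U : Set G} (hc : ∀ u ∈ U, ∀ v ∈ U, v⁻¹ * u * v ∈ U) {a : G}
    (ha : a ∈ U) : ∀ l : List G, (∀ x ∈ l, x ∈ U) → ∀ k ≤ l.count a,
      ∃ l' : List G, (∀ x ∈ l', x ∈ U) ∧ l'.length + k = l.length ∧
        l.prod = a ^ k * l'.prod := by
  intro l
  induction l with
  | nil =>
    intro _ k hk
    have hk0 : k = 0 := by simpa using hk
    subst hk0
    exact ⟨[], by simp, rfl, by simp⟩
  | cons b l ih =>
    intro hl k hk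
    have hb : b ∈ U := hl b (by simp)
    have hl' : ∀ x ∈ l, x ∈ U := fun x hx => hl x (by simp [hx])
    by_cases hba : b = a
    · subst hba
      cases k with
      | zero => exact ⟨b :: l, hl, rfl, by simp⟩
      | succ k =>
        rw [List.count_cons_self] at hk
        obtain ⟨l', h1, h2, h3⟩ := ih hl' k (by omega)
        refine ⟨l', h1, ?_, ?_⟩
        · rw [List.length_cons]; omega
        · rw [List.prod_cons, h3, pow_succ', mul_assoc]
    · rw [List.count_cons_of_ne hba] at hk
      obtain ⟨l', h1, h2, h3⟩ := ih hl' k hk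
      refine ⟨((a ^ k)⁻¹ * b * a ^ k) :: l', ?_, ?_, ?_⟩
      · intro x hx
        rcases List.mem_cons.1 hx with rfl | hx
        · exact dietzE_conj_pow hc ha hb k
        · exact h1 x hx
      · rw [List.length_cons, List.length_cons]; omega
      · rw [List.prod_cons, List.prod_cons, h3]
        group

private theorem dietzE_reduce {U : Set G} (hU : U.Finite)
    (hc : ∀ u ∈ U, ∀ v ∈ U, v⁻¹ * u * v ∈ U) (hm : 0 < m) (ht : ∀ u ∈ U, u ^ m = 1) :
    ∀ n : ℕ, ∀ l : List G, l.length ≤ n → (∀ x ∈ l, x ∈ U) →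
      ∃ l' : List G, (∀ x ∈ l', x ∈ U) ∧ l'.length ≤ hU.toFinset.card * m ∧
        l'.prod = l.prod := by
  classical
  intro n
  induction n with
  | zero =>
    intro l hl hlU
    exact ⟨l, hlU, by omega, rfl⟩
  | succ n ih =>
    intro l hl hlU
    by_cases hn : l.length ≤ hU.toFinset.card * m
    · exact ⟨l, hlU, hn, rfl⟩
    · obtain ⟨a, haU, hcount⟩ : ∃ a ∈ U, m ≤ l.count a := by
        by_contra hcon
        push Not at hcon
        apply hn
        rw [← List.sum_toFinset_count_eq_length l]
        have hsub : l.toFinset ⊆ hU.toFinset := by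
          intro x hx
          rw [Set.Finite.mem_toFinset]
          exact hlU x (List.mem_toFinset.1 hx)
        calc ∑ a ∈ l.toFinset, l.count a ≤ ∑ a ∈ l.toFinset, m :=
              Finset.sum_le_sum fun a ha => (hcon a (hlU a (List.mem_toFinset.1 ha))).le
          _ ≤ ∑ a ∈ hU.toFinset, m :=
              Finset.sum_le_sum_of_subset hsub
          _ = hU.toFinset.card * m := by rw [Finset.sum_const, smul_eq_mul]
      obtain ⟨l1, h1, h2, h3⟩ := dietzE_gather hc haU l hlU m hcount
      obtain ⟨l2, h4, h5, h6⟩ := ih l1 (by omega) h1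
      exact ⟨l2, h4, h5, by rw [h6, h3, ht a haU, one_mul]⟩

/-- Dietzmann's lemma. (One proof: `C`, the centraliser of `U`, is the centre of `⟨U⟩` and has finite
index in it, as `⟨U⟩` acts on the finite set `U`; it is finitely generated; by Schur the derived
subgroup is finite, and the abelianization is finite, being generated by finitely many elements of
finite order. Another proof: rewriting of words, see EI/Dietz.lean.) -/
theorem dietzE {U : Set G} (hU : U.Finite) (hc : ∀ u ∈ U, ∀ v ∈ U, v⁻¹ * u * v ∈ U)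
    (hm : 0 < m) (ht : ∀ u ∈ U, u ^ m = 1) :
    ((Subgroup.closure U : Subgroup G) : Set G).Finite := by
  classical
  have : Finite U := hU
  have hfin := (List.finite_length_le U (hU.toFinset.card * m)).image
    (fun l : List U => (l.map Subtype.val).prod)
  refine hfin.subset ?_
  intro x hx
  have hx' : x ∈ Submonoid.closure (U ∪ U⁻¹) := by
    rw [← Subgroup.closure_toSubmonoid]
    exact hx
  have hle : Submonoid.closure (U ∪ U⁻¹) ≤ Submonoid.closure U := by
    rw [Submonoid.closure_le]
    rintro y (hy | hy)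
    · exact Submonoid.subset_closure hy
    · rw [Set.mem_inv] at hy
      have h1 : y = (y⁻¹) ^ (m - 1) := by
        have h2 : (y⁻¹) ^ (m - 1) * y⁻¹ = 1 := by
          rw [← pow_succ, Nat.sub_add_cancel hm]
          exact ht _ hy
        have h3 := eq_inv_of_mul_eq_one_left h2
        rw [inv_inv] at h3
        exact h3.symm
      rw [h1]
      exact pow_mem (Submonoid.subset_closure hy) _
  obtain ⟨l, hl, rfl⟩ := Submonoid.exists_list_of_mem_closure (hle hx')
  obtain ⟨l', h3, h4, h5⟩ := dietzE_reduce hU hc hm ht l.length l le_rfl hl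
  refine ⟨l'.attach.map (fun y => ⟨y.1, h3 y.1 y.2⟩), ?_, ?_⟩
  · show (l'.attach.map (fun y => (⟨y.1, h3 y.1 y.2⟩ : U))).length ≤ _
    rw [List.length_map, List.length_attach]
    exact h4
  · show ((l'.attach.map (fun y => (⟨y.1, h3 y.1 y.2⟩ : U))).map Subtype.val).prod = l.prod
    rw [List.map_map]
    rw [← h5]
    congr 1
    exact List.attach_map_subtype_val l'

end Pool.Agent.Helper59.EK
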