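import Pool.Agent.Helper59.EK.DvM2

/-!
# EK-4. The largest divisible subgroup

Compare EI/DvApi.lean.
-/

set_option autoImplicit false

namespace Pool.Agent.Helper59.EK

universe u v

open Pool.Agent.Helper98.Engel Pool.Agent.Helper59.EI

variable {G : Type u} [Group G] {m : ℕ}

theorem dvM_le (m : ℕ) (X : Subgroup G) : dv m X ≤ X := by
  apply sSup_le
  rintro Q ⟨h, -⟩
  exact h

theorem le_dvM {X Q : Subgroup G} (hQ : Dv m Q) (h : Q ≤ X) : Q ≤ dv m X :=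
  le_sSup ⟨h, hQ⟩

theorem dvM_mono {X Y : Subgroup G} (h : X ≤ Y) : dv m X ≤ dv m Y := by
  apply sSup_le
  rintro Q ⟨h1, h2⟩
  exact le_sSup ⟨h1.trans h, h2⟩

private theorem DvApiM_cj_aux (X : Subgroup G) (g : G) : cj (dv m X) g ≤ dv m (cj X g) := by
  rw [cj, Subgroup.map_le_iff_le_comap]
  apply sSup_le
  rintro Q ⟨h1, h2⟩
  rw [← Subgroup.map_le_iff_le_comap]
  exact le_sSup ⟨Subgroup.map_mono h1, DvM.map _ h2⟩

private theorem DvApiM_cj_cj (X : Subgroup G) (g : G) : cj (cj X g) g⁻¹ = X := by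
  ext x
  rw [mem_cj, mem_cj]
  have h : g * (g⁻¹ * x * g⁻¹⁻¹) * g⁻¹ = x := by group
  rw [h]

theorem dvM_cj (X : Subgroup G) (g : G) : dv m (cj X g) = cj (dv m X) g := by
  apply le_antisymm _ (DvApiM_cj_aux X g)
  have h1 := DvApiM_cj_aux (m := m) (cj X g) g⁻¹
  rw [DvApiM_cj_cj] at h1
  intro x hx
  rw [mem_cj]
  apply h1
  rw [mem_cj]
  have h : g⁻¹ * (g * x * g⁻¹) * g⁻¹⁻¹ = x := by group
  rw [h]
  exact hx

theorem dvM_nr {X : Subgroup G} {g : G} (hg : g ∈ Nr X) : g ∈ Nr (dv m X) := by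
  rw [← cj_eq_iff] at hg ⊢
  rw [← dvM_cj, hg]

/-- abelian subgroups -/
theorem dvM_ab (hm : 0 < m) (ht : Thin m G) {B : Subgroup G}
    (hc : ∀ x ∈ B, ∀ y ∈ B, x * y = y * x) (hp : ∀ x ∈ B, PEl m x) :
    Dv m (dv m B) ∧ (dv m B).relIndex B ≠ 0 ∧ ((B : Set G).Infinite → dv m B ≠ ⊥) := by
  obtain ⟨P, hP, h1, h3⟩ := abM_dv hm ht hc hp
  have h4 : dv m B = P := by
    apply le_antisymm
    · apply sSup_le
      rintro Q ⟨hQB, hQ⟩
      apply DvM.le_of_relIndex hm hQ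
      intro h5
      exact h3 (Subgroup.relIndex_eq_zero_of_le_right hQB h5)
    · exact le_dvM hP h1
  rw [h4]
  refine ⟨hP, h3, fun h5 h6 => ?_⟩
  rw [h6, Subgroup.relIndex_bot_left] at h3
  exact h5 (Nat.finite_of_card_ne_zero h3)

end Pool.Agent.Helper59.EK
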