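import Pool.Agent.Helper59.EK.AbM

/-!
# EK-2. Divisible groups, first part

Compare EI/DvBasic.lean (there for a prime p).
-/

set_option autoImplicit false

namespace Pool.Agent.Helper59.EK

universe u v

open Pool.Agent.Helper98.Engel Pool.Agent.Helper59.EI

variable {G : Type u} [Group G] {m : ℕ}

theorem DvM.exists_pow {P : Subgroup G} (hP : Dv m P) {x : G} (hx : x ∈ P) (k : ℕ) :
    ∃ y ∈ P, y ^ m ^ k = x := by
  induction k with
  | zero => exact ⟨x, hx, by simp⟩
  | succ k ih =>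
    obtain ⟨y, hy, hyx⟩ := ih
    obtain ⟨z, hz, hzy⟩ := hP.div y hy
    refine ⟨z, hz, ?_⟩
    rw [pow_succ', pow_mul, hzy, hyx]

theorem DvM.lf (hm : 0 < m) {P : Subgroup G} (hP : Dv m P) : LF P :=
  abM_LF hm hP.comm hP.pel

theorem DvM.map {G' : Type v} [Group G'] (f : G →* G') {P : Subgroup G} (hP : Dv m P) :
    Dv m (P.map f) where
  comm := by
    rintro _ ⟨x, hx, rfl⟩ _ ⟨y, hy, rfl⟩
    rw [← map_mul, hP.comm x hx y hy, map_mul]
  pel := by
    rintro _ ⟨x, hx, rfl⟩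
    exact (hP.pel x hx).map f
  div := by
    rintro _ ⟨x, hx, rfl⟩
    obtain ⟨y, hy, rfl⟩ := hP.div x hx
    exact ⟨f y, ⟨y, hy, rfl⟩, (map_pow f y m).symm⟩

private theorem dvM_dvd_pow {d n j : ℕ} (hn : n ≠ 0) (hm : m ≠ 0) (h1 : d ∣ n)
    (h2 : d ∣ m ^ j) : d ∣ m ^ n := by
  have hd : d ≠ 0 := ne_zero_of_dvd_ne_zero hn h1
  rw [← Nat.factorization_le_iff_dvd hd (pow_ne_zero _ hm)]
  intro p
  rw [Nat.factorization_pow]
  by_cases hp : p.Prime ∧ p ∣ d
  · have h3 : p ∣ m := hp.1.dvd_of_dvd_pow (hp.2.trans h2)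
    have h4 : 1 ≤ m.factorization p := (hp.1.dvd_iff_one_le_factorization hm).1 h3
    have h5 : d.factorization p ≤ n.factorization p :=
      (Nat.factorization_le_iff_dvd hd hn).2 h1 p
    have h6 : n.factorization p < n := Nat.factorization_lt p hn
    change d.factorization p ≤ n * m.factorization p
    calc d.factorization p ≤ n * 1 := by omega
      _ ≤ n * m.factorization p := Nat.mul_le_mul_left n h4
  · have h3 : d.factorization p = 0 := by
      rw [Nat.factorization_eq_zero_iff]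
      by_cases h : p.Prime
      · exact Or.inr (Or.inl fun h' => hp ⟨h, h'⟩)
      · exact Or.inl h
    rw [h3]
    exact Nat.zero_le _

/-- a divisible group has no proper subgroup of finite index -/
theorem DvM.le_of_relIndex (hm : 0 < m) {P K : Subgroup G} (hP : Dv m P)
    (h : K.relIndex P ≠ 0) : P ≤ K := by
  have hn : (K.subgroupOf P).Normal := by
    refine ⟨fun n hn g => ?_⟩
    have h1 : g * n * g⁻¹ = n := by
      apply Subtype.ext
      have := hP.comm g g.2 n n.2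
      push_cast
      rw [this]
      group
    rw [h1]
    exact hn
  have hpow : ∀ x ∈ P, x ^ K.relIndex P ∈ K := by
    intro x hx
    have h1 := Subgroup.pow_index_mem (K.subgroupOf P) ⟨x, hx⟩
    rw [Subgroup.mem_subgroupOf] at h1
    exact h1
  intro x hx
  obtain ⟨y, hy, hyx⟩ := DvM.exists_pow hP hx (K.relIndex P)
  obtain ⟨j, hj⟩ := hP.pel y hy
  have h1 : y ^ (Nat.gcd (K.relIndex P) (m ^ j)) ∈ K := by
    rw [← zpow_natCast, Nat.gcd_eq_gcd_ab, zpow_add, zpow_mul, zpow_mul]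
    refine K.mul_mem (K.zpow_mem ?_ _) (K.zpow_mem ?_ _)
    · rw [zpow_natCast]
      exact hpow y hy
    · rw [zpow_natCast, hj]
      exact K.one_mem
  obtain ⟨c, hc⟩ := dvM_dvd_pow (m := m) h hm.ne' (Nat.gcd_dvd_left (K.relIndex P) (m ^ j))
    (Nat.gcd_dvd_right (K.relIndex P) (m ^ j))
  rw [← hyx, hc, pow_mul]
  exact K.pow_mem h1 c

theorem DvM.eq_bot_of_finite (hm : 0 < m) {P : Subgroup G} (hP : Dv m P)
    (h : (P : Set G).Finite) : P = ⊥ := by
  have : Finite P := h.to_subtype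
  have h1 : (⊥ : Subgroup G).relIndex P ≠ 0 := by
    rw [Subgroup.relIndex_bot_left]
    exact Nat.card_pos.ne'
  exact le_bot_iff.1 (DvM.le_of_relIndex hm hP h1)

private theorem dvM_relIndex_ne_zero {α : Type*} {P K : Subgroup G} {S : Set α} (hS : S.Finite)
    (f : G → α) (hf : ∀ x ∈ P, f x ∈ S) (hK : ∀ x ∈ P, ∀ y ∈ P, f x = f y → x⁻¹ * y ∈ K) :
    K.relIndex P ≠ 0 := by
  have : Finite S := hS.to_subtype
  have h1 : Finite (P ⧸ K.subgroupOf P) := by
    refine Finite.of_injective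
      (fun q : P ⧸ K.subgroupOf P => (⟨f (q.out : P), hf _ (q.out : P).2⟩ : S)) ?_
    intro q q' hqq
    have h2 : f (q.out : P) = f (q'.out : P) := congrArg Subtype.val hqq
    have h3 := hK _ (q.out : P).2 _ (q'.out : P).2 h2
    rw [← QuotientGroup.out_eq' q, ← QuotientGroup.out_eq' q', QuotientGroup.eq,
      Subgroup.mem_subgroupOf]
    exact h3
  exact Subgroup.index_ne_zero_of_finite

/-- a divisible group acts trivially on a finite set which it normalises -/
theorem DvM.comm_of_finite (hm : 0 < m) {P : Subgroup G} (hP : Dv m P) {S : Set G}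
    (hS : S.Finite) (hn : ∀ x ∈ P, ∀ s ∈ S, x * s * x⁻¹ ∈ S) :
    ∀ x ∈ P, ∀ s ∈ S, x * s = s * x := by
  intro x hx s hs
  have h1 : (Subgroup.centralizer ({s} : Set G)).relIndex P ≠ 0 := by
    refine dvM_relIndex_ne_zero hS (fun x => x * s * x⁻¹) (fun x hx => hn x hx s hs) ?_
    intro a _ b _ hab
    rw [Subgroup.mem_centralizer_singleton_iff]
    have h2 : a * s * a⁻¹ = b * s * b⁻¹ := hab
    have h3 : s = a⁻¹ * (b * s * b⁻¹) * a := by rw [← h2]; group
    calc a⁻¹ * b * s = (a⁻¹ * (b * s * b⁻¹) * a) * (a⁻¹ * b) := by group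
      _ = s * (a⁻¹ * b) := by rw [← h3]
  have h2 := DvM.le_of_relIndex hm hP h1 hx
  exact (Subgroup.mem_centralizer_singleton_iff.1 h2)

private theorem dvM_mem_sup_comm {P Q : Subgroup G} (hc : ∀ x ∈ P, ∀ y ∈ Q, x * y = y * x)
    {x : G} (hx : x ∈ P ⊔ Q) : ∃ a ∈ P, ∃ b ∈ Q, x = a * b := by
  let R : Subgroup G :=
    { carrier := {x | ∃ a ∈ P, ∃ b ∈ Q, x = a * b}
      one_mem' := ⟨1, P.one_mem, 1, Q.one_mem, by simp⟩
      mul_mem' := by
        rintro _ _ ⟨a, ha, b, hb, rfl⟩ ⟨a', ha', b', hb', rfl⟩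
        refine ⟨a * a', P.mul_mem ha ha', b * b', Q.mul_mem hb hb', ?_⟩
        calc a * b * (a' * b') = a * (b * a') * b' := by group
          _ = a * (a' * b) * b' := by rw [hc a' ha' b hb]
          _ = a * a' * (b * b') := by group
      inv_mem' := by
        rintro _ ⟨a, ha, b, hb, rfl⟩
        refine ⟨a⁻¹, P.inv_mem ha, b⁻¹, Q.inv_mem hb, ?_⟩
        rw [mul_inv_rev, hc a⁻¹ (P.inv_mem ha) b⁻¹ (Q.inv_mem hb)] }
  have h1 : P ⊔ Q ≤ R := sup_le (fun a ha => ⟨a, ha, 1, Q.one_mem, by simp⟩)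
    (fun b hb => ⟨1, P.one_mem, b, hb, by simp⟩)
  exact h1 hx

theorem DvM.sup {P Q : Subgroup G} (hP : Dv m P) (hQ : Dv m Q)
    (hc : ∀ x ∈ P, ∀ y ∈ Q, x * y = y * x) : Dv m (P ⊔ Q) where
  comm := by
    intro x hx y hy
    obtain ⟨a, ha, b, hb, rfl⟩ := dvM_mem_sup_comm hc hx
    obtain ⟨a', ha', b', hb', rfl⟩ := dvM_mem_sup_comm hc hy
    calc a * b * (a' * b') = a * (b * a') * b' := by group
      _ = a * (a' * b) * b' := by rw [hc a' ha' b hb]
      _ = (a * a') * (b * b') := by group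
      _ = (a' * a) * (b' * b) := by rw [hP.comm a ha a' ha', hQ.comm b hb b' hb']
      _ = a' * (a * b') * b := by group
      _ = a' * (b' * a) * b := by rw [hc a ha b' hb']
      _ = a' * b' * (a * b) := by group
  pel := by
    intro x hx
    obtain ⟨a, ha, b, hb, rfl⟩ := dvM_mem_sup_comm hc hx
    obtain ⟨i, hi⟩ := hP.pel a ha
    obtain ⟨j, hj⟩ := hQ.pel b hb
    refine ⟨i + j, ?_⟩
    have h1 : Commute a b := hc a ha b hb
    have h2 : a ^ m ^ (i + j) = 1 := by rw [pow_add, pow_mul, hi, one_pow]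
    have h3 : b ^ m ^ (i + j) = 1 := by rw [add_comm, pow_add, pow_mul, hj, one_pow]
    rw [h1.mul_pow, h2, h3, one_mul]
  div := by
    intro x hx
    obtain ⟨a, ha, b, hb, rfl⟩ := dvM_mem_sup_comm hc hx
    obtain ⟨a', ha', rfl⟩ := hP.div a ha
    obtain ⟨b', hb', rfl⟩ := hQ.div b hb
    have h1 : Commute a' b' := hc a' ha' b' hb'
    exact ⟨a' * b', Subgroup.mul_mem_sup ha' hb', h1.mul_pow m⟩

/-- union of a chain -/
theorem DvM.sSupD {F : Set (Subgroup G)} (hne : F.Nonempty) (hd : DirectedOn (· ≤ ·) F)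
    (h : ∀ H ∈ F, Dv m H) : Dv m (sSup F) where
  comm := by
    intro x hx y hy
    rw [Subgroup.mem_sSup_of_directedOn hne hd] at hx hy
    obtain ⟨H, hH, hxH⟩ := hx
    obtain ⟨K, hK, hyK⟩ := hy
    obtain ⟨L, hL, hHL, hKL⟩ := hd H hH K hK
    exact (h L hL).comm x (hHL hxH) y (hKL hyK)
  pel := by
    intro x hx
    rw [Subgroup.mem_sSup_of_directedOn hne hd] at hx
    obtain ⟨H, hH, hxH⟩ := hx
    exact (h H hH).pel x hxH
  div := by
    intro x hx
    rw [Subgroup.mem_sSup_of_directedOn hne hd] at hx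
    obtain ⟨H, hH, hxH⟩ := hx
    obtain ⟨y, hy, hyx⟩ := (h H hH).div x hxH
    exact ⟨y, (le_sSup hH) hy, hyx⟩

/-- Two divisible groups, one contained in the other, with the same elements of order dividing
`m` are equal. -/
private theorem dvM_eq_of_omega {P Q : Subgroup G} (hP : Dv m P) (hQ : Dv m Q) (hPQ : P ≤ Q)
    (h : ∀ x ∈ Q, x ^ m = 1 → x ∈ P) : P = Q := by
  refine le_antisymm hPQ ?_
  have key : ∀ k : ℕ, ∀ x ∈ Q, x ^ m ^ k = 1 → x ∈ P := by
    intro k
    induction k with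
    | zero =>
      intro x _ hx
      rw [pow_zero, pow_one] at hx
      rw [hx]
      exact P.one_mem
    | succ k ih =>
      intro x hx hxk
      have h1 : x ^ m ∈ P := by
        refine ih (x ^ m) (Q.pow_mem hx m) ?_
        rwa [← pow_mul, ← pow_succ']
      obtain ⟨y, hy, hyx⟩ := hP.div _ h1
      have h2 : (x * y⁻¹) ^ m = 1 := by
        rw [(show Commute x y⁻¹ from hQ.comm x hx _ (Q.inv_mem (hPQ hy))).mul_pow, inv_pow, hyx,
          mul_inv_cancel]
      have h3 := P.mul_mem (h _ (Q.mul_mem hx (Q.inv_mem (hPQ hy))) h2) hy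
      rwa [inv_mul_cancel_right] at h3
  intro x hx
  obtain ⟨k, hk⟩ := hQ.pel x hx
  exact key k x hx hk

/-- In a thin group every nonempty directed family of divisible subgroups has a largest member. -/
theorem DvM.acc (hm : 0 < m) (ht : Thin m G) {F : Set (Subgroup G)} (hne : F.Nonempty)
    (hd : DirectedOn (· ≤ ·) F) (h : ∀ H ∈ F, Dv m H) : sSup F ∈ F := by
  have hU : Dv m (sSup F) := DvM.sSupD hne hd h
  have hfin := abM_fin hm ht hU.comm 1
  rw [pow_one] at hfin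
  have key : ∀ t : Set G, t.Finite → t ⊆ (sSup F : Subgroup G) → ∃ P ∈ F, t ⊆ (P : Set G) := by
    intro t ht
    induction t, ht using Set.Finite.induction_on with
    | empty =>
      intro _
      obtain ⟨P, hP⟩ := hne
      exact ⟨P, hP, Set.empty_subset _⟩
    | @insert a s _ _ ih =>
      intro hs
      obtain ⟨P, hP, hsP⟩ := ih ((Set.subset_insert a s).trans hs)
      have ha := hs (Set.mem_insert a s)
      rw [SetLike.mem_coe, Subgroup.mem_sSup_of_directedOn hne hd] at ha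
      obtain ⟨Q, hQ, haQ⟩ := ha
      obtain ⟨L, hL, hPL, hQL⟩ := hd P hP Q hQ
      exact ⟨L, hL, Set.insert_subset (hQL haQ) (hsP.trans hPL)⟩
  obtain ⟨P, hP, hsub⟩ := key _ hfin (fun x hx => hx.1)
  have h1 : P = sSup F := dvM_eq_of_omega (h P hP) hU (le_sSup hP) fun x hx hxp => hsub ⟨hx, hxp⟩
  rw [← h1]
  exact hP

/-- maximal divisible subgroups above `P` -/
theorem DvM.exists_max {P : Subgroup G} (hP : Dv m P) :
    ∃ P' : Subgroup G, P ≤ P' ∧ Dv m P' ∧ ∀ Q, Dv m Q → P' ≤ Q → Q = P' := by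
  obtain ⟨M, hPM, hM⟩ := zorn_le_nonempty₀ {Q : Subgroup G | Dv m Q} (by
    intro c hc hch y hy
    have hd : DirectedOn (· ≤ ·) c := hch.directedOn
    exact ⟨sSup c, DvM.sSupD ⟨y, hy⟩ hd hc, fun z hz => le_sSup hz⟩) P hP
  exact ⟨M, hPM, hM.prop, fun Q hQ hMQ => le_antisymm (hM.le_of_ge hQ hMQ) hMQ⟩

end Pool.Agent.Helper59.EK
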