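import Pool.Agent.Helper59.EK.DvM

/-!
# EK-3. Divisible groups, second part
-/

set_option autoImplicit false

namespace Pool.Agent.Helper59.EK

universe u v

open Pool.Agent.Helper98.Engel Pool.Agent.Helper59.EI

variable {G : Type u} [Group G] {m : ℕ}

private theorem DvM2_relIndex {α : Type*} {P K : Subgroup G} {S : Set α} (hS : S.Finite)
    (f : G → α) (hf : ∀ x ∈ P, f x ∈ S) (hK : ∀ x ∈ P, ∀ y ∈ P, f x = f y → x⁻¹ * y ∈ K) :
    K.relIndex P ≠ 0 := by
  have : Finite S := hS.to_subtype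
  have h1 : Finite (P ⧸ K.subgroupOf P) := by
    refine Finite.of_injective
      (fun q : P ⧸ K.subgroupOf P => (⟨f (q.out : P), hf _ (q.out : P).2⟩ : S)) ?_
    intro q q' hqq
    have h2 : f (q.out : P) = f (q'.out : P) := congrArg Subtype.val hqq
    have h3 := hK _ (q.out : P).2 _ (q'.out : P).2 h2
    rw [← QuotientGroup.out_eq' q, ← QuotientGroup.out_eq' q', QuotientGroup.eq,
      Subgroup.mem_subgroupOf]
    exact h3
  exact Subgroup.index_ne_zero_of_finite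

/-- A divisible group normalising a divisible group centralises it. (`Q` normalises the finite set
of the elements `y` of `P` with `y ^ m ^ k = 1`; use `DvM.comm_of_finite`, `abM_fin`.) -/
theorem DvM.comm_dv (hm : 0 < m) (ht : Thin m G) {P Q : Subgroup G} (hP : Dv m P) (hQ : Dv m Q)
    (h : Q ≤ Nr P) : ∀ x ∈ Q, ∀ y ∈ P, x * y = y * x := by
  intro x hx y hy
  obtain ⟨k, hk⟩ := hP.pel y hy
  have hS := abM_fin hm ht hP.comm k
  refine DvM.comm_of_finite hm hQ hS ?_ x hx y ⟨hy, hk⟩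
  rintro z hz s ⟨hs, hs1⟩
  refine ⟨(mem_Nr.1 (h hz) s).1 hs, ?_⟩
  rw [conj_pow, hs1]
  group

/-- the stabiliser of the coset `x D` -/
private def DvM2_stab (D : Subgroup G) (x : G) : Subgroup G where
  carrier := {y | y ∈ Nr D ∧ x⁻¹ * (y⁻¹ * x * y) ∈ D}
  one_mem' := ⟨one_mem _, by
    have : x⁻¹ * (1⁻¹ * x * 1) = 1 := by group
    rw [this]
    exact D.one_mem⟩
  mul_mem' := by
    rintro y z ⟨hy, hy1⟩ ⟨hz, hz1⟩
    refine ⟨mul_mem hy hz, ?_⟩
    have h1 : x⁻¹ * ((y * z)⁻¹ * x * (y * z)) =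
        (x⁻¹ * (z⁻¹ * x * z)) * (z⁻¹ * (x⁻¹ * (y⁻¹ * x * y)) * z) := by group
    rw [h1]
    exact D.mul_mem hz1 ((mem_Nr'.1 hz _).1 hy1)
  inv_mem' := by
    rintro y ⟨hy, hy1⟩
    refine ⟨inv_mem hy, ?_⟩
    have h1 : x⁻¹ * (y⁻¹⁻¹ * x * y⁻¹) = y * (x⁻¹ * (y⁻¹ * x * y))⁻¹ * y⁻¹ := by group
    rw [h1]
    exact (mem_Nr.1 hy _).1 (D.inv_mem hy1)

/-- A divisible group acting on `M` and `D`, where `M / D` is finite, acts trivially on `M / D`. -/
theorem DvM.comm_mod (hm : 0 < m) {Q M D : Subgroup G} (hQ : Dv m Q) (hM : Q ≤ Nr M)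
    (hD : Q ≤ Nr D) (hDM : D ≤ M) (hMD : M ≤ Nr D) (hi : D.relIndex M ≠ 0) :
    ∀ y ∈ Q, ∀ x ∈ M, x⁻¹ * (y⁻¹ * x * y) ∈ D := by
  have _ := hDM
  have _ := hMD
  intro y hy x hx
  haveI : (D.subgroupOf M).FiniteIndex := ⟨hi⟩
  haveI : Finite (M ⧸ D.subgroupOf M) := inferInstance
  classical
  let f : G → M ⧸ D.subgroupOf M := fun a =>
    if h : a * x * a⁻¹ ∈ M then QuotientGroup.mk ⟨a * x * a⁻¹, h⟩ else QuotientGroup.mk 1
  have hK : (DvM2_stab D x).relIndex Q ≠ 0 := by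
    refine DvM2_relIndex (Set.finite_univ) f (fun _ _ => Set.mem_univ _) ?_
    intro a ha b hb hab
    have ha1 : a * x * a⁻¹ ∈ M := (mem_Nr.1 (hM ha) x).1 hx
    have hb1 : b * x * b⁻¹ ∈ M := (mem_Nr.1 (hM hb) x).1 hx
    simp only [f, dif_pos ha1, dif_pos hb1] at hab
    rw [QuotientGroup.eq, Subgroup.mem_subgroupOf] at hab
    have h2 : (a * x * a⁻¹)⁻¹ * (b * x * b⁻¹) ∈ D := hab
    refine ⟨mul_mem (inv_mem (hD ha)) (hD hb), ?_⟩
    have h3 := (mem_Nr'.1 (hD hb) _).1 (D.inv_mem h2)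
    have h4 : x⁻¹ * ((a⁻¹ * b)⁻¹ * x * (a⁻¹ * b)) =
        b⁻¹ * ((a * x * a⁻¹)⁻¹ * (b * x * b⁻¹))⁻¹ * b := by group
    rw [h4]
    exact h3
  exact (DvM.le_of_relIndex hm hQ hK hy).2

/-- An element `s` normalising the divisible group `P` and with finite centraliser in `P`: all
elements of the coset `s P` are conjugate under `P`. (The endomorphism `φ y = s⁻¹ y⁻¹ s y` of `P` has
finite kernel; by the descending chain condition it is surjective.) -/
theorem DvM.surj (hm : 0 < m) (ht : Thin m G) {P : Subgroup G} (hP : Dv m P) {s : G}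
    (hs : s ∈ Nr P) (hf : {y : G | y ∈ P ∧ y * s = s * y}.Finite) :
    ∀ x ∈ P, ∃ y ∈ P, y⁻¹ * s * y = s * x := by
  have hcj : ∀ y ∈ P, s⁻¹ * y⁻¹ * s ∈ P := fun y hy => (mem_Nr'.1 hs _).1 (P.inv_mem hy)
  let φ : P →* P :=
    { toFun := fun y => ⟨s⁻¹ * (y : G)⁻¹ * s * y, P.mul_mem (hcj y y.2) y.2⟩
      map_one' := by
        apply Subtype.ext
        simp
      map_mul' := by
        intro y z
        apply Subtype.ext
        change s⁻¹ * ((y : G) * z)⁻¹ * s * (y * z) =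
          (s⁻¹ * (y : G)⁻¹ * s * y) * (s⁻¹ * (z : G)⁻¹ * s * z)
        have e1 := hP.comm _ (hcj z z.2) _ (hcj y y.2)
        have e2 := hP.comm _ (hcj z z.2) _ y.2
        calc s⁻¹ * ((y : G) * z)⁻¹ * s * (y * z)
            = ((s⁻¹ * (z : G)⁻¹ * s) * (s⁻¹ * (y : G)⁻¹ * s)) * y * z := by group
          _ = ((s⁻¹ * (y : G)⁻¹ * s) * (s⁻¹ * (z : G)⁻¹ * s)) * y * z := by rw [e1]
          _ = (s⁻¹ * (y : G)⁻¹ * s) * ((s⁻¹ * (z : G)⁻¹ * s) * y) * z := by group
          _ = (s⁻¹ * (y : G)⁻¹ * s) * (y * (s⁻¹ * (z : G)⁻¹ * s)) * z := by rw [e2]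
          _ = (s⁻¹ * (y : G)⁻¹ * s * y) * (s⁻¹ * (z : G)⁻¹ * s * z) := by group }
  have hφ : ∀ y : P, ((φ y : P) : G) = s⁻¹ * (y : G)⁻¹ * s * y := fun _ => rfl
  -- finite kernel
  have hker : {y : P | φ y = 1}.Finite := by
    refine Set.Finite.of_finite_image (f := fun y : P => (y : G)) (hf.subset ?_)
      (Subtype.val_injective.injOn)
    rintro _ ⟨y, hy, rfl⟩
    refine ⟨y.2, ?_⟩
    have h1 : s⁻¹ * (y : G)⁻¹ * s * y = 1 := by rw [← hφ]; exact congrArg Subtype.val hy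
    have h2 : (y : G) * s * (s⁻¹ * (y : G)⁻¹ * s * y) = s * y := by group
    rw [h1, mul_one] at h2
    exact h2
  have hfib : ∀ z : P, {y : P | φ y = z}.Finite := by
    intro z
    rcases Set.eq_empty_or_nonempty {y : P | φ y = z} with he | ⟨y0, hy0⟩
    · rw [he]; exact Set.finite_empty
    · refine (hker.image (fun w => y0 * w)).subset ?_
      intro y hy
      refine ⟨y0⁻¹ * y, ?_, by simp⟩
      change φ (y0⁻¹ * y) = 1
      have e1 : φ y0 = z := hy0
      have e2 : φ y = z := hy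
      rw [map_mul, map_inv, e1, e2, inv_mul_cancel]
  have hkn : ∀ n : ℕ, {y : P | φ^[n] y = 1}.Finite := by
    intro n
    induction n with
    | zero =>
      refine (Set.finite_singleton (1 : P)).subset ?_
      intro y hy
      exact hy
    | succ n ih =>
      have h1 : {y : P | φ^[n + 1] y = 1} = φ ⁻¹' {y : P | φ^[n] y = 1} := by
        ext y
        simp only [Function.iterate_succ, Function.comp_apply, Set.mem_preimage,
          Set.mem_ofPred_eq]
      rw [h1]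
      exact Set.Finite.preimage' ih fun b _ => hfib b
  -- the descending chain of the images
  have hmul : ∀ (n : ℕ) (x y : P), φ^[n] (x * y) = φ^[n] x * φ^[n] y := by
    intro n
    induction n with
    | zero => intro x y; rfl
    | succ n ih =>
      intro x y
      simp only [Function.iterate_succ, Function.comp_apply, map_mul, ih]
  have hinv : ∀ (n : ℕ) (x : P), φ^[n] (x⁻¹) = (φ^[n] x)⁻¹ := by
    intro n
    induction n with
    | zero => intro x; rfl
    | succ n ih =>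
      intro x
      simp only [Function.iterate_succ, Function.comp_apply, map_inv, ih]
  have hone : ∀ n : ℕ, φ^[n] (1 : P) = 1 := by
    intro n
    induction n with
    | zero => rfl
    | succ n ih => simp only [Function.iterate_succ, Function.comp_apply, map_one, ih]
  let Z : ℕ → Subgroup G := fun n =>
    { carrier := {x | ∃ y : P, ((φ^[n] y : P) : G) = x}
      one_mem' := ⟨1, by rw [hone]; rfl⟩
      mul_mem' := by
        rintro _ _ ⟨y, rfl⟩ ⟨z, rfl⟩
        exact ⟨y * z, by rw [hmul]; rfl⟩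
      inv_mem' := by
        rintro _ ⟨y, rfl⟩
        exact ⟨y⁻¹, by rw [hinv]; rfl⟩ }
  have hZ : Antitone Z := by
    refine antitone_nat_of_succ_le fun n => ?_
    rintro _ ⟨y, rfl⟩
    exact ⟨φ y, by rw [Function.iterate_succ, Function.comp_apply]⟩
  have hZP : ∀ n, Z n ≤ P := by
    rintro n _ ⟨y, rfl⟩
    exact (φ^[n] y).2
  obtain ⟨k, hk⟩ := abM_dcc hm ht hP.comm hP.pel Z hZ (hZP 0)
  -- finite index of `Z k`
  have hdec : ∀ x ∈ P, ∃ w ∈ {y : G | ∃ z : P, φ^[k] z = 1 ∧ (z : G) = y}, w⁻¹ * x ∈ Z k := by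
    intro x hx
    have h1 : ((φ^[k] ⟨x, hx⟩ : P) : G) ∈ Z (k + k) := by
      rw [hk (k + k) (by omega)]
      exact ⟨⟨x, hx⟩, rfl⟩
    obtain ⟨z, hz⟩ := h1
    have h2 : φ^[k] (φ^[k] z) = φ^[k] ⟨x, hx⟩ := by
      apply Subtype.ext
      rw [← hz, Function.iterate_add_apply]
    refine ⟨_, ⟨⟨x, hx⟩ * (φ^[k] z)⁻¹, ?_, rfl⟩, ?_⟩
    · rw [hmul, hinv, h2, mul_inv_cancel]
    · refine ⟨z, ?_⟩
      change _ = (x * ((φ^[k] z : P) : G)⁻¹)⁻¹ * x
      group
  have hfinW : {y : G | ∃ z : P, φ^[k] z = 1 ∧ (z : G) = y}.Finite :=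
    ((hkn k).image (fun z : P => (z : G))).subset (by
      rintro _ ⟨z, hz, rfl⟩
      exact ⟨z, hz, rfl⟩)
  have hPZ : P ≤ Z k := by
    apply DvM.le_of_relIndex hm hP
    classical
    refine DvM2_relIndex hfinW (fun x => if hx : x ∈ P then (hdec x hx).choose else 1) ?_ ?_
    · intro x hx
      simp only [dif_pos hx]
      exact (hdec x hx).choose_spec.1
    · intro x hx y hy hxy
      simp only [dif_pos hx, dif_pos hy] at hxy
      have e1 := (hdec x hx).choose_spec.2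
      have e2 := (hdec y hy).choose_spec.2
      rw [← hxy] at e2
      have e3 := (Z k).mul_mem ((Z k).inv_mem e1) e2
      have e4 : ((hdec x hx).choose⁻¹ * x)⁻¹ * ((hdec x hx).choose⁻¹ * y) = x⁻¹ * y := by group
      rwa [e4] at e3
  -- surjectivity
  intro x hx
  have h1 : x ∈ Z (k + 1) := by
    rw [hk (k + 1) (by omega)]
    exact hPZ hx
  obtain ⟨z, hz⟩ := h1
  rw [Function.iterate_succ_apply'] at hz
  refine ⟨φ^[k] z, (φ^[k] z).2, ?_⟩
  rw [hφ] at hz
  rw [← hz]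
  group

end Pool.Agent.Helper59.EK
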