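import Pool.Agent.Helper59.EK.StepE

/-!
# EK-23. A finite maximal member contains T
-/

set_option autoImplicit false

namespace Pool.Agent.Helper59.EK

universe u v

open Pool.Agent.Helper98.Engel Pool.Agent.Helper59.EI

variable {G : Type u} [Group G] {m : ℕ}

variable {T : Set G}

/-- maximisation argument: a class of maximal members different from `M`, closed under Baer's
step, with finite intersections of bounded order is empty -/
theorem FinM_aux (h : CoreE G m T) {M : Subgroup G} (hM : IsM T M) (P : Subgroup G → Prop)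
    (hP : ∀ M' M'' : Subgroup G, IsM T M' → M' ≠ M → P M' → IsM T M'' → M'' ≠ M →
      II T M M' ≤ II T M M'' → P M'')
    (hfin : ∀ M', IsM T M' → M' ≠ M → P M' → ((II T M M' : Subgroup G) : Set G).Finite)
    (N : ℕ) (hN : ∀ M', IsM T M' → M' ≠ M → P M' →
      ((II T M M' : Subgroup G) : Set G).ncard ≤ N)
    {M₁ : Subgroup G} (h1 : IsM T M₁) (h2 : M₁ ≠ M) (h3 : P M₁) : False := by
  have key : ∀ k : ℕ, ∃ M' : Subgroup G, IsM T M' ∧ M' ≠ M ∧ P M' ∧
      k ≤ ((II T M M' : Subgroup G) : Set G).ncard := by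
    intro k
    induction k with
    | zero => exact ⟨M₁, h1, h2, h3, Nat.zero_le _⟩
    | succ k ih =>
      obtain ⟨M', hM', hne, hPM, hk⟩ := ih
      obtain ⟨M'', hM'', hne', hle, hneq⟩ := h.step hM hM' (Ne.symm hne)
      have hPM'' := hP M' M'' hM' hne hPM hM'' hne' hle
      refine ⟨M'', hM'', hne', hPM'', ?_⟩
      have hss : ((II T M M' : Subgroup G) : Set G) ⊂ ((II T M M'' : Subgroup G) : Set G) := by
        refine ⟨hle, ?_⟩
        intro hge
        exact hneq (le_antisymm hle hge)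
      have hlt := Set.ncard_lt_ncard hss (hfin M'' hM'' hne' hPM'')
      omega
  obtain ⟨M', hM', hne, hPM, hk⟩ := key (N + 1)
  have := hN M' hM' hne hPM
  omega

/-- Suppose `t ∈ T`, `t ∉ M`; a maximal member containing `⟨t⟩` is different from `M`. Choose
`M' ≠ M` with `II T M M'` of maximal order (`II T M M' ≤ M` finite) and apply `CoreE.step`. -/
theorem CoreE.fin_mem (h : CoreE G m T) {M : Subgroup G} (hM : IsM T M)
    (hf : (M : Set G).Finite) : ∀ t ∈ T, t ∈ M := by
  intro t ht
  by_contra htM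
  have htg : TG T (Subgroup.closure ({t} : Set G)) := by
    apply TG_closure
    intro x hx
    rw [Set.mem_singleton_iff.1 hx]
    exact ht
  have hlf : LF (Subgroup.closure ({t} : Set G)) := by
    apply LF_of_finite
    rw [← Subgroup.zpowers_eq_closure]
    have hfo : IsOfFinOrder t := isOfFinOrder_iff_pow_eq_one.2 ⟨m, h.pos, h.pow t ht⟩
    exact hfo.finite_zpowers
  obtain ⟨M₁, hM₁, hle⟩ := h.toET.exists_isM htg hlf
  have htM₁ : t ∈ M₁ := hle (Subgroup.subset_closure rfl)
  have hne : M₁ ≠ M := by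
    rintro rfl
    exact htM htM₁
  refine FinM_aux h hM (fun _ => True) (fun _ _ _ _ _ _ _ _ => trivial) ?_
    ((M : Set G).ncard) ?_ hM₁ hne trivial
  · intro M' _ _ _
    exact hf.subset (II_le_left T M M')
  · intro M' _ _ _
    exact Set.ncard_le_ncard (II_le_left T M M') hf

/-- if the orders of the `II T M M'` with `a ∈ M'` are bounded then `M` contains `T`; `a ∈ T ∩ M`.
(If `f ∈ T`, `f ∉ M` then `f ∉ Nr M`; `engel_out` with `x = a`, `H = ⊤` gives `g` with
`a ∈ cj M g⁻¹ ≠ M`. Choose `M' ≠ M` with `a ∈ M'` and `II T M M'` finite of maximal order, apply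
`CoreE.step`.) -/
theorem CoreE.mem_of_bound (h : CoreE G m T) {M : Subgroup G} (hM : IsM T M) {a : G}
    (ha : a ∈ T) (haM : a ∈ M) (hfin : ∀ M', IsM T M' → M' ≠ M →
      ((II T M M' : Subgroup G) : Set G).Finite) (N : ℕ)
    (hN : ∀ M', IsM T M' → M' ≠ M → a ∈ M' → ((II T M M' : Subgroup G) : Set G).ncard ≤ N) :
    ∀ t ∈ T, t ∈ M := by
  intro f hf
  by_contra hfM
  have hfN : f ∉ Nr M := fun hn => hfM (h.toET.mem_of_nr hM hf hn)
  obtain ⟨g, -, hg, hga⟩ := h.toET.engel_out hM ha haM hfN (H := ⊤) (Subgroup.mem_top _)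
    (Subgroup.mem_top _)
  have h1 : IsM T (cj M g⁻¹) := h.toET.cj_isM hM g⁻¹
  have h2 : cj M g⁻¹ ≠ M := by
    intro heq
    rw [cj_eq_iff] at heq
    exact hg (by simpa using (Nr M).inv_mem heq)
  have h3 : a ∈ cj M g⁻¹ := by
    rw [mem_cj, inv_inv]
    exact hga
  refine FinM_aux h hM (fun M' => a ∈ M') ?_ ?_ N ?_ h1 h2 h3
  · intro M' M'' _ _ haM' _ _ hle
    exact II_le_right T M M'' (hle (mem_II ha haM haM'))
  · intro M' hM' hne _
    exact hfin M' hM' hne
  · intro M' hM' hne haM'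
    exact hN M' hM' hne haM'

end Pool.Agent.Helper59.EK
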