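import Pool.Agent.Helper59.EK.DietzE

/-!
# EK-12. Lemma L1

Compare EI/L1.lean.
-/

set_option autoImplicit false

namespace Pool.Agent.Helper59.EK

universe u v

open Pool.Agent.Helper98.Engel Pool.Agent.Helper59.EI

variable {G : Type u} [Group G] {m : ℕ}

private theorem L1E_conj_mem {A : Subgroup G} {t a : G} (hn : t ∈ Nr A)
    (ha : a ∈ A) : t * a * t⁻¹ ∈ A := (mem_Nr.1 hn a).1 ha

private theorem L1E_conj_mem' {A : Subgroup G} {t a : G} (hn : t ∈ Nr A)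
    (ha : a ∈ A) : t⁻¹ * a * t ∈ A := by
  rw [mem_Nr.1 hn]
  have h1 : t * (t⁻¹ * a * t) * t⁻¹ = a := by group
  rwa [h1]

/-- the inverse action -/
private theorem SclE_inv {T : Set G} {A : Subgroup G} {t : G} (hn : t ∈ Nr A)
    {s : G} (hs : s ∈ SclE T A t) {a : G} (ha : a ∈ A) : s * a * s⁻¹ = t * a * t⁻¹ := by
  have h1 := hs.2 _ (L1E_conj_mem hn ha)
  have h2 : t⁻¹ * (t * a * t⁻¹) * t = a := by group
  rw [h2] at h1
  calc s * a * s⁻¹ = s * (s⁻¹ * (t * a * t⁻¹) * s) * s⁻¹ := by rw [h1]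
    _ = t * a * t⁻¹ := by group

/-- `SclE T A t` is closed under conjugation by its elements. -/
theorem SclE_conj {T : Set G} (h : ET m T) {A : Subgroup G} {t : G} (ht : t ∈ T) (hn : t ∈ Nr A)
    {s s' : G} (hs : s ∈ SclE T A t) (hs' : s' ∈ SclE T A t) :
    s'⁻¹ * s * s' ∈ SclE T A t ∧ s' * s * s'⁻¹ ∈ SclE T A t := by
  refine ⟨⟨h.conj s hs.1 s', fun a ha => ?_⟩, ⟨?_, fun a ha => ?_⟩⟩
  · have h1 := SclE_inv hn hs' ha
    calc (s'⁻¹ * s * s')⁻¹ * a * (s'⁻¹ * s * s') = s'⁻¹ * (s⁻¹ * (s' * a * s'⁻¹) * s) * s' := by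
          group
      _ = s'⁻¹ * (s⁻¹ * (t * a * t⁻¹) * s) * s' := by rw [h1]
      _ = s'⁻¹ * (t⁻¹ * (t * a * t⁻¹) * t) * s' := by rw [hs.2 _ (L1E_conj_mem hn ha)]
      _ = s'⁻¹ * a * s' := by group
      _ = t⁻¹ * a * t := hs'.2 a ha
  · have h1 := h.conj s hs.1 s'⁻¹
    rwa [inv_inv] at h1
  · have h1 := L1E_conj_mem' hn ha
    have h2 := L1E_conj_mem' hn h1
    calc (s' * s * s'⁻¹)⁻¹ * a * (s' * s * s'⁻¹) = s' * (s⁻¹ * (s'⁻¹ * a * s') * s) * s'⁻¹ := by
          group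
      _ = s' * (s⁻¹ * (t⁻¹ * a * t) * s) * s'⁻¹ := by rw [hs'.2 a ha]
      _ = s' * (t⁻¹ * (t⁻¹ * a * t) * t) * s'⁻¹ := by rw [hs.2 _ h1]
      _ = t * (t⁻¹ * (t⁻¹ * a * t) * t) * t⁻¹ := SclE_inv hn hs' h2
      _ = t⁻¹ * a * t := by group

theorem SclE_nr {T : Set G} {A : Subgroup G} {t : G} (hn : t ∈ Nr A) {s : G}
    (hs : s ∈ SclE T A t) : s ∈ Nr A := by
  rw [mem_Nr]
  intro a
  refine ⟨fun ha => ?_, fun ha => ?_⟩
  · rw [SclE_inv hn hs ha]
    exact L1E_conj_mem hn ha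
  · have h1 := hs.2 _ ha
    have h2 : s⁻¹ * (s * a * s⁻¹) * s = a := by group
    rw [h2] at h1
    rw [h1]
    exact L1E_conj_mem' hn ha

/-- the subgroup `K_t` -/
private def L1EK (T : Set G) (B : Subgroup G) (t : G) : Subgroup G :=
  Subgroup.closure {x | ∃ s ∈ SclE T B t, x = s * t⁻¹}

private theorem L1E_self {T : Set G} {B : Subgroup G} {t : G} (ht : t ∈ T) : t ∈ SclE T B t :=
  ⟨ht, fun _ _ => rfl⟩

private theorem L1EK_le {T : Set G} {B : Subgroup G} {t : G} (ht : t ∈ T) :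
    L1EK T B t ≤ Subgroup.closure (SclE T B t) := by
  unfold L1EK
  rw [Subgroup.closure_le]
  rintro _ ⟨s, hs, rfl⟩
  exact Subgroup.mul_mem _ (Subgroup.subset_closure hs)
    (Subgroup.inv_mem _ (Subgroup.subset_closure (L1E_self ht)))

private theorem L1EK_cen {T : Set G} {B : Subgroup G} {t : G} :
    L1EK T B t ≤ Subgroup.centralizer (B : Set G) := by
  unfold L1EK
  rw [Subgroup.closure_le]
  rintro _ ⟨s, hs, rfl⟩
  rw [SetLike.mem_coe, Subgroup.mem_centralizer_iff]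
  intro b hb
  have h1 := hs.2 b hb
  calc b * (s * t⁻¹) = s * (s⁻¹ * b * s) * t⁻¹ := by group
    _ = s * (t⁻¹ * b * t) * t⁻¹ := by rw [h1]
    _ = s * t⁻¹ * b := by group

/-- conjugating a class -/
private theorem L1E_cls {T : Set G} (h : ET m T) {B : Subgroup G} {t s u : G}
    (hu : u ∈ SclE T B t) (hn : s ∈ Nr B) : s⁻¹ * u * s ∈ SclE T B (s⁻¹ * t * s) := by
  refine ⟨h.conj u hu.1 s, fun b hb => ?_⟩
  have h1 := L1E_conj_mem hn hb
  calc (s⁻¹ * u * s)⁻¹ * b * (s⁻¹ * u * s) = s⁻¹ * (u⁻¹ * (s * b * s⁻¹) * u) * s := by group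
    _ = s⁻¹ * (t⁻¹ * (s * b * s⁻¹) * t) * s := by rw [hu.2 _ h1]
    _ = (s⁻¹ * t * s)⁻¹ * b * (s⁻¹ * t * s) := by group

private theorem L1E_cls_cen {T : Set G} (h : ET m T) {B : Subgroup G} {t c u : G}
    (hn : t ∈ Nr B) (hu : u ∈ SclE T B t)
    (hc : c ∈ Subgroup.centralizer (B : Set G)) : c⁻¹ * u * c ∈ SclE T B t := by
  refine ⟨h.conj u hu.1 c, fun b hb => ?_⟩
  rw [Subgroup.mem_centralizer_iff] at hc
  have h1 : t⁻¹ * b * t ∈ B := L1E_conj_mem' hn hb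
  have h2 := hc b hb
  have h3 := hc _ h1
  have h4 : c * b * c⁻¹ = b := by rw [← h2]; group
  have h5 : c⁻¹ * (t⁻¹ * b * t) * c = t⁻¹ * b * t := by
    rw [mul_assoc, h3]; group
  calc (c⁻¹ * u * c)⁻¹ * b * (c⁻¹ * u * c) = c⁻¹ * (u⁻¹ * (c * b * c⁻¹) * u) * c := by group
    _ = c⁻¹ * (t⁻¹ * b * t) * c := by rw [h4, hu.2 b hb]
    _ = t⁻¹ * b * t := h5

private theorem L1E_nr_of {K : Subgroup G} {g : G} (h1 : ∀ x ∈ K, g * x * g⁻¹ ∈ K)
    (h2 : ∀ x ∈ K, g⁻¹ * x * g ∈ K) : g ∈ Nr K := by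
  rw [mem_Nr]
  intro x
  refine ⟨h1 x, fun hx => ?_⟩
  have h3 := h2 _ hx
  have h4 : g⁻¹ * (g * x * g⁻¹) * g = x := by group
  rwa [h4] at h3

private theorem L1E_closure_conj {S : Set G} {K : Subgroup G} {g : G}
    (h1 : ∀ x ∈ S, g * x * g⁻¹ ∈ K) : ∀ x ∈ Subgroup.closure S, g * x * g⁻¹ ∈ K := by
  have h2 : Subgroup.closure S ≤ K.comap (MulAut.conj g).toMonoidHom := by
    rw [Subgroup.closure_le]
    intro x hx
    exact h1 x hx
  intro x hx
  exact h2 hx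

private theorem L1EK_conj_cen {T : Set G} (h : ET m T) {B : Subgroup G} {t c : G}
    (ht : t ∈ T) (hn : t ∈ Nr B) (hc : c ∈ Subgroup.centralizer (B : Set G)) :
    ∀ x ∈ L1EK T B t, c * x * c⁻¹ ∈ L1EK T B t := by
  apply L1E_closure_conj
  rintro _ ⟨s, hs, rfl⟩
  have hc' : c⁻¹ ∈ Subgroup.centralizer (B : Set G) := Subgroup.inv_mem _ hc
  have h1 := L1E_cls_cen h hn hs hc'
  have h2 := L1E_cls_cen h hn (L1E_self ht) hc'
  rw [inv_inv] at h1 h2
  have h3 : c * s * c⁻¹ * t⁻¹ ∈ L1EK T B t := Subgroup.subset_closure ⟨_, h1, rfl⟩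
  have h4 : c * t * c⁻¹ * t⁻¹ ∈ L1EK T B t := Subgroup.subset_closure ⟨_, h2, rfl⟩
  have h5 := Subgroup.mul_mem _ h3 (Subgroup.inv_mem _ h4)
  have h6 : c * s * c⁻¹ * t⁻¹ * (c * t * c⁻¹ * t⁻¹)⁻¹ = c * (s * t⁻¹) * c⁻¹ := by group
  rwa [h6] at h5

private theorem L1EK_nr {T : Set G} (h : ET m T) {B : Subgroup G} {t : G}
    (ht : t ∈ T) (hn : t ∈ Nr B) : Subgroup.centralizer (B : Set G) ≤ Nr (L1EK T B t) := by
  intro c hc
  refine L1E_nr_of (L1EK_conj_cen h ht hn hc) ?_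
  have h1 := L1EK_conj_cen h ht hn (Subgroup.inv_mem _ hc)
  simpa only [inv_inv] using h1

/-- finite suprema -/
private theorem L1E_sup {C : Subgroup G} {ι : Type*} (s : Finset ι) (K : ι → Subgroup G)
    (h1 : ∀ i ∈ s, LF (K i)) (h2 : ∀ i ∈ s, K i ≤ C) (h3 : ∀ i ∈ s, C ≤ Nr (K i)) :
    LF (s.sup K) ∧ s.sup K ≤ C ∧ C ≤ Nr (s.sup K) := by
  classical
  induction s using Finset.induction_on with
  | empty =>
    refine ⟨?_, ?_, ?_⟩
    · rw [Finset.sup_empty]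
      apply LF_of_finite
      rw [Subgroup.coe_bot]
      exact Set.finite_singleton 1
    · rw [Finset.sup_empty]; exact bot_le
    · rw [Finset.sup_empty]
      intro c _
      rw [mem_Nr]
      intro x
      rw [Subgroup.mem_bot, Subgroup.mem_bot]
      constructor
      · rintro rfl; group
      · intro hx
        have : x = c⁻¹ * (c * x * c⁻¹) * c := by group
        rw [this, hx]; group
  | insert i s hi ih =>
    obtain ⟨h4, h5, h6⟩ := ih (fun j hj => h1 j (Finset.mem_insert_of_mem hj))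
      (fun j hj => h2 j (Finset.mem_insert_of_mem hj))
      (fun j hj => h3 j (Finset.mem_insert_of_mem hj))
    have i1 := h1 i (Finset.mem_insert_self i s)
    have i2 := h2 i (Finset.mem_insert_self i s)
    have i3 := h3 i (Finset.mem_insert_self i s)
    rw [Finset.sup_insert]
    refine ⟨LF.sup i1 h4 (h5.trans i3), sup_le i2 h5, fun c hc => ?_⟩
    have key : ∀ c ∈ C, ∀ x ∈ K i ⊔ s.sup K, c * x * c⁻¹ ∈ K i ⊔ s.sup K := by
      intro c hc
      have h7 : K i ⊔ s.sup K ≤ (K i ⊔ s.sup K).comap (MulAut.conj c).toMonoidHom := by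
        rw [sup_le_iff]
        constructor
        · intro x hx
          exact (le_sup_left : K i ≤ _) ((mem_Nr.1 (i3 hc) x).1 hx)
        · intro x hx
          exact (le_sup_right : s.sup K ≤ _) ((mem_Nr.1 (h6 hc) x).1 hx)
      intro x hx
      exact h7 hx
    refine L1E_nr_of (key c hc) ?_
    have h8 := key _ (Subgroup.inv_mem _ hc)
    simpa only [inv_inv] using h8

/-- finitely many representatives -/
private theorem L1E_reps {T : Set G} {B : Subgroup G} (hB : (B : Set G).Finite)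
    (S : Set G) (hS : ∀ s ∈ S, s ∈ T ∧ s ∈ Nr B) :
    ∃ R : Finset G, (∀ r ∈ R, r ∈ S) ∧ ∀ s ∈ S, ∃ r ∈ R, s ∈ SclE T B r := by
  classical
  haveI : Finite B := hB
  let act : S → (B → B) := fun s b =>
    ⟨s.1⁻¹ * b.1 * s.1, L1E_conj_mem' (hS s.1 s.2).2 b.2⟩
  haveI : Finite (Set.range act) := Finite.of_injective (fun x => x.1) Subtype.val_injective
  have hch : ∀ f : Set.range act, ∃ s : S, act s = f.1 := fun f => f.2
  choose g hg using hch
  haveI := Fintype.ofFinite (Set.range act)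
  refine ⟨Finset.univ.image (fun f => (g f).1), ?_, ?_⟩
  · intro r hr
    rw [Finset.mem_image] at hr
    obtain ⟨f, _, rfl⟩ := hr
    exact (g f).2
  · intro s hs
    let f : Set.range act := ⟨act ⟨s, hs⟩, ⟨_, rfl⟩⟩
    refine ⟨(g f).1, Finset.mem_image_of_mem _ (Finset.mem_univ f), (hS s hs).1, ?_⟩
    intro b hb
    have h1 : act (g f) = act ⟨s, hs⟩ := hg f
    have h2 := congrFun h1 ⟨b, hb⟩
    have h3 := congrArg Subtype.val h2
    exact h3.symm

/-- Let `s₁, ..., sₙ` represent the finitely many classes `SclE T B s`, `s ∈ SclE T A t` normalising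
`B`. `K i`, generated by the `s * (s i)⁻¹` with `s ∈ SclE T B (s i)`, is locally finite and normal in
the centraliser of `B`; the product `K` of the `K i` is locally finite and normalised by all
`s ∈ SclE T A t` normalising `B`; modulo `K` the set of these `s` is finite and normal; apply `dietzE`.
Here `SclE T B t' ⊆ SclE T A t` for `t' ∈ SclE T A t`. -/
theorem L1E {T : Set G} (h : ET m T) {A B : Subgroup G} {t : G} (ht : t ∈ T) (hn : t ∈ Nr A)
    (hAB : A ≤ B) (hB : (B : Set G).Finite)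
    (hl : ∀ t' ∈ SclE T A t, t' ∈ Nr B → LF (Subgroup.closure (SclE T B t'))) :
    LF (Subgroup.closure {s | s ∈ SclE T A t ∧ s ∈ Nr B}) := by
  classical
  set S : Set G := {s | s ∈ SclE T A t ∧ s ∈ Nr B} with hSdef
  have hST : ∀ s ∈ S, s ∈ T ∧ s ∈ Nr B := fun s hs => ⟨hs.1.1, hs.2⟩
  obtain ⟨R, hR, hR'⟩ := L1E_reps hB S hST
  set K : Subgroup G := R.sup (L1EK T B) with hK
  obtain ⟨hKLF, _, _⟩ := L1E_sup (C := Subgroup.centralizer (B : Set G)) R (L1EK T B)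
    (fun r hr => (hl r (hR r hr).1 (hR r hr).2).mono (L1EK_le (hST r (hR r hr)).1))
    (fun r hr => L1EK_cen)
    (fun r hr => L1EK_nr h (hST r (hR r hr)).1 (hST r (hR r hr)).2)
  rw [← hK] at hKLF
  have hKle : ∀ r ∈ R, L1EK T B r ≤ K := fun r hr => Finset.le_sup (f := L1EK T B) hr
  -- quotients of two elements of the same class are in K
  have hprod : ∀ s ∈ S, ∀ s' ∈ S, s ∈ SclE T B s' → s * s'⁻¹ ∈ K := by
    intro s hs s' hs' hss'
    obtain ⟨r, hr, hr'⟩ := hR' s' hs'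
    have h1 : s' * r⁻¹ ∈ K := hKle r hr (Subgroup.subset_closure ⟨s', hr', rfl⟩)
    have h2 : s ∈ SclE T B r := ⟨hss'.1, fun b hb => (hss'.2 b hb).trans (hr'.2 b hb)⟩
    have h3 : s * r⁻¹ ∈ K := hKle r hr (Subgroup.subset_closure ⟨s, h2, rfl⟩)
    have h4 := Subgroup.mul_mem _ h3 (Subgroup.inv_mem _ h1)
    have h5 : s * r⁻¹ * (s' * r⁻¹)⁻¹ = s * s'⁻¹ := by group
    rwa [h5] at h4
  -- the class of an element of S consists of elements of S
  have hcls : ∀ s ∈ S, ∀ u ∈ SclE T B s, u ∈ S := by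
    intro s hs u hu
    refine ⟨⟨hu.1, fun a ha => ?_⟩, SclE_nr hs.2 hu⟩
    exact (hu.2 a (hAB ha)).trans (hs.1.2 a ha)
  -- S is closed under conjugation
  have hSc : ∀ s ∈ S, ∀ u ∈ S, s⁻¹ * u * s ∈ S ∧ s * u * s⁻¹ ∈ S := by
    intro s hs u hu
    have h0 := SclE_conj h ht hn hu.1 hs.1
    exact ⟨⟨h0.1, Subgroup.mul_mem _ (Subgroup.mul_mem _ (Subgroup.inv_mem _ hs.2) hu.2) hs.2⟩,
      ⟨h0.2, Subgroup.mul_mem _ (Subgroup.mul_mem _ hs.2 hu.2) (Subgroup.inv_mem _ hs.2)⟩⟩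
  -- K is normalised by S
  have hKgen : ∀ g : G, g ∈ Nr B → (∀ u ∈ S, g * u * g⁻¹ ∈ S) → ∀ x ∈ K, g * x * g⁻¹ ∈ K := by
    intro g hgB hgS
    have h1 : K ≤ K.comap (MulAut.conj g).toMonoidHom := by
      rw [hK]
      rw [Finset.sup_le_iff]
      intro r hr
      rw [← hK]
      unfold L1EK
      rw [Subgroup.closure_le]
      rintro _ ⟨u, hu, rfl⟩
      change g * (u * r⁻¹) * g⁻¹ ∈ K
      have hrS := hR r hr
      have huS := hcls r hrS u hu
      have h0 := L1E_cls h hu (Subgroup.inv_mem _ hgB)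
      rw [inv_inv] at h0
      have h2 := hprod _ (hgS u huS) _ (hgS r hrS) h0
      have h3 : g * u * g⁻¹ * (g * r * g⁻¹)⁻¹ = g * (u * r⁻¹) * g⁻¹ := by group
      rwa [h3] at h2
    intro x hx
    exact h1 hx
  have hKn : ∀ s ∈ S, s ∈ Nr K := by
    intro s hs
    refine L1E_nr_of (hKgen s hs.2 fun u hu => (hSc s hs u hu).2) ?_
    have h1 := hKgen s⁻¹ (Subgroup.inv_mem _ hs.2) (fun u hu => by
      rw [inv_inv]
      exact (hSc s hs u hu).1)
    rwa [inv_inv] at h1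
  -- the quotient
  set N : Subgroup G := Nr K with hN
  haveI hnorm : (K.subgroupOf N).Normal := Subgroup.normal_in_normalizer
  let f : N →* N ⧸ K.subgroupOf N := QuotientGroup.mk' (K.subgroupOf N)
  let S' : Set N := {x | x.1 ∈ S}
  have hS' : N.subtype '' S' = S := by
    ext x
    constructor
    · rintro ⟨y, hy, rfl⟩
      exact hy
    · intro hx
      exact ⟨⟨x, hKn x hx⟩, hx, rfl⟩
  have hcl : Subgroup.closure S = (Subgroup.closure S').map N.subtype := by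
    rw [MonoidHom.map_closure, hS']
  rw [hcl]
  apply LF.map
  have hfin : (f '' S').Finite := by
    have h1 : f '' S' ⊆ (fun x : G => if hx : x ∈ N then f ⟨x, hx⟩ else 1) '' (R : Set G) := by
      rintro _ ⟨x, hx, rfl⟩
      obtain ⟨r, hr, hr'⟩ := hR' x.1 hx
      refine ⟨r, hr, ?_⟩
      have hrN : r ∈ N := hKn r (hR r hr)
      simp only [hrN, dif_pos]
      rw [QuotientGroup.mk'_apply, QuotientGroup.mk'_apply, QuotientGroup.eq]
      rw [Subgroup.mem_subgroupOf]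
      have h2 := hprod x.1 hx r (hR r hr) hr'
      have h3 := (mem_Nr.1 (Subgroup.inv_mem _ hrN : r⁻¹ ∈ Nr K) _).1 h2
      have h4 : ((⟨r, hrN⟩ : N)⁻¹ * x : N).1 = r⁻¹ * (x.1 * r⁻¹) * r⁻¹⁻¹ := by
        rw [Subgroup.coe_mul, Subgroup.coe_inv]
        group
      rw [h4]
      exact h3
    exact (R.finite_toSet.image _).subset h1
  have hd : ((Subgroup.closure (f '' S') : Subgroup (N ⧸ K.subgroupOf N)) :
      Set (N ⧸ K.subgroupOf N)).Finite := by
    apply dietzE hfin ?_ h.pos ?_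
    · rintro _ ⟨u, hu, rfl⟩ _ ⟨v, hv, rfl⟩
      refine ⟨v⁻¹ * u * v, ?_, by rw [map_mul, map_mul, map_inv]⟩
      change (v.1⁻¹ * u.1 * v.1) ∈ S
      exact (hSc _ hv _ hu).1
    · rintro _ ⟨u, hu, rfl⟩
      rw [← map_pow]
      have h1 : u ^ m = 1 := Subtype.ext (h.pow u.1 (hST u.1 hu).1)
      rw [h1, map_one]
  apply LF.of_map f
  · rw [MonoidHom.map_closure]
    exact LF_of_finite hd
  · have h1 : Subgroup.closure S' ⊓ f.ker ≤ K.subgroupOf N := by
      rw [QuotientGroup.ker_mk']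
      exact inf_le_right
    refine LF.mono ?_ h1
    have h2 : LF ((K.subgroupOf N).map N.subtype) :=
      hKLF.mono (by
        rw [Subgroup.subgroupOf_map_subtype]
        exact inf_le_left)
    -- pull back along the injection
    intro s hs hsK
    have h3 : (N.subtype '' (Subgroup.closure s : Subgroup N)).Finite := by
      have h4 := h2 (N.subtype '' s) (hs.image _) (by
        rintro _ ⟨x, hx, rfl⟩
        exact ⟨x, hsK hx, rfl⟩)
      rw [← MonoidHom.map_closure, Subgroup.coe_map] at h4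
      exact h4
    exact h3.of_finite_image N.subtype_injective.injOn

end Pool.Agent.Helper59.EK
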