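import Pool.Agent.Helper59.EK.MemE

/-!
# EK-19. Lemma A
-/

set_option autoImplicit false

namespace Pool.Agent.Helper59.EK

universe u v

open Pool.Agent.Helper98.Engel Pool.Agent.Helper59.EI

variable {G : Type u} [Group G] {m : ℕ}

variable {T : Set G}

/-- a subgroup generated by elements of `T` normalising `P` is below `⟨TN T P⟩` -/
private theorem LemA_le {M P : Subgroup G} (hM : TG T M) (h : M ≤ Nr P) :
    M ≤ Subgroup.closure (TN T P) := by
  have h1 : Subgroup.closure (T ∩ (M : Set G)) ≤ Subgroup.closure (TN T P) :=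
    Subgroup.closure_mono (fun x hx => ⟨hx.1, h hx.2⟩)
  rwa [show Subgroup.closure (T ∩ (M : Set G)) = M from hM] at h1

private theorem LemA_TG (P : Subgroup G) : TG T (Subgroup.closure (TN T P)) :=
  TG_closure (fun _ hx => hx.1)

/-- `⟨TN T (dv M)⟩` is locally finite by (G3) and contains `M`, so it is `M`. -/
theorem CoreE.TN_dv (h : CoreE G m T) {M : Subgroup G} (hM : IsM T M)
    (hinf : (M : Set G).Infinite) : Subgroup.closure (TN T (dv m M)) = M := by
  obtain ⟨h1, h2, h3⟩ := h.dv_struct hM.tg hM.lf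
  have h4 : LF (Subgroup.closure (TN T (dv m M))) := h.g3 _ h1 (h3 hinf)
  have h5 : M ≤ Subgroup.closure (TN T (dv m M)) :=
    LemA_le hM.tg (fun x hx => dvM_nr (le_Nr M hx))
  exact le_antisymm (hM.max _ (LemA_TG _) h4 h5) h5

/-- Lemma A. `P` centralises `dv M`, so it normalises `⟨TN T (dv M)⟩ = M`; it acts trivially on the
finite group `M / dv M` (`DvM.comm_mod`), so `[M, P] ≤ dv M ≤ P` and `M` normalises `P`. So
`⟨TN T P⟩`, which is locally finite by (G3), contains `M`. -/
theorem CoreE.lemA (h : CoreE G m T) {M : Subgroup G} (hM : IsM T M)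
    (hinf : (M : Set G).Infinite) {P : Subgroup G} (hP : Dv m P) (hle : dv m M ≤ P) :
    Subgroup.closure (TN T P) = M := by
  obtain ⟨h1, h2, h3⟩ := h.dv_struct hM.tg hM.lf
  have hne := h3 hinf
  have hPne : P ≠ ⊥ := by
    rintro rfl
    exact hne (le_bot_iff.1 hle)
  have h4 : LF (Subgroup.closure (TN T P)) := h.g3 _ hP hPne
  -- `P` normalises `dv m M`
  have h5 : P ≤ Nr (dv m M) := by
    intro y hy
    rw [mem_Nr]
    have key : ∀ z ∈ P, y * z * y⁻¹ = z := by
      intro z hz
      rw [hP.comm y hy z hz, mul_inv_cancel_right]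
    intro z
    constructor
    · intro hz
      rw [key z (hle hz)]
      exact hz
    · intro hz
      have hz1 : y * z * y⁻¹ ∈ P := hle hz
      have hz2 : z ∈ P := by
        have h6 := P.mul_mem (P.mul_mem (P.inv_mem hy) hz1) hy
        have h7 : y⁻¹ * (y * z * y⁻¹) * y = z := by group
        rwa [h7] at h6
      rw [key z hz2] at hz
      exact hz
  -- `P` normalises `M`
  have h6 : P ≤ Nr M := by
    intro y hy
    have h7 := h.toET.nr_TN (h5 hy)
    rwa [h.TN_dv hM hinf] at h7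
  have h8 : M ≤ Nr (dv m M) := fun x hx => dvM_nr (le_Nr M hx)
  have h9 := DvM.comm_mod h.pos hP h6 h5 (dvM_le m M) h8 h2
  -- `M` normalises `P`
  have h10 : ∀ x ∈ M, ∀ y ∈ P, x⁻¹ * y * x ∈ P := by
    intro x hx y hy
    have h11 := hle (h9 y⁻¹ (P.inv_mem hy) x hx)
    have h12 := P.mul_mem h11 hy
    have h13 : x⁻¹ * (y⁻¹⁻¹ * x * y⁻¹) * y = x⁻¹ * y * x := by group
    rwa [h13] at h12
  have h14 : M ≤ Nr P := by
    intro x hx
    rw [mem_Nr']
    intro y
    refine ⟨fun hy => h10 x hx y hy, fun hy => ?_⟩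
    have h15 := h10 x⁻¹ (M.inv_mem hx) _ hy
    have h16 : x⁻¹⁻¹ * (x⁻¹ * y * x) * x⁻¹ = y := by group
    rwa [h16] at h15
  have h17 : M ≤ Subgroup.closure (TN T P) := LemA_le hM.tg h14
  exact le_antisymm (hM.max _ (LemA_TG _) h4 h17) h17

end Pool.Agent.Helper59.EK
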