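import Pool.Agent.Helper59.EK.LemA

/-!
# EK-20. Lemma B
-/

set_option autoImplicit false

namespace Pool.Agent.Helper59.EK

universe u v

open Pool.Agent.Helper98.Engel Pool.Agent.Helper59.EI

variable {G : Type u} [Group G] {m : ℕ}

variable {T : Set G}

/-- Lemma B. Let `P` be a maximal divisible subgroup containing `dv M` and `Q` (`DvM.sup`,
`DvM.exists_max`), `R = ⟨TN T Q⟩`, which is locally finite by (G3). `P` centralises `Q`, so it
normalises `R` and `dv R`, and centralises `dv R` (`DvM.comm_dv`); by maximality `dv R ≤ P`. `P` acts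
trivially on `R / dv R`, so `[R, P] ≤ dv R ≤ P` and `R` normalises `P`. So `TN T Q ⊆ TN T P ⊆ M` by
Lemma A. -/
theorem CoreE.lemB (h : CoreE G m T) {M : Subgroup G} (hM : IsM T M)
    (hinf : (M : Set G).Infinite) {Q : Subgroup G} (hQ : Dv m Q) (hne : Q ≠ ⊥)
    (hc : ∀ x ∈ Q, ∀ y ∈ dv m M, x * y = y * x) : ∀ t ∈ TN T Q, t ∈ M := by
  intro t ht
  have hm : 0 < m := h.pos
  haveI := h.cnt
  obtain ⟨hdM, _, _⟩ := h.dv_struct hM.tg hM.lf
  obtain ⟨P, hle, hP, hmax⟩ := DvM.exists_max (DvM.sup hdM hQ fun x hx y hy => (hc y hy x hx).symm)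
  have hdP : dv m M ≤ P := le_sup_left.trans hle
  have hQP : Q ≤ P := le_sup_right.trans hle
  have hRT : TG T (Subgroup.closure (TN T Q)) := TG_closure fun x hx => hx.1
  have hRL : LF (Subgroup.closure (TN T Q)) := h.g3 Q hQ hne
  set R : Subgroup G := Subgroup.closure (TN T Q) with hRdef
  obtain ⟨hdR, hiR, _⟩ := h.dv_struct hRT hRL
  have hPR : P ≤ Nr R := by
    intro x hx
    apply h.toET.nr_TN
    rw [mem_Nr]
    intro y
    have key : ∀ z ∈ P, ∀ w ∈ Q, z * w * z⁻¹ = w := by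
      intro z hz w hw
      rw [hP.comm z hz w (hQP hw), mul_inv_cancel_right]
    constructor
    · intro hy
      rw [key x hx y hy]
      exact hy
    · intro hy
      have h1 := key x⁻¹ (P.inv_mem hx) _ hy
      have h2 : x⁻¹ * (x * y * x⁻¹) * x⁻¹⁻¹ = y := by group
      rw [h2] at h1
      rw [h1]
      exact hy
  have hPd : P ≤ Nr (dv m R) := fun x hx => dvM_nr (hPR hx)
  have hcomm := DvM.comm_dv hm h.thin hdR hP hPd
  have hdRP : dv m R ≤ P := by
    have h1 := hmax _ (DvM.sup hP hdR hcomm) le_sup_left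
    rw [← h1]
    exact le_sup_right
  have hmod := DvM.comm_mod hm hP hPR hPd (dvM_le m R) (fun x hx => dvM_nr (le_Nr R hx)) hiR
  have hRP : ∀ x ∈ R, ∀ y ∈ P, x⁻¹ * y * x ∈ P := by
    intro x hx y hy
    have h1 := hdRP (hmod y⁻¹ (P.inv_mem hy) x hx)
    have h2 := P.mul_mem h1 hy
    have h3 : x⁻¹ * (y⁻¹⁻¹ * x * y⁻¹) * y = x⁻¹ * y * x := by group
    rwa [h3] at h2
  have htR : t ∈ R := Subgroup.subset_closure ht
  have htP : t ∈ Nr P := by
    rw [mem_Nr']
    intro y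
    constructor
    · exact fun hy => hRP t htR y hy
    · intro hy
      have h1 := hRP t⁻¹ (R.inv_mem htR) _ hy
      have h2 : t⁻¹⁻¹ * (t⁻¹ * y * t) * t⁻¹ = y := by group
      rwa [h2] at h1
  rw [← h.lemA hM hinf hP hdP]
  exact Subgroup.subset_closure ⟨ht.1, htP⟩

end Pool.Agent.Helper59.EK
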