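import Pool.Agent.Helper59.EK.LemB

/-!
# EK-21. Lemma C
-/

set_option autoImplicit false

namespace Pool.Agent.Helper59.EK

universe u v

open Pool.Agent.Helper98.Engel Pool.Agent.Helper59.EI

variable {G : Type u} [Group G] {m : ℕ}

variable {T : Set G}

/-- Lemma C. Two different maximal members have finite `II`. Suppose `R = II T M M'` is infinite;
`Q = dv R ≠ 1` is contained in `dv M` and `dv M'` (which are abelian), so `TN T Q ⊆ M ∩ M'` by Lemma B;
so `TN T R ⊆ TN T Q ⊆ R`. By `CoreE.tnc`, `R = M` and `R = M'`. -/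
theorem CoreE.lemC (h : CoreE G m T) {M M' : Subgroup G} (hM : IsM T M) (hM' : IsM T M')
    (hne : M ≠ M') : ((II T M M' : Subgroup G) : Set G).Finite := by
  by_contra hcon
  have hRinf : ((II T M M' : Subgroup G) : Set G).Infinite := hcon
  have hRM := II_le_left T M M'
  have hRM' := II_le_right T M M'
  have hMinf : (M : Set G).Infinite := hRinf.mono hRM
  have hMinf' : (M' : Set G).Infinite := hRinf.mono hRM'
  have hRT := II_TG T M M'
  have hRlf : LF (II T M M') := hM.lf.mono hRM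
  obtain ⟨hQ, -, hQne⟩ := h.dv_struct hRT hRlf
  obtain ⟨hD, -, -⟩ := h.dv_struct hM.tg hM.lf
  obtain ⟨hD', -, -⟩ := h.dv_struct hM'.tg hM'.lf
  have hQM : dv m (II T M M') ≤ dv m M := dvM_mono hRM
  have hQM' : dv m (II T M M') ≤ dv m M' := dvM_mono hRM'
  have h1 := h.lemB hM hMinf hQ (hQne hRinf) (fun x hx y hy => hD.comm x (hQM hx) y hy)
  have h2 := h.lemB hM' hMinf' hQ (hQne hRinf) (fun x hx y hy => hD'.comm x (hQM' hx) y hy)
  have h3 : ∀ t ∈ T, t ∈ Nr (II T M M') → t ∈ II T M M' := by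
    intro t ht hn
    have h4 : t ∈ TN T (dv m (II T M M')) := ⟨ht, dvM_nr hn⟩
    exact mem_II ht (h1 t h4) (h2 t h4)
  have h5 : II T M M' = M := by
    by_contra hne1
    obtain ⟨t, ht, -, hn, hnot⟩ := h.tnc hM.tg hM.lf hRT hRM hne1
    exact hnot (h3 t ht hn)
  have h6 : II T M M' = M' := by
    by_contra hne1
    obtain ⟨t, ht, -, hn, hnot⟩ := h.tnc hM'.tg hM'.lf hRT hRM' hne1
    exact hnot (h3 t ht hn)
  exact hne (h5.symm.trans h6)

end Pool.Agent.Helper59.EK
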