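import Pool.Agent.Helper59.EK.LemC

/-!
# EK-25. Lemma D
-/

set_option autoImplicit false

namespace Pool.Agent.Helper59.EK

universe u v

open Pool.Agent.Helper98.Engel Pool.Agent.Helper59.EI

variable {G : Type u} [Group G] {m : ℕ}

variable {T : Set G}

/-- an element commuting with all elements of `W` normalises `W` -/
private theorem lemD_nr_of_comm {W : Subgroup G} {g : G} (h : ∀ x ∈ W, g * x = x * g) :
    g ∈ Nr W := by
  rw [mem_Nr]
  intro x
  constructor
  · intro hx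
    rw [h x hx, mul_inv_cancel_right]
    exact hx
  · intro hx
    have h1 := h _ hx
    have h2 : g * (g * x * g⁻¹) = g * x := by
      rw [h1, inv_mul_cancel_right]
    have h3 : g * x * g⁻¹ = x := mul_left_cancel h2
    rw [h3] at hx
    exact hx

/-- Let `W ≠ 1` be divisible, centralised by `dv M` and `dv M'`, `M ≠ M'`, and let `s ∈ T` normalise
`W`. Then `s` commutes with `dv M`. (`TN T W ⊆ M ∩ M'` by Lemma B, so `R = ⟨TN T W⟩ ≤ II T M M'` is
finite by Lemma C; `dv M` centralises `W`, so it normalises `R`, so it centralises `R ∋ s` by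
`DvM.comm_of_finite`.) -/
theorem CoreE.comm_of_W (h : CoreE G m T) {M M' : Subgroup G} (hM : IsM T M)
    (hM' : IsM T M') (hinf : (M : Set G).Infinite) (hinf' : (M' : Set G).Infinite)
    (hne : M ≠ M') {W : Subgroup G} (hW : Dv m W) (hW1 : W ≠ ⊥)
    (hc : ∀ x ∈ W, ∀ y ∈ dv m M, x * y = y * x) (hc' : ∀ x ∈ W, ∀ y ∈ dv m M', x * y = y * x)
    {s : G} (hs : s ∈ TN T W) : ∀ y ∈ dv m M, s * y = y * s := by
  have h1 := h.lemB hM hinf hW hW1 hc
  have h2 := h.lemB hM' hinf' hW hW1 hc'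
  have h3 : Subgroup.closure (TN T W) ≤ II T M M' := by
    rw [Subgroup.closure_le]
    intro t ht
    exact mem_II ht.1 (h1 t ht) (h2 t ht)
  have h4 : ((Subgroup.closure (TN T W) : Subgroup G) : Set G).Finite :=
    (h.lemC hM hM' hne).subset h3
  have hD : Dv m (dv m M) := (h.dv_struct hM.tg hM.lf).1
  have h5 : ∀ y ∈ dv m M, y ∈ Nr (Subgroup.closure (TN T W)) := by
    intro y hy
    apply h.nr_TN
    apply lemD_nr_of_comm
    intro x hx
    exact (hc x hx y hy).symm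
  have h6 := DvM.comm_of_finite h.pos hD h4 (by
    intro x hx z hz
    exact (mem_Nr.1 (h5 x hx) z).1 hz)
  intro y hy
  exact (h6 y hy s (Subgroup.subset_closure hs)).symm

/-- Lemma D. Let `s ∈ T ∩ M`, `M' ≠ M`, `Gd M' s`. Then `s` has finite centraliser in `dv M`.
(Otherwise `Q = dv (C_{dv M}(s)) ≠ 1` (`dvM_ab`) commutes with `s`, so it normalises `M'` and `dv M'`
and centralises `dv M'`. By `comm_of_W` `s` commutes with `dv M`. Then `W = dv M` normalises `M'` too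
and centralises `dv M'`; by Lemma B `TN T (dv M) ⊆ M'`, so `M = ⟨TN T (dv M)⟩ ≤ M'`.) -/
theorem CoreE.lemD (h : CoreE G m T) {M M' : Subgroup G} (hM : IsM T M) (hM' : IsM T M')
    (hinf : (M : Set G).Infinite) (hinf' : (M' : Set G).Infinite) (hne : M ≠ M') {s : G}
    (hs : s ∈ T) (hsM : s ∈ M) (hg : Gd M' s) : {y : G | y ∈ dv m M ∧ y * s = s * y}.Finite := by
  by_contra hcon
  have hD : Dv m (dv m M) := (h.dv_struct hM.tg hM.lf).1
  have hD' : Dv m (dv m M') := (h.dv_struct hM'.tg hM'.lf).1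
  have hD1 : dv m M ≠ ⊥ := (h.dv_struct hM.tg hM.lf).2.2 hinf
  -- the centraliser of `s` in `dv M`
  let B : Subgroup G := dv m M ⊓ Subgroup.centralizer {s}
  have hB : ∀ y, y ∈ B ↔ y ∈ dv m M ∧ y * s = s * y := by
    intro y
    rw [Subgroup.mem_inf, Subgroup.mem_centralizer_singleton_iff]
  have hBset : (B : Set G) = {y : G | y ∈ dv m M ∧ y * s = s * y} := by
    ext y
    exact hB y
  have hBinf : (B : Set G).Infinite := by
    rw [hBset]
    exact hcon
  have hBa := dvM_ab (G := G) h.pos h.thin (B := B)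
    (fun x hx y hy => hD.comm x ((hB x).1 hx).1 y ((hB y).1 hy).1)
    (fun x hx => hD.pel x ((hB x).1 hx).1)
  have hQ : Dv m (dv m B) := hBa.1
  have hQ1 : dv m B ≠ ⊥ := hBa.2.2 hBinf
  have hQB : dv m B ≤ B := dvM_le m B
  have hQN : dv m B ≤ Nr (dv m M') := by
    intro c hc
    exact dvM_nr (hg.2 c ((hB c).1 (hQB hc)).2)
  have hQc' := DvM.comm_dv h.pos h.thin hD' hQ hQN
  have hQc : ∀ x ∈ dv m B, ∀ y ∈ dv m M, x * y = y * x := by
    intro x hx y hy
    exact hD.comm x ((hB x).1 (hQB hx)).1 y hy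
  have hsQ : s ∈ TN T (dv m B) := by
    refine ⟨hs, lemD_nr_of_comm ?_⟩
    intro x hx
    exact ((hB x).1 (hQB hx)).2.symm
  have hcomm := h.comm_of_W hM hM' hinf hinf' hne hQ hQ1 hQc hQc' hsQ
  have hN : dv m M ≤ Nr (dv m M') := by
    intro c hc
    exact dvM_nr (hg.2 c (hcomm c hc).symm)
  have hc' := DvM.comm_dv h.pos h.thin hD' hD hN
  have hB' := h.lemB hM' hinf' hD hD1 hc'
  have hle : M ≤ M' := by
    conv_lhs => rw [← h.TN_dv hM hinf]
    rw [Subgroup.closure_le]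
    exact hB'
  exact hne (IsM.eq_of_le hM hM' hle)

/-- Lemma D2. Let `b ∈ T ∩ M ∩ M'`, `M ≠ M'`, and let `b` have finite centraliser in `dv M`. Then
`dv M ∩ dv M'` is finite. (Otherwise apply `comm_of_W` to `W = dv (dv M ⊓ dv M') ≠ 1`, which is
normalised by `b`.) -/
theorem CoreE.lemD2 (h : CoreE G m T) {M M' : Subgroup G} (hM : IsM T M) (hM' : IsM T M')
    (hinf : (M : Set G).Infinite) (hinf' : (M' : Set G).Infinite) (hne : M ≠ M') {b : G}
    (hb : b ∈ T) (hbM : b ∈ M) (hbM' : b ∈ M')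
    (hf : {y : G | y ∈ dv m M ∧ y * b = b * y}.Finite) :
    (((dv m M ⊓ dv m M' : Subgroup G)) : Set G).Finite := by
  by_contra hcon
  have hD : Dv m (dv m M) := (h.dv_struct hM.tg hM.lf).1
  have hD' : Dv m (dv m M') := (h.dv_struct hM'.tg hM'.lf).1
  have hBa := dvM_ab (G := G) h.pos h.thin (B := dv m M ⊓ dv m M')
    (fun x hx y hy => hD.comm x (Subgroup.mem_inf.1 hx).1 y (Subgroup.mem_inf.1 hy).1)
    (fun x hx => hD.pel x (Subgroup.mem_inf.1 hx).1)
  have hW : Dv m (dv m (dv m M ⊓ dv m M')) := hBa.1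
  have hW1 : dv m (dv m M ⊓ dv m M') ≠ ⊥ := hBa.2.2 hcon
  have hWB : dv m (dv m M ⊓ dv m M') ≤ dv m M ⊓ dv m M' := dvM_le m _
  have hbN : b ∈ Nr (dv m M) := dvM_nr (le_Nr M hbM)
  have hbN' : b ∈ Nr (dv m M') := dvM_nr (le_Nr M' hbM')
  have hbB : b ∈ Nr (dv m M ⊓ dv m M') := by
    rw [mem_Nr]
    intro x
    rw [Subgroup.mem_inf, Subgroup.mem_inf]
    exact and_congr (mem_Nr.1 hbN x) (mem_Nr.1 hbN' x)
  have hbW : b ∈ TN T (dv m (dv m M ⊓ dv m M')) := ⟨hb, dvM_nr hbB⟩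
  have hcomm := h.comm_of_W hM hM' hinf hinf' hne hW hW1
    (fun x hx y hy => hD.comm x (Subgroup.mem_inf.1 (hWB hx)).1 y hy)
    (fun x hx y hy => hD'.comm x (Subgroup.mem_inf.1 (hWB hx)).2 y hy) hbW
  apply hcon
  apply hf.subset
  intro y hy
  have hy1 : y ∈ dv m M := (Subgroup.mem_inf.1 hy).1
  exact ⟨hy1, (hcomm y hy1).symm⟩

end Pool.Agent.Helper59.EK
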