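import Pool.Agent.Helper59.EK.Comp
import Pool.Agent.Helper59.EI.Nc

/-!
# EK-7. The normaliser condition

Compare EI/Nc.lean.
-/

set_option autoImplicit false

namespace Pool.Agent.Helper59.EK

universe u v

open Pool.Agent.Helper98.Engel Pool.Agent.Helper59.EI

variable {G : Type u} [Group G] {m : ℕ}

/-- a periodic element conjugating `N` into itself normalises `N` -/
private theorem ncM_nr_of_conj (hm : 0 < m) {N : Subgroup G} {g : G} (hg : PEl m g)
    (h : ∀ n ∈ N, g⁻¹ * n * g ∈ N) : g ∈ Nr N := by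
  rw [mem_Nr']
  intro n
  refine ⟨h n, fun hn => ?_⟩
  obtain ⟨k, hk⟩ := hg
  have hpos : 0 < m ^ k := pow_pos hm _
  have h1 : ∀ j : ℕ, ∀ y ∈ N, (g ^ j)⁻¹ * y * g ^ j ∈ N := by
    intro j
    induction j with
    | zero => intro y hy; simpa using hy
    | succ j ih =>
      intro y hy
      have h2 := h _ (ih y hy)
      have h3 : (g ^ (j + 1))⁻¹ * y * g ^ (j + 1) = g⁻¹ * ((g ^ j)⁻¹ * y * g ^ j) * g := by
        rw [pow_succ]; group
      rw [h3]; exact h2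
  have h4 := h1 (m ^ k - 1) _ hn
  have h5 : g ^ (m ^ k - 1) = g⁻¹ := by
    have : g ^ (m ^ k - 1) * g = 1 := by
      rw [← pow_succ, Nat.sub_add_cancel hpos, hk]
    exact eq_inv_of_mul_eq_one_left this
  rw [h5] at h4
  have h6 : (g⁻¹)⁻¹ * (g⁻¹ * n * g) * g⁻¹ = n := by group
  rwa [h6] at h4

/-- thinness for the prime divisors -/
private theorem ncM_thin (ht : Thin m G) {p : ℕ} (hpm : p ∣ m) : Thin p G := by
  intro A h1 h2
  refine ht A (fun x hx => ?_) h2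
  obtain ⟨c, rfl⟩ := hpm
  rw [pow_mul, h1 x hx, one_pow]

/-- Normaliser condition. (Some primary component `Y` of `X` is not contained in `N`; `Cher.nc` for
`Y` and `N ⊓ Y` gives `g`; `g` commutes with the other components of the elements of `N`.) -/
theorem nc_M [Countable G] (hm : 0 < m) (ht : Thin m G) {X : Subgroup G} (hX : LF X)
    (hp : ∀ x ∈ X, PEl m x) (hl : LN X) {N : Subgroup G} (hN : N ≤ X) (hne : N ≠ X) :
    ∃ g ∈ X, g ∈ Nr N ∧ g ∉ N := by
  have hnot : ¬ X ≤ N := fun h => hne (le_antisymm hN h)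
  obtain ⟨x, hxX, hxN⟩ := SetLike.not_le_iff_exists.1 hnot
  have hex : ∃ p : ℕ, p.Prime ∧ p ∣ m ∧ ∃ k : ℕ, PEl p (x ^ k) ∧ x ^ k ∉ N := by
    by_contra hcon
    push Not at hcon
    exact hxN (mem_of_comp hm (hp x hxX) fun p hpp hpm k hk => hcon p hpp hpm k hk)
  obtain ⟨p, hpp, hpm, k, hk, hkN⟩ := hex
  have : Fact p.Prime := ⟨hpp⟩
  obtain ⟨Y, hYX, hY⟩ := exists_comp hl hpp
  have hLPY : LP p Y := ⟨hX.mono hYX, fun y hy => ((hY y).1 hy).2⟩
  have hkY : x ^ k ∈ Y := (hY _).2 ⟨X.pow_mem hxX k, hk⟩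
  have hne' : N ⊓ Y ≠ Y := by
    intro h
    have : x ^ k ∈ N ⊓ Y := by
      rw [h]
      exact hkY
    exact hkN (Subgroup.mem_inf.1 this).1
  obtain ⟨g, hgY, hgNr, hgn⟩ := Cher.nc hLPY (hLPY.cher (ncM_thin ht hpm))
    (inf_le_right : N ⊓ Y ≤ Y) hne'
  have hgX : g ∈ X := hYX hgY
  have hgN : g ∉ N := fun h => hgn (Subgroup.mem_inf.2 ⟨h, hgY⟩)
  refine ⟨g, hgX, ?_, hgN⟩
  apply ncM_nr_of_conj hm (hp g hgX)
  intro n hn
  have hnX : n ∈ X := hN hn
  have hcX : g⁻¹ * n * g ∈ X := X.mul_mem (X.mul_mem (X.inv_mem hgX) hnX) hgX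
  refine mem_of_comp hm (hp _ hcX) fun q hq hqm j hj => ?_
  have e1 : (g⁻¹ * n * g) ^ j = g⁻¹ * n ^ j * g := by
    have := conj_pow (i := j) (a := g⁻¹) (b := n)
    rwa [inv_inv] at this
  rw [e1] at hj ⊢
  have hnj : PEl q (n ^ j) := by
    have h1 := hj.conj g⁻¹
    have h2 : (g⁻¹)⁻¹ * (g⁻¹ * n ^ j * g) * g⁻¹ = n ^ j := by group
    rwa [h2] at h1
  have hnjN : n ^ j ∈ N := N.pow_mem hn j
  have hnjX : n ^ j ∈ X := hN hnjN
  by_cases hqp : q = p
  · subst hqp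
    have hnjY : n ^ j ∈ N ⊓ Y := Subgroup.mem_inf.2 ⟨hnjN, (hY _).2 ⟨hnjX, hnj⟩⟩
    exact (Subgroup.mem_inf.1 ((mem_Nr'.1 hgNr _).1 hnjY)).1
  · have hc := comm_of_coprime hl hq hpp hqp hnjX hgX hnj ((hY g).1 hgY).2
    have h3 : g⁻¹ * n ^ j * g = n ^ j := by
      rw [mul_assoc, hc]
      group
    rw [h3]
    exact hnjN

/-- the version for subgroups generated by subsets of a normal set (see `Cher.tnc`) -/
theorem tnc_M [Countable G] (hm : 0 < m) (ht : Thin m G) {X : Subgroup G} (hX : LF X)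
    (hp : ∀ x ∈ X, PEl m x) (hl : LN X) {T : Set G} (hT : ∀ t ∈ T, ∀ g : G, g⁻¹ * t * g ∈ T)
    (hTX : TG T X) {R : Subgroup G} (hR : TG T R) (hRX : R ≤ X) (hne : R ≠ X) :
    ∃ t ∈ T, t ∈ X ∧ t ∈ Nr R ∧ t ∉ R := by
  by_contra hcon
  push Not at hcon
  set A : Set (Subgroup G) := {N | N ≤ X ∧ ∀ t ∈ T, t ∈ N → t ∈ R} with hA
  obtain ⟨N, hRN, hNmax⟩ := zorn_le_nonempty₀ A (by
    intro c hcA hch y hyc
    refine ⟨sSup c, ⟨sSup_le fun z hz => (hcA hz).1, ?_⟩, fun z hz => le_sSup hz⟩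
    intro t ht htc
    rw [Subgroup.mem_sSup_of_directedOn ⟨y, hyc⟩ hch.directedOn] at htc
    obtain ⟨z, hz, htz⟩ := htc
    exact (hcA hz).2 t ht htz) R ⟨hRX, fun t _ ht => ht⟩
  have hNA : N ∈ A := hNmax.prop
  have hNX : N ≠ X := by
    intro h
    apply hne
    apply le_antisymm hRX
    rw [← (show Subgroup.closure (T ∩ X) = X from hTX), Subgroup.closure_le]
    rintro t ⟨ht, htX⟩
    exact hNA.2 t ht (h ▸ htX)
  obtain ⟨g, hgX, hgN, hgn⟩ := nc_M hm ht hX hp hl hNA.1 hNX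
  set N' : Subgroup G := N ⊔ Subgroup.closure {g} with hN'
  have hgN' : g ∈ N' := (le_sup_right : _ ≤ N ⊔ Subgroup.closure {g})
    (Subgroup.subset_closure rfl)
  have hN'X : N' ≤ X := sup_le hNA.1 ((Subgroup.closure_le _).2 (by
    rintro _ rfl; exact hgX))
  have hN'N : N' ≤ Nr N := sup_le (le_Nr N) ((Subgroup.closure_le _).2 (by
    rintro _ rfl; exact hgN))
  have hN'A : N' ∈ A := by
    refine ⟨hN'X, ?_⟩
    intro t ht htN'
    apply hcon t ht (hN'X htN')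
    apply ncM_nr_of_conj hm (hp t (hN'X htN'))
    intro r hr
    have hr' : r ∈ Subgroup.closure (T ∩ R) := by
      rw [show Subgroup.closure (T ∩ R) = R from hR]; exact hr
    induction hr' using Subgroup.closure_induction with
    | mem s hs =>
      apply hNA.2 _ (hT s hs.1 t)
      exact (mem_Nr'.1 (hN'N htN') s).1 (hRN hs.2)
    | one => simp
    | mul a b ha hb iha ihb =>
      rw [show Subgroup.closure (T ∩ R) = R from hR] at ha hb
      have : t⁻¹ * (a * b) * t = (t⁻¹ * a * t) * (t⁻¹ * b * t) := by group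
      rw [this]; exact mul_mem (iha ha) (ihb hb)
    | inv a ha iha =>
      rw [show Subgroup.closure (T ∩ R) = R from hR] at ha
      have : t⁻¹ * a⁻¹ * t = (t⁻¹ * a * t)⁻¹ := by group
      rw [this]; exact inv_mem (iha ha)
  exact hgn (hNmax.le_of_ge hN'A le_sup_left hgN')

end Pool.Agent.Helper59.EK
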