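import Pool.Agent.Helper59.EK.Struct
import Pool.Agent.Helper59.EK.NcM
import Pool.Agent.Helper59.EK.BsE

/-!
# EK-18. Maximal members
-/

set_option autoImplicit false

namespace Pool.Agent.Helper59.EK

universe u v

open Pool.Agent.Helper98.Engel Pool.Agent.Helper59.EI

variable {G : Type u} [Group G] {m : ℕ}

variable {T : Set G}

theorem ET.exists_isM (h : ET m T) {R : Subgroup G} (hR : TG T R) (hf : LF R) :
    ∃ M : Subgroup G, IsM T M ∧ R ≤ M := by
  obtain ⟨M, hRM, hM⟩ := zorn_le_nonempty₀ {M : Subgroup G | TG T M ∧ LF M} (by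
    intro c hcS hc y hy
    refine ⟨sSup c, ⟨?_, ?_⟩, fun z hz => le_sSup hz⟩
    · apply le_antisymm
      · rw [Subgroup.closure_le]
        exact fun x hx => hx.2
      · apply sSup_le
        intro N hN
        have h1 : Subgroup.closure (T ∩ N) = N := (hcS hN).1
        rw [← h1]
        apply Subgroup.closure_mono
        intro x hx
        exact ⟨hx.1, (le_sSup hN : N ≤ sSup c) hx.2⟩
    · exact LF.sSupD ⟨y, hy⟩ hc.directedOn (fun N hN => (hcS hN).2)) R ⟨hR, hf⟩
  refine ⟨M, ⟨hM.prop.1, hM.prop.2, ?_⟩, hRM⟩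
  intro M' h1 h2 h3
  exact hM.le_of_ge ⟨h1, h2⟩ h3

/-- `M ⟨t⟩` is locally finite and generated by elements of `T` -/
theorem ET.mem_of_nr (h : ET m T) {M : Subgroup G} (hM : IsM T M) {t : G} (ht : t ∈ T)
    (hn : t ∈ Nr M) : t ∈ M := by
  have h1 : M ⊔ Subgroup.closure {t} = Subgroup.closure ((T ∩ M) ∪ {t}) := by
    rw [Subgroup.closure_union]
    congr 1
    exact hM.tg.symm
  have hfin : LF (Subgroup.closure {t} : Subgroup G) := by
    apply LF_of_finite
    rw [← Subgroup.zpowers_eq_closure]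
    rw [finite_zpowers, isOfFinOrder_iff_pow_eq_one]
    exact ⟨m, h.pos, h.pow t ht⟩
  have hle : Subgroup.closure {t} ≤ Nr M := by
    rw [Subgroup.closure_le]
    intro x hx
    rw [Set.mem_singleton_iff] at hx
    rw [hx]
    exact hn
  have h2 : M ⊔ Subgroup.closure {t} ≤ M := by
    apply hM.max _ _ (LF.sup hM.lf hfin hle) le_sup_left
    rw [h1]
    apply TG_closure
    intro x hx
    rcases hx with hx | hx
    · exact hx.1
    · rw [Set.mem_singleton_iff] at hx
      rw [hx]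
      exact ht
  exact h2 ((le_sup_right : Subgroup.closure {t} ≤ M ⊔ Subgroup.closure {t})
    (Subgroup.subset_closure (Set.mem_singleton t)))

theorem ET.memE_tg_cj (h : ET m T) {M : Subgroup G} (hM : TG T M) (g : G) : TG T (cj M g) := by
  apply le_antisymm
  · rw [Subgroup.closure_le]
    exact fun x hx => hx.2
  · have h1 : cj M g = (Subgroup.closure (T ∩ M)).map (MulAut.conj g⁻¹).toMonoidHom := by
      rw [show Subgroup.closure (T ∩ (M : Set G)) = M from hM]
      rfl
    conv_lhs => rw [h1]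
    rw [MonoidHom.map_closure]
    apply Subgroup.closure_mono
    rintro _ ⟨x, hx, rfl⟩
    have h2 : (MulAut.conj g⁻¹).toMonoidHom x = g⁻¹ * x * g := by
      change g⁻¹ * x * g⁻¹⁻¹ = _
      rw [inv_inv]
    refine ⟨?_, ?_⟩
    · rw [h2]
      exact h.conj x hx.1 g
    · exact ⟨x, hx.2, rfl⟩

theorem memE_cj_cj (M : Subgroup G) (g : G) : cj (cj M g) g⁻¹ = M := by
  ext x
  rw [mem_cj, mem_cj]
  have : g * (g⁻¹ * x * g⁻¹⁻¹) * g⁻¹ = x := by group
  rw [this]

theorem memE_cj_cj' (M : Subgroup G) (g : G) : cj (cj M g⁻¹) g = M := by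
  ext x
  rw [mem_cj, mem_cj]
  have : g⁻¹ * (g * x * g⁻¹) * g⁻¹⁻¹ = x := by group
  rw [this]

theorem memE_cj_mono {M M' : Subgroup G} (h : M ≤ M') (g : G) : cj M g ≤ cj M' g := by
  intro x hx
  rw [mem_cj] at hx ⊢
  exact h hx

theorem ET.cj_isM (h : ET m T) {M : Subgroup G} (hM : IsM T M) (g : G) : IsM T (cj M g) := by
  refine ⟨h.memE_tg_cj hM.tg g, hM.lf.map _, ?_⟩
  intro M' h1 h2 h3
  have h4 : M ≤ cj M' g⁻¹ := by
    have := memE_cj_mono h3 g⁻¹
    rwa [memE_cj_cj] at this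
  have h5 := hM.max (cj M' g⁻¹) (h.memE_tg_cj h1 g⁻¹) (h2.map _) h4
  have h6 := memE_cj_mono h5 g
  rwa [memE_cj_cj'] at h6

/-- two maximal members, one contained in the other, are equal -/
theorem IsM.eq_of_le {M M' : Subgroup G} (hM : IsM T M) (hM' : IsM T M') (h : M ≤ M') :
    M = M' := le_antisymm h (hM.max M' hM'.tg hM'.lf h)

/-- structure of the locally finite `TG` subgroups of a core group -/
theorem CoreE.dv_struct (h : CoreE G m T) {R : Subgroup G} (hR : TG T R) (hf : LF R) :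
    Dv m (dv m R) ∧ (dv m R).relIndex R ≠ 0 ∧ ((R : Set G).Infinite → dv m R ≠ ⊥) := by
  have := h.cnt
  obtain ⟨hl, hp⟩ := h.toET.ln hR hf
  exact dvM_struct h.pos h.thin hf hp hl

theorem CoreE.tnc (h : CoreE G m T) {X R : Subgroup G} (hX : TG T X) (hf : LF X) (hR : TG T R)
    (hRX : R ≤ X) (hne : R ≠ X) : ∃ t ∈ T, t ∈ X ∧ t ∈ Nr R ∧ t ∉ R := by
  have := h.cnt
  obtain ⟨hl, hp⟩ := h.toET.ln hX hf
  exact tnc_M h.pos h.thin hf hp hl h.conj hX hR hRX hne

/-- elements centralising `Q` normalise the group generated by `TN T Q` -/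
theorem ET.nr_TN (h : ET m T) {Q : Subgroup G} {g : G} (hg : g ∈ Nr Q) :
    g ∈ Nr (Subgroup.closure (TN T Q)) := by
  have hconj : ∀ g : G, g ∈ Nr Q → ∀ s ∈ TN T Q, g * s * g⁻¹ ∈ TN T Q := by
    intro g hg s hs
    refine ⟨?_, mul_mem (mul_mem hg hs.2) (inv_mem hg)⟩
    have := h.conj s hs.1 g⁻¹
    rwa [inv_inv] at this
  have key : ∀ g : G, g ∈ Nr Q → ∀ x ∈ Subgroup.closure (TN T Q),
      g * x * g⁻¹ ∈ Subgroup.closure (TN T Q) := by
    intro g hg x hx
    refine Subgroup.closure_induction (p := fun x _ => g * x * g⁻¹ ∈ Subgroup.closure (TN T Q))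
      ?_ ?_ ?_ ?_ hx
    · intro x hx
      exact Subgroup.subset_closure (hconj g hg x hx)
    · simp
    · intro x y _ _ hx hy
      have := mul_mem hx hy
      convert this using 1
      group
    · intro x _ hx
      have := inv_mem hx
      convert this using 1
      group
  rw [mem_Nr]
  intro x
  refine ⟨key g hg x, fun hx => ?_⟩
  have := key g⁻¹ (inv_mem hg) _ hx
  convert this using 1
  group

end Pool.Agent.Helper59.EK
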