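import Pool.Agent.Helper59.EK.ThinL

/-!
# EK-14. Sections: counterexamples pass to quotients

Compare EI/Sec.lean.
-/

set_option autoImplicit false

namespace Pool.Agent.Helper59.EK

universe u v

open Pool.Agent.Helper98.Engel Pool.Agent.Helper59.EI

variable {G : Type u} [Group G] {m : ℕ}

namespace SecE

/-- the elements acting on `S` modulo `A` -/
private def PP (A : Subgroup G) (S : Set G) (h : G) : Prop :=
  ∀ s ∈ S, ∃ s' ∈ S, s'⁻¹ * (h⁻¹ * s * h) ∈ A

private theorem PP.mul {A : Subgroup G} {S : Set G} {g h : G} (hh : h ∈ Nr A) (h1 : PP A S g)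
    (h2 : PP A S h) : PP A S (g * h) := by
  intro s hs
  obtain ⟨s1, hs1, ha1⟩ := h1 s hs
  obtain ⟨s2, hs2, ha2⟩ := h2 s1 hs1
  refine ⟨s2, hs2, ?_⟩
  have h3 : h⁻¹ * (s1⁻¹ * (g⁻¹ * s * g)) * h ∈ A := (mem_Nr'.1 hh _).1 ha1
  have h4 := A.mul_mem ha2 h3
  have h5 : s2⁻¹ * (h⁻¹ * s1 * h) * (h⁻¹ * (s1⁻¹ * (g⁻¹ * s * g)) * h) =
      s2⁻¹ * ((g * h)⁻¹ * s * (g * h)) := by group
  rwa [h5] at h4

private def MM (A : Subgroup G) (S : Set G) : Subgroup G where
  carrier := {h | h ∈ Nr A ∧ PP A S h ∧ PP A S h⁻¹}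
  mul_mem' := by
    rintro a b ⟨ha1, ha2, ha3⟩ ⟨hb1, hb2, hb3⟩
    refine ⟨(Nr A).mul_mem ha1 hb1, ha2.mul hb1 hb2, ?_⟩
    rw [mul_inv_rev]
    exact hb3.mul ((Nr A).inv_mem ha1) ha3
  one_mem' := by
    have h1 : PP A S 1 := by
      intro s hs
      refine ⟨s, hs, ?_⟩
      have : s⁻¹ * (1⁻¹ * s * 1) = 1 := by group
      rw [this]
      exact A.one_mem
    refine ⟨(Nr A).one_mem, h1, ?_⟩
    rw [inv_one]
    exact h1
  inv_mem' := by
    rintro a ⟨ha1, ha2, ha3⟩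
    refine ⟨(Nr A).inv_mem ha1, ha3, ?_⟩
    rwa [inv_inv]

private theorem le_MM {A : Subgroup G} {S : Set G} (hSA : ∀ s ∈ S, s ∈ Nr A)
    (hSS : ∀ s ∈ S, ∀ s' ∈ S, s'⁻¹ * s * s' ∈ S ∧ s' * s * s'⁻¹ ∈ S) :
    Subgroup.closure S ⊔ A ≤ MM A S := by
  refine sup_le ((Subgroup.closure_le _).2 ?_) ?_
  · intro t ht
    refine ⟨hSA t ht, ?_, ?_⟩
    · intro s hs
      refine ⟨t⁻¹ * s * t, (hSS s hs t ht).1, ?_⟩
      rw [inv_mul_cancel]
      exact A.one_mem
    · intro s hs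
      refine ⟨t * s * t⁻¹, (hSS s hs t ht).2, ?_⟩
      rw [inv_inv, inv_mul_cancel]
      exact A.one_mem
  · have key : ∀ a ∈ A, PP A S a := by
      intro a ha s hs
      refine ⟨s, hs, ?_⟩
      have h1 : s⁻¹ * a⁻¹ * s ∈ A := (mem_Nr'.1 (hSA s hs) _).1 (A.inv_mem ha)
      have h2 := A.mul_mem h1 ha
      have h3 : s⁻¹ * a⁻¹ * s * a = s⁻¹ * (a⁻¹ * s * a) := by group
      rwa [h3] at h2
    intro a ha
    exact ⟨le_Nr A ha, key a ha, key a⁻¹ (A.inv_mem ha)⟩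

private theorem lf_sub {W : Subgroup G} {H : Subgroup W} (h : LF (H.map W.subtype)) : LF H := by
  refine LF.of_map W.subtype h ?_
  apply LF_of_finite
  have h1 : H ⊓ W.subtype.ker = ⊥ := by
    rw [Subgroup.ker_subtype, inf_bot_eq]
  rw [h1]
  exact Set.finite_singleton 1

end SecE

open SecE in
/-- The quotient of `⟨S⟩ A` by the locally finite subgroup `A` is again a counterexample. (An
element of `A` acts trivially on the image of `S`, since `s` normalises `A`; left Engel elements are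
mapped to left Engel elements; `⟨S⟩ A` is not locally finite, so neither is the quotient.) -/
theorem baseE_quot [Countable G] (ht : Thin m G) {T : Set G} (h : ET m T) {A : Subgroup G}
    (hA : LF A) {S : Set G} (hST : S ⊆ T) (hSA : ∀ s ∈ S, s ∈ Nr A)
    (hSS : ∀ s ∈ S, ∀ s' ∈ S, s'⁻¹ * s * s' ∈ S ∧ s' * s * s'⁻¹ ∈ S)
    (hbad : ¬ LF (Subgroup.closure S))
    {K : Type u} [Group K] (f : ↥(Subgroup.closure S ⊔ A) →* K) (hf : Function.Surjective f)
    (hk : ∀ x, f x = 1 ↔ (x : G) ∈ A) : BaseE K m (imgE f S) := by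
  have hSW : ∀ s ∈ S, s ∈ Subgroup.closure S ⊔ A := fun s hs =>
    (le_sup_left : Subgroup.closure S ≤ _) (Subgroup.subset_closure hs)
  have hAW : ∀ a ∈ A, a ∈ Subgroup.closure S ⊔ A := fun a ha =>
    (le_sup_right : A ≤ Subgroup.closure S ⊔ A) ha
  refine { pos := h.pos, ne := ?_, pow := ?_, conj := ?_, lft := ?_, cnt := ?_, thin := ?_,
           gen := ?_, bad := ?_ }
  · intro t ht
    exact ht.1
  · rintro _ ⟨_, s, hs, rfl⟩
    rw [← map_pow]
    have : s ^ m = 1 := Subtype.ext (by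
      rw [Subgroup.coe_pow, Subgroup.coe_one]
      exact h.pow s (hST hs))
    rw [this, map_one]
  · rintro _ ⟨hne, s, hs, rfl⟩ g
    obtain ⟨w, rfl⟩ := hf g
    refine ⟨?_, ?_⟩
    · intro h1
      apply hne
      have h2 : f s = f w * ((f w)⁻¹ * f s * f w) * (f w)⁻¹ := by group
      rw [h2, h1]
      group
    · have h1 := (le_MM hSA hSS w.2).2.1
      obtain ⟨s', hs', ha⟩ := h1 s hs
      refine ⟨⟨s', hSW s' hs'⟩, hs', ?_⟩
      have h2 : f ((⟨s', hSW s' hs'⟩ : ↥(Subgroup.closure S ⊔ A))⁻¹ * (w⁻¹ * s * w)) = 1 :=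
        (hk _).2 ha
      rw [map_mul, map_inv, inv_mul_eq_one] at h2
      rw [h2, map_mul, map_mul, map_inv]
  · rintro _ ⟨_, s, hs, rfl⟩ y
    obtain ⟨w, rfl⟩ := hf y
    obtain ⟨n, hn⟩ := h.lft s (hST hs) w
    refine ⟨n, ?_⟩
    have h1 : eng s n w = 1 := by
      apply Subtype.ext
      have h2 := map_eng (Subgroup.closure S ⊔ A).subtype s w n
      have h3 : (((eng s n w : ↥(Subgroup.closure S ⊔ A)) : G)) = eng (s : G) n (w : G) := h2
      rw [h3, hn]
      rfl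
    rw [← map_eng f s w n, h1, map_one]
  · exact hf.countable
  · exact thin_sec h.pos ht hA f hf hk
  · rw [eq_top_iff]
    intro g _
    obtain ⟨w, rfl⟩ := hf g
    have h1 : Subgroup.closure S ⊔ A ≤
        ((Subgroup.closure (imgE f S)).comap f).map (Subgroup.closure S ⊔ A).subtype := by
      refine sup_le ((Subgroup.closure_le _).2 ?_) ?_
      · intro s hs
        refine ⟨⟨s, hSW s hs⟩, ?_, rfl⟩
        change f ⟨s, hSW s hs⟩ ∈ Subgroup.closure (imgE f S)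
        by_cases h2 : f ⟨s, hSW s hs⟩ = 1
        · rw [h2]
          exact Subgroup.one_mem _
        · exact Subgroup.subset_closure ⟨h2, ⟨s, hSW s hs⟩, hs, rfl⟩
      · intro a ha
        refine ⟨⟨a, hAW a ha⟩, ?_, rfl⟩
        change f ⟨a, hAW a ha⟩ ∈ Subgroup.closure (imgE f S)
        rw [(hk ⟨a, hAW a ha⟩).2 ha]
        exact Subgroup.one_mem _
    obtain ⟨x, hx, hxw⟩ := h1 w.2
    have h2 : x = w := Subtype.ext hxw
    rw [← h2]
    exact hx
  · intro hLF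
    apply hbad
    have h1 : LF (⊤ : Subgroup ↥(Subgroup.closure S ⊔ A)) := by
      refine LF.of_map f (hLF.mono le_top) ?_
      apply lf_sub
      refine hA.mono ?_
      rintro _ ⟨y, hy, rfl⟩
      exact (hk y).1 hy.2
    exact (LF_top_iff.1 h1).mono le_sup_left

end Pool.Agent.Helper59.EK
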