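import Pool.Agent.Helper59.EK.DvApiM
import Pool.Agent.Helper59.EK.Comp
import Pool.Agent.Helper59.EI.DvApi

/-!
# EK-6. Structure of locally finite locally nilpotent subgroups
-/

set_option autoImplicit false

namespace Pool.Agent.Helper59.EK

universe u v

open Pool.Agent.Helper98.Engel Pool.Agent.Helper59.EI

variable {G : Type u} [Group G] {m : ℕ}

private theorem rel_ne_zero {α : Type*} {P K : Subgroup G} {S : Set α} (hS : S.Finite)
    (f : G → α) (hf : ∀ x ∈ P, f x ∈ S) (hK : ∀ x ∈ P, ∀ y ∈ P, f x = f y → x⁻¹ * y ∈ K) :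
    K.relIndex P ≠ 0 := by
  have : Finite S := hS.to_subtype
  have h1 : Finite (P ⧸ K.subgroupOf P) := by
    refine Finite.of_injective
      (fun q : P ⧸ K.subgroupOf P => (⟨f (q.out : P), hf _ (q.out : P).2⟩ : S)) ?_
    intro q q' hqq
    have h2 : f (q.out : P) = f (q'.out : P) := congrArg Subtype.val hqq
    have h3 := hK _ (q.out : P).2 _ (q'.out : P).2 h2
    rw [← QuotientGroup.out_eq' q, ← QuotientGroup.out_eq' q', QuotientGroup.eq,
      Subgroup.mem_subgroupOf]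
    exact h3
  exact Subgroup.index_ne_zero_of_finite

private theorem mem_sup_comm' {P Q : Subgroup G} (hc : ∀ x ∈ P, ∀ y ∈ Q, x * y = y * x) {x : G}
    (hx : x ∈ P ⊔ Q) : ∃ a ∈ P, ∃ b ∈ Q, x = a * b := by
  let R : Subgroup G :=
    { carrier := {x | ∃ a ∈ P, ∃ b ∈ Q, x = a * b}
      one_mem' := ⟨1, P.one_mem, 1, Q.one_mem, by simp⟩
      mul_mem' := by
        rintro _ _ ⟨a, ha, b, hb, rfl⟩ ⟨a', ha', b', hb', rfl⟩
        refine ⟨a * a', P.mul_mem ha ha', b * b', Q.mul_mem hb hb', ?_⟩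
        calc a * b * (a' * b') = a * (b * a') * b' := by group
          _ = a * (a' * b) * b' := by rw [hc a' ha' b hb]
          _ = a * a' * (b * b') := by group
      inv_mem' := by
        rintro _ ⟨a, ha, b, hb, rfl⟩
        refine ⟨a⁻¹, P.inv_mem ha, b⁻¹, Q.inv_mem hb, ?_⟩
        rw [mul_inv_rev, hc a⁻¹ (P.inv_mem ha) b⁻¹ (Q.inv_mem hb)] }
  have h1 : P ⊔ Q ≤ R := sup_le (fun a ha => ⟨a, ha, 1, Q.one_mem, by simp⟩)
    (fun b hb => ⟨1, P.one_mem, b, hb, by simp⟩)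
  exact h1 hx

/-- finitely many representatives -/
private theorem exists_reps {P X : Subgroup G} (h : P.relIndex X ≠ 0) :
    ∃ S : Set G, S.Finite ∧ S ⊆ X ∧ ∀ x ∈ X, ∃ a ∈ S, a⁻¹ * x ∈ P := by
  haveI : (P.subgroupOf X).FiniteIndex := ⟨h⟩
  haveI : Finite (X ⧸ P.subgroupOf X) := inferInstance
  refine ⟨Set.range (fun q : X ⧸ P.subgroupOf X => ((q.out : X) : G)), Set.finite_range _, ?_, ?_⟩
  · rintro _ ⟨q, rfl⟩
    exact (q.out : X).2
  · intro x hx
    refine ⟨_, ⟨QuotientGroup.mk (⟨x, hx⟩ : X), rfl⟩, ?_⟩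
    have h1 : (QuotientGroup.mk ((QuotientGroup.mk (⟨x, hx⟩ : X) : X ⧸ P.subgroupOf X).out) :
        X ⧸ P.subgroupOf X) = QuotientGroup.mk (⟨x, hx⟩ : X) := QuotientGroup.out_eq' _
    rw [QuotientGroup.eq, Subgroup.mem_subgroupOf] at h1
    exact h1

private theorem rel_of_reps {P X : Subgroup G} {S : Set G} (hS : S.Finite)
    (h : ∀ x ∈ X, ∃ a ∈ S, a⁻¹ * x ∈ P) : P.relIndex X ≠ 0 := by
  classical
  choose! f hf hf2 using h
  refine rel_ne_zero hS f hf ?_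
  intro x hx y hy hxy
  have h1 := hf2 x hx
  have h2 := hf2 y hy
  rw [← hxy] at h2
  have h3 : x⁻¹ * y = ((f x)⁻¹ * x)⁻¹ * ((f x)⁻¹ * y) := by group
  rw [h3]
  exact P.mul_mem (P.inv_mem h1) h2

private theorem PEl_mono {p : ℕ} (hpm : p ∣ m) {x : G} (h : PEl p x) : PEl m x := by
  obtain ⟨k, hk⟩ := h
  refine ⟨k, ?_⟩
  obtain ⟨c, hc⟩ := pow_dvd_pow_of_dvd hpm k
  rw [hc, pow_mul, hk, one_pow]

private theorem Thin_mono {p : ℕ} (hpm : p ∣ m) (h : Thin m G) : Thin p G := by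
  intro A h1 h2
  apply h A _ h2
  intro x hx
  obtain ⟨c, hc⟩ := hpm
  rw [hc, pow_mul, h1 x hx, one_pow]

/-- a divisible abelian `p`-group is divisible by `m` -/
private theorem Dv_mono {p : ℕ} (hp : p.Prime) (hm : 0 < m) (hpm : p ∣ m) {P : Subgroup G}
    (h : Dv p P) : Dv m P where
  comm := h.comm
  pel := fun x hx => PEl_mono hpm (h.pel x hx)
  div := by
    intro x hx
    haveI : Fact p.Prime := ⟨hp⟩
    obtain ⟨a, m', hm', hmm⟩ := Nat.exists_eq_pow_mul_and_not_dvd hm.ne' p hp.ne_one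
    obtain ⟨y, hy, hyx⟩ := h.exists_pow hx a
    obtain ⟨j, hj⟩ := h.pel y hy
    have hcop : Nat.Coprime m' (p ^ j) :=
      Nat.Coprime.pow_right j ((Nat.Prime.coprime_iff_not_dvd hp).2 hm').symm
    have hcop2 : Nat.Coprime m' (orderOf y) :=
      Nat.Coprime.coprime_dvd_right (orderOf_dvd_of_pow_eq_one hj) hcop
    obtain ⟨c, hc⟩ := exists_pow_eq_self_of_coprime hcop2
    refine ⟨y ^ c, P.pow_mem hy c, ?_⟩
    calc (y ^ c) ^ m = (y ^ c) ^ (m' * p ^ a) := by rw [hmm, mul_comm (p ^ a) m']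
      _ = ((y ^ m') ^ c) ^ p ^ a := by rw [← pow_mul, ← pow_mul, ← pow_mul]; congr 1; ring
      _ = x := by rw [hc, hyx]

/-- the induction over the primes -/
private theorem comp_induction [Countable G] (hm : 0 < m) (ht : Thin m G) {X : Subgroup G}
    (hX : LF X) (hl : LN X) (Y : ℕ → Subgroup G)
    (hY : ∀ p : ℕ, p.Prime → Y p ≤ X ∧ ∀ x, x ∈ Y p ↔ x ∈ X ∧ PEl p x)
    (s : Finset ℕ) (hs : ∀ p ∈ s, p.Prime ∧ p ∣ m) :
    ∃ P Z : Subgroup G, Dv m P ∧ P ≤ X ∧ (∀ p ∈ s, Y p ≤ Z) ∧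
      (∀ q : ℕ, q.Prime → q ∉ s → (∀ x ∈ P, ∀ y ∈ Y q, x * y = y * x) ∧
        (∀ x ∈ Z, ∀ y ∈ Y q, x * y = y * x)) ∧
      ∃ S : Set G, S.Finite ∧ ∀ x ∈ Z, ∃ a ∈ S, a⁻¹ * x ∈ P := by
  classical
  induction s using Finset.induction_on with
  | empty =>
    refine ⟨⊥, ⊥, Dv_bot m, bot_le, by simp, ?_, {1}, Set.finite_singleton _, ?_⟩
    · intro q _ _
      refine ⟨fun x hx y _ => ?_, fun x hx y _ => ?_⟩ <;>
      · rw [Subgroup.mem_bot] at hx
        rw [hx]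
        simp
    · intro x hx
      refine ⟨1, rfl, ?_⟩
      simpa using hx
  | insert q s hq ih =>
    obtain ⟨P, Z, hP, hPX, hZ, hcomm, S, hSf, hS⟩ := ih (fun p hp => hs p (Finset.mem_insert_of_mem hp))
    obtain ⟨hqp, hqm⟩ := hs q (Finset.mem_insert_self q s)
    haveI : Fact q.Prime := ⟨hqp⟩
    obtain ⟨hYX, hYmem⟩ := hY q hqp
    have hLP : LP q (Y q) := ⟨hX.mono hYX, fun x hx => ((hYmem x).1 hx).2⟩
    obtain ⟨hD, hDi⟩ := hLP.dv_eq (Thin_mono hqm ht)
    have hDY : EI.dv q (Y q) ≤ Y q := EI.dv_le q (Y q)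
    obtain ⟨c1, c2⟩ := hcomm q hqp hq
    obtain ⟨S', hS'f, hS'Y, hS'⟩ := exists_reps hDi
    have hcr : ∀ r : ℕ, r.Prime → r ≠ q → ∀ x ∈ Y q, ∀ y ∈ Y r, x * y = y * x := by
      intro r hr hrq x hx y hy
      have h1 := (hYmem x).1 hx
      have h2 := ((hY r hr).2 y).1 hy
      exact comm_of_coprime hl hqp hr hrq.symm h1.1 h2.1 h1.2 h2.2
    refine ⟨P ⊔ EI.dv q (Y q), Z ⊔ Y q, ?_, ?_, ?_, ?_, ?_⟩
    · exact DvM.sup hP (Dv_mono hqp hm hqm hD) (fun x hx y hy => c1 x hx y (hDY hy))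
    · exact sup_le hPX (hDY.trans hYX)
    · intro p hp
      rcases Finset.mem_insert.1 hp with rfl | hp
      · exact le_sup_right
      · exact (hZ p hp).trans le_sup_left
    · intro r hr hrs
      have hr1 : r ≠ q := fun h => hrs (h ▸ Finset.mem_insert_self q s)
      have hr2 : r ∉ s := fun h => hrs (Finset.mem_insert_of_mem h)
      obtain ⟨d1, d2⟩ := hcomm r hr hr2
      have key : ∀ A B : Subgroup G, (∀ x ∈ A, ∀ y ∈ Y r, x * y = y * x) → B ≤ Y q →
          ∀ x ∈ A ⊔ B, ∀ y ∈ Y r, x * y = y * x := by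
        intro A B hA hB x hx y hy
        have h1 : A ⊔ B ≤ Subgroup.centralizer {y} := by
          apply sup_le
          · intro a ha
            rw [Subgroup.mem_centralizer_singleton_iff]
            exact hA a ha y hy
          · intro b hb
            rw [Subgroup.mem_centralizer_singleton_iff]
            exact hcr r hr hr1 b (hB hb) y hy
        exact Subgroup.mem_centralizer_singleton_iff.1 (h1 hx)
      exact ⟨key P _ d1 hDY, key Z _ d2 le_rfl⟩
    · refine ⟨Set.image2 (fun a b => a * b) S S', hSf.image2 _ hS'f, ?_⟩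
      intro x hx
      obtain ⟨u, hu, v, hv, rfl⟩ := mem_sup_comm' c2 hx
      obtain ⟨a, ha, hau⟩ := hS u hu
      obtain ⟨b, hb, hbv⟩ := hS' v hv
      refine ⟨a * b, ⟨a, ha, b, hb, rfl⟩, ?_⟩
      have h1 := c1 _ hau b⁻¹ ((Y q).inv_mem (hS'Y hb))
      have h2 : (a * b)⁻¹ * (u * v) = (a⁻¹ * u) * (b⁻¹ * v) := by
        calc (a * b)⁻¹ * (u * v) = (b⁻¹ * (a⁻¹ * u)) * v := by group
          _ = ((a⁻¹ * u) * b⁻¹) * v := by rw [← h1]
          _ = _ := by group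
      rw [h2]
      exact Subgroup.mul_mem _ (Subgroup.mem_sup_left hau) (Subgroup.mem_sup_right hbv)

/-- Let `X` be locally finite and locally nilpotent with `PEl m`. Then the divisible part of `X` is
a divisible group of finite index. (For each prime `p` dividing `m` let `Y p` be the subgroup of
the `p`-elements of `X`; `LP.dv_eq` of EI/DvApi gives `Dv p (dv p (Y p))` of finite index in `Y p`.
The join `P` of the `dv p (Y p)` is `Dv m` and has finite index in `X`; so `dv m X = P` by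
`DvM.le_of_relIndex`.) -/
theorem dvM_struct [Countable G] (hm : 0 < m) (ht : Thin m G) {X : Subgroup G} (hX : LF X)
    (hp : ∀ x ∈ X, PEl m x) (hl : LN X) :
    Dv m (dv m X) ∧ (dv m X).relIndex X ≠ 0 ∧ ((X : Set G).Infinite → dv m X ≠ ⊥) := by
  classical
  have hex : ∀ p : ℕ, ∃ Y : Subgroup G, p.Prime → Y ≤ X ∧ ∀ x, x ∈ Y ↔ x ∈ X ∧ PEl p x := by
    intro p
    by_cases h : p.Prime
    · obtain ⟨Y, hY⟩ := exists_comp hl h
      exact ⟨Y, fun _ => hY⟩
    · exact ⟨⊥, fun h' => absurd h' h⟩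
  choose Y hY using hex
  obtain ⟨P, Z, hP, hPX, hZ, -, S, hSf, hS⟩ := comp_induction hm ht hX hl Y hY m.primeFactors
    (fun p hp => ⟨Nat.prime_of_mem_primeFactors hp, Nat.dvd_of_mem_primeFactors hp⟩)
  have hXZ : X ≤ Z := by
    intro x hx
    refine mem_of_comp hm (hp x hx) ?_
    intro p hpr hpm k hk
    have h1 : p ∈ m.primeFactors := Nat.mem_primeFactors.2 ⟨hpr, hpm, hm.ne'⟩
    exact hZ p h1 (((hY p hpr).2 _).2 ⟨X.pow_mem hx k, hk⟩)
  have hrel : P.relIndex X ≠ 0 := rel_of_reps hSf (fun x hx => hS x (hXZ hx))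
  have heq : dv m X = P := by
    apply le_antisymm
    · apply sSup_le
      rintro Q ⟨hQX, hQ⟩
      apply DvM.le_of_relIndex hm hQ
      intro h5
      exact hrel (Subgroup.relIndex_eq_zero_of_le_right hQX h5)
    · exact le_sSup ⟨hPX, hP⟩
  rw [heq]
  refine ⟨hP, hrel, ?_⟩
  intro hinf hbot
  rw [hbot, Subgroup.relIndex_bot_left] at hrel
  exact hinf (Nat.finite_of_card_ne_zero hrel)

end Pool.Agent.Helper59.EK
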