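import Pool.Agent.Helper59.EK.Defs
import Pool.Agent.Helper59.EI.ThinLP

/-!
# EK-9. Thinness of quotients by locally finite normal subgroups
-/

set_option autoImplicit false

namespace Pool.Agent.Helper59.EK

universe u v

open Pool.Agent.Helper98.Engel Pool.Agent.Helper59.EI

variable {G : Type u} [Group G] {m : ℕ}

private theorem thinL_mul {a b : ℕ} (ha : Thin a G) (hb : Thin b G) : Thin (a * b) G := by
  intro A h1 h2
  -- the subgroup of the a-th powers
  have hsub : ((fun x : G => x ^ a) '' (A : Set G)).Finite := by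
    have h3 : ((Subgroup.closure ((fun x : G => x ^ a) '' (A : Set G)) : Subgroup G) :
        Set G).Finite := by
      have hle : Subgroup.closure ((fun x : G => x ^ a) '' (A : Set G)) ≤ A := by
        rw [Subgroup.closure_le]
        rintro _ ⟨x, hx, rfl⟩
        exact A.pow_mem hx a
      apply hb
      · intro x hx
        induction hx using Subgroup.closure_induction with
        | mem x hx =>
          obtain ⟨y, hy, rfl⟩ := hx
          change (y ^ a) ^ b = 1
          rw [← pow_mul]
          exact h1 y hy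
        | one => exact one_pow b
        | mul x y hx hy ihx ihy =>
          have hc : Commute x y := h2 x (hle hx) y (hle hy)
          rw [hc.mul_pow, ihx, ihy, one_mul]
        | inv x hx ihx => rw [inv_pow, ihx, inv_one]
      · intro x hx y hy
        exact h2 x (hle hx) y (hle hy)
    exact h3.subset Subgroup.subset_closure
  have hker : {x : G | x ∈ A ∧ x ^ a = 1}.Finite := by
    have h3 := ha (Subgroup.closure {x : G | x ∈ A ∧ x ^ a = 1}) (by
      intro x hx
      have hle : Subgroup.closure {x : G | x ∈ A ∧ x ^ a = 1} ≤ A := by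
        rw [Subgroup.closure_le]
        exact fun x hx => hx.1
      induction hx using Subgroup.closure_induction with
      | mem x hx => exact hx.2
      | one => exact one_pow a
      | mul x y hx hy ihx ihy =>
        have hc : Commute x y := h2 x (hle hx) y (hle hy)
        rw [hc.mul_pow, ihx, ihy, one_mul]
      | inv x hx ihx => rw [inv_pow, ihx, inv_one]) (by
      have hle : Subgroup.closure {x : G | x ∈ A ∧ x ^ a = 1} ≤ A := by
        rw [Subgroup.closure_le]
        exact fun x hx => hx.1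
      intro x hx y hy
      exact h2 x (hle hx) y (hle hy))
    exact h3.subset Subgroup.subset_closure
  have hpre : ((A : Set G) ∩ (fun x : G => x ^ a) ⁻¹' ((fun x : G => x ^ a) '' (A : Set G))).Finite
      := by
    have h3 : (⋃ z ∈ (fun x : G => x ^ a) '' (A : Set G), {x : G | x ∈ A ∧ x ^ a = z}).Finite := by
      refine hsub.biUnion ?_
      rintro _ ⟨y, hy, rfl⟩
      refine (hker.image (fun x => y * x)).subset ?_
      rintro x ⟨hx, hxy⟩
      refine ⟨y⁻¹ * x, ⟨A.mul_mem (A.inv_mem hy) hx, ?_⟩, mul_inv_cancel_left y x⟩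
      have hc : Commute y⁻¹ x := h2 _ (A.inv_mem hy) x hx
      have hxy' : x ^ a = y ^ a := hxy
      rw [hc.mul_pow, inv_pow, hxy', inv_mul_cancel]
    refine h3.subset ?_
    rintro x ⟨hx, hx'⟩
    exact Set.mem_biUnion hx' ⟨hx, rfl⟩
  refine hpre.subset ?_
  intro x hx
  exact ⟨hx, ⟨x, hx, rfl⟩⟩

theorem thin_iff (hm : 0 < m) : Thin m G ↔ ∀ p : ℕ, p.Prime → p ∣ m → Thin p G := by
  constructor
  · rintro h p _ ⟨k, rfl⟩ A h1 h2
    refine h A ?_ h2
    intro x hx
    rw [pow_mul, h1 x hx, one_pow]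
  · induction m using Nat.strong_induction_on with
    | _ m ih =>
      intro h
      by_cases h1 : m = 1
      · subst h1
        intro A hA _
        refine (Set.finite_singleton (1 : G)).subset ?_
        intro x hx
        have := hA x hx
        rwa [pow_one] at this
      · obtain ⟨p, hp, k, hk⟩ := Nat.exists_prime_and_dvd h1
        have hk0 : 0 < k := by
          rcases Nat.eq_zero_or_pos k with h0 | h0
          · rw [h0, mul_zero] at hk
            omega
          · exact h0
        have hkm : k < m := by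
          rw [hk]
          have := hp.two_le
          nlinarith
        rw [hk]
        refine thinL_mul (h p hp ⟨k, hk⟩) (ih k hkm hk0 ?_)
        intro q hq hqk
        exact h q hq (hk ▸ Dvd.dvd.mul_left hqk p)

/-- one step of the construction of a Sylow subgroup -/
private theorem thinL_step {p : ℕ} [Fact p.Prime] {Q : Type u} [Group Q] (q : G →* Q) {E : Subgroup G}
    (hE : LF E) (hq : ∀ x ∈ E, ∃ k : ℕ, q x ^ p ^ k = 1) {S : Subgroup G} (hSE : S ≤ E)
    (hSf : (S : Set G).Finite) (hSp : ∀ x ∈ S, PEl p x) {g : G} (hg : g ∈ E) :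
    ∃ S' : Subgroup G, S ≤ S' ∧ S' ≤ E ∧ (S' : Set G).Finite ∧ (∀ x ∈ S', PEl p x) ∧
      q g ∈ S'.map q := by
  classical
  set F : Subgroup G := Subgroup.closure ((S : Set G) ∪ {g}) with hF
  have hFE : F ≤ E := by
    rw [hF, Subgroup.closure_le]
    rintro x (hx | hx)
    · exact hSE hx
    · rw [Set.mem_singleton_iff] at hx
      rw [hx]
      exact hg
  have hFf : (F : Set G).Finite := hE _ (hSf.union (Set.finite_singleton g)) (by
    rintro x (hx | hx)
    · exact hSE hx
    · rw [Set.mem_singleton_iff] at hx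
      rw [hx]
      exact hg)
  haveI : Finite F := hFf
  have hSF : S ≤ F := fun x hx => Subgroup.subset_closure (Or.inl hx)
  have hgF : g ∈ F := Subgroup.subset_closure (Or.inr rfl)
  have hSg : IsPGroup p (S.subgroupOf F) := by
    rintro ⟨⟨x, hxF⟩, hx⟩
    obtain ⟨k, hk⟩ := hSp x hx
    exact ⟨k, Subtype.ext (Subtype.ext hk)⟩
  obtain ⟨P, hP⟩ := hSg.exists_le_sylow
  -- the image of `P` is the image of `F`
  set r : F →* (F.map q) := (q.comp F.subtype).codRestrict (F.map q) (fun x => ⟨x, x.2, rfl⟩)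
    with hr
  have hrs : Function.Surjective r := by
    rintro ⟨_, x, hx, rfl⟩
    exact ⟨⟨x, hx⟩, rfl⟩
  have hqF : IsPGroup p (F.map q) := by
    rintro ⟨_, x, hx, rfl⟩
    obtain ⟨k, hk⟩ := hq x (hFE hx)
    exact ⟨k, Subtype.ext hk⟩
  have hidx : ((P : Subgroup F).map r).index = 1 := by
    have h1 : ((P : Subgroup F).map r).index ∣ (P : Subgroup F).index :=
      Subgroup.index_map_dvd _ hrs
    have h2 : ¬ p ∣ ((P : Subgroup F).map r).index := fun h =>
      P.not_dvd_index (h.trans h1)
    haveI : Finite (F.map q) := Finite.of_surjective r hrs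
    obtain ⟨k, hk⟩ := hqF.index ((P : Subgroup F).map r)
    rcases Nat.eq_zero_or_pos k with h0 | h0
    · rw [hk, h0, pow_zero]
    · exfalso
      apply h2
      rw [hk]
      exact dvd_pow_self p (by omega)
  rw [Subgroup.index_eq_one] at hidx
  refine ⟨(P : Subgroup F).map F.subtype, ?_, ?_, ?_, ?_, ?_⟩
  · intro x hx
    exact ⟨⟨x, hSF hx⟩, hP (Subgroup.mem_subgroupOf.2 hx), rfl⟩
  · rintro _ ⟨x, _, rfl⟩
    exact hFE x.2
  · exact hFf.subset (by
      rintro _ ⟨x, _, rfl⟩
      exact x.2)
  · rintro _ ⟨x, hx, rfl⟩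
    obtain ⟨k, hk⟩ := P.isPGroup' ⟨x, hx⟩
    refine ⟨k, ?_⟩
    have h3 := congrArg (fun y : (P : Subgroup F) => ((y : F) : G)) hk
    exact h3
  · have h1 : r ⟨g, hgF⟩ ∈ (P : Subgroup F).map r := by
      rw [hidx]
      exact Subgroup.mem_top _
    obtain ⟨x, hx, hxg⟩ := h1
    refine ⟨x, ⟨x, hx, rfl⟩, ?_⟩
    exact congrArg Subtype.val hxg

/-- Thinness passes to quotients by locally finite normal subgroups. (Compare `thin_quot_LP` of
EI/ThinLP. Let `E` be generated by countably many lifts of different elements of an infinite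
elementary abelian subgroup of the quotient. `E` is locally finite and countable, `E / (E ∩ O)` is a
`p`-group. Choose Sylow `p`-subgroups `S n ≤ S (n+1)` of finite subgroups `E n ≤ E (n+1)` with union
`E`; their union `S` is a locally finite `p`-group and `E = S (E ∩ O)`. `S` has a divisible subgroup
of finite index, the image of which is trivial.) -/
theorem thin_quot_LF {p : ℕ} (hp : p.Prime) (ht : Thin p G) (O : Subgroup G) [O.Normal]
    (hO : LF O) : Thin p (G ⧸ O) := by
  classical
  haveI : Fact p.Prime := ⟨hp⟩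
  intro A h1 h2
  by_contra hinf
  -- a sequence of pairwise different elements of `A`
  have hinf' : (A : Set (G ⧸ O)).Infinite := hinf
  obtain ⟨f, hf⟩ : ∃ f : ℕ → G ⧸ O, Function.Injective f ∧ ∀ n, f n ∈ A := by
    have : Infinite A := hinf'.to_subtype
    refine ⟨fun n => ((Infinite.natEmbedding A n : A) : G ⧸ O), ?_, fun n => SetLike.coe_mem _⟩
    intro a b hab
    exact (Infinite.natEmbedding A).injective (Subtype.ext hab)
  obtain ⟨hfi, hfA⟩ := hf
  choose g hg using fun n => QuotientGroup.mk'_surjective O (f n)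
  set E : Subgroup G := A.comap (QuotientGroup.mk' O) with hE
  have hgE : ∀ n, g n ∈ E := by
    intro n
    rw [hE, Subgroup.mem_comap, hg]
    exact hfA n
  have hEq : ∀ x ∈ E, ∃ k : ℕ, QuotientGroup.mk' O x ^ p ^ k = 1 := by
    intro x hx
    exact ⟨1, by rw [pow_one]; exact h1 _ hx⟩
  have hELF : LF E := by
    apply LF.of_map (QuotientGroup.mk' O)
    · refine (LP_of_comm (p := p) ?_ ?_).1
      · rintro _ ⟨x, hx, rfl⟩ _ ⟨y, hy, rfl⟩
        exact h2 _ hx _ hy
      · rintro _ ⟨x, hx, rfl⟩
        exact ⟨1, by rw [pow_one]; exact h1 _ hx⟩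
    · apply hO.mono
      rw [QuotientGroup.ker_mk']
      exact inf_le_right
  -- the chain of finite `p`-subgroups
  let X : Type u := {S : Subgroup G // S ≤ E ∧ (S : Set G).Finite ∧ ∀ x ∈ S, PEl p x}
  have hstep : ∀ (S : X) (n : ℕ), ∃ S' : X, S.1 ≤ S'.1 ∧
      QuotientGroup.mk' O (g n) ∈ S'.1.map (QuotientGroup.mk' O) := by
    intro S n
    obtain ⟨S', h3, h4, h5, h6, h7⟩ := thinL_step (QuotientGroup.mk' O) hELF hEq S.2.1 S.2.2.1
      S.2.2.2 (hgE n)
    exact ⟨⟨S', h4, h5, h6⟩, h3, h7⟩
  choose nxt hn1 hn2 using hstep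
  have hbot : (⊥ : Subgroup G) ≤ E ∧ ((⊥ : Subgroup G) : Set G).Finite ∧
      ∀ x ∈ (⊥ : Subgroup G), PEl p x := by
    refine ⟨bot_le, ?_, ?_⟩
    · rw [Subgroup.coe_bot]
      exact Set.finite_singleton 1
    · intro x hx
      rw [Subgroup.mem_bot] at hx
      rw [hx]
      exact PEl_one p
  let S : ℕ → X := fun n => Nat.rec (⟨⊥, hbot⟩ : X) (fun n s => nxt s n) n
  have hS1 : ∀ n, (S n).1 ≤ (S (n + 1)).1 := fun n => hn1 (S n) n
  have hS2 : ∀ n, QuotientGroup.mk' O (g n) ∈ (S (n + 1)).1.map (QuotientGroup.mk' O) :=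
    fun n => hn2 (S n) n
  have hmono : Monotone (fun n => (S n).1) := monotone_nat_of_le_succ hS1
  set F : Set (Subgroup G) := Set.range (fun n => (S n).1) with hFdef
  have hFne : F.Nonempty := ⟨_, ⟨0, rfl⟩⟩
  have hFd : DirectedOn (· ≤ ·) F := by
    rintro _ ⟨a, rfl⟩ _ ⟨b, rfl⟩
    exact ⟨_, ⟨max a b, rfl⟩, hmono (le_max_left a b), hmono (le_max_right a b)⟩
  set U : Subgroup G := sSup F with hU
  have hULP : LP p U := LP.sSupD hFne hFd (by
    rintro _ ⟨n, rfl⟩
    exact ⟨LF_of_finite (S n).2.2.1, (S n).2.2.2⟩)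
  have hUE : U ≤ E := sSup_le (by
    rintro _ ⟨n, rfl⟩
    exact (S n).2.1)
  have hUc : (U : Set G).Countable := by
    have h3 : (U : Set G) ⊆ ⋃ n : ℕ, ((S n).1 : Set G) := by
      intro x hx
      have hx' : x ∈ sSup F := hx
      rw [Subgroup.mem_sSup_of_directedOn hFne hFd] at hx'
      obtain ⟨_, ⟨n, rfl⟩, hxn⟩ := hx'
      exact Set.mem_iUnion.2 ⟨n, hxn⟩
    exact (Set.countable_iUnion (fun n => (S n).2.2.1.countable)).mono h3
  haveI hcount : Countable U := hUc.to_subtype
  obtain ⟨P, hP, -, -, hPi⟩ := cher (X := U) (LP_top_iff.2 hULP) (ht.sub U)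
  -- the image of `P` is trivial
  have hPO : P ≤ (O.subgroupOf U) := by
    intro x hx
    obtain ⟨y, hy, rfl⟩ := hP.div x hx
    rw [Subgroup.mem_subgroupOf]
    have h3 : QuotientGroup.mk' O ((y ^ p : U) : G) = 1 := by
      rw [Subgroup.coe_pow, map_pow]
      exact h1 _ (hUE y.2)
    exact (QuotientGroup.eq_one_iff _).1 h3
  have hindex : (O.subgroupOf U).relIndex ⊤ ≠ 0 :=
    fun h => hPi (by
      have := Subgroup.relIndex_eq_zero_of_le_left hPO h
      exact this)
  rw [Subgroup.relIndex_top_right] at hindex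
  -- so the image of `U` is finite
  have hFI : (O.subgroupOf U).FiniteIndex := ⟨hindex⟩
  have hfin : Finite (U ⧸ (O.subgroupOf U)) := Subgroup.finite_quotient_of_finiteIndex
  have hex : ∀ n, ∃ x : U, QuotientGroup.mk' O (x : G) = f n := by
    intro n
    obtain ⟨x, hx, hxg⟩ := hS2 n
    refine ⟨⟨x, ?_⟩, ?_⟩
    · exact (le_sSup (show (S (n + 1)).1 ∈ F from ⟨n + 1, rfl⟩) : (S (n + 1)).1 ≤ sSup F) hx
    · rw [hxg, hg]
  choose w hw using hex
  have hinj : Function.Injective
      (fun n : ℕ => (QuotientGroup.mk (w n) : U ⧸ (O.subgroupOf U))) := by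
    intro a b hab
    apply hfi
    rw [← hw a, ← hw b]
    have h3 := QuotientGroup.eq.1 hab
    rw [Subgroup.mem_subgroupOf] at h3
    exact QuotientGroup.eq.2 (by simpa using h3)
  exact not_injective_infinite_finite _ hinj

/-- the version for sections -/
theorem thin_sec (hm : 0 < m) (ht : Thin m G) {A W : Subgroup G} (hA : LF A) {K : Type u}
    [Group K] (f : W →* K) (hf : Function.Surjective f) (hk : ∀ x, f x = 1 ↔ (x : G) ∈ A) :
    Thin m K := by
  rw [thin_iff hm]
  intro p hp hpm
  have h1 : Thin p W := ((thin_iff hm).1 (ht.sub W)) p hp hpm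
  have hker : LF f.ker := by
    refine LF.of_map W.subtype ?_ ?_
    · refine hA.mono ?_
      rintro _ ⟨x, hx, rfl⟩
      exact (hk x).1 hx
    · rw [Subgroup.ker_subtype, inf_bot_eq]
      exact lfaux_bot
  have h2 : Thin p (W ⧸ f.ker) := thin_quot_LF hp h1 f.ker hker
  let e : W ⧸ f.ker ≃* K := QuotientGroup.quotientKerEquivOfSurjective f hf
  intro Q hQ1 hQ2
  have h3 := h2 (Q.comap e.toMonoidHom) (by
    intro x hx
    apply e.injective
    rw [map_pow, map_one]
    exact hQ1 _ hx) (by
    intro x hx y hy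
    apply e.injective
    rw [map_mul, map_mul]
    exact hQ2 _ hx _ hy)
  refine (h3.image e).subset ?_
  intro x hx
  refine ⟨e.symm x, ?_, e.apply_symm_apply x⟩
  change e (e.symm x) ∈ Q
  rwa [e.apply_symm_apply]

end Pool.Agent.Helper59.EK
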